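import Pool.Agent.Lib.NA.Blue
import Pool.Agent.Lib.EX.K1O
import Pool.Agent.Lib.EX.B_LFT
import Pool.Agent.Lib.EX.B_FINV

/-! Project NA, row BR4. -/

open scoped Classical Topology ContDiff Manifold
open Set Complex Metric Filter

set_option linter.unusedSectionVars false

noncomputable section

namespace Pool.Agent.Lib.NA

open Pool.Agent.Lib.SV (E)
open Pool.Agent.Lib.HS32 Pool.Agent.Lib.EX Pool.Agent.Lib.ZL
open Pool.Agent.Lib.KP (HolAt)
open Pool.Agent.Lib.HS.BBR (mf)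

namespace BR4

variable {n : ℕ} {I : Type} [Fintype I] [DecidableEq I] {c : I → Option (Fin n)} {z : E n}

theorem xm_mul (k : I → ℕ) (j : ℕ) (y : E n) :
    xm c (fun i => (j : ℤ) * k i) y = xm c (fun i => k i) y ^ j := by
  rw [xm, xm, ← Finset.prod_pow]
  exact Finset.prod_congr rfl fun i _ => by rw [mul_comm, zpow_mul, zpow_natCast]

theorem hol_pow {v : E n → ℂ} (h : HolN v z) (j : ℕ) : HolN (fun y => v y ^ j) z :=
  h.mono fun _ hy => hy.fun_pow j

theorem mer {k : I → ℕ} {j : ℕ} {U σ v : E n → ℂ}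
    (h : ∀ᶠ y in 𝓝 z, σ y = v y * xm c (fun i => k i) y) : ∀ᶠ y in 𝓝 z, Off c y →
      U y / σ y ^ j = xm c (-fun i => (j : ℤ) * k i) y * (U y / v y ^ j) := by
  filter_upwards [h] with y h1 _
  rw [h1, MON.xm_neg, xm_mul, mul_pow, div_mul_eq_div_div, div_eq_inv_mul]

open FINV in
theorem gen {M : Mf n} {ι : Type} (D : Ad M I) (k : I → ℕ) (j : ℕ) (W : ι → Set M.X)
    (σ : ι → M.X → ℂ) (g : ι → ι → M.X → ℂ) (F : M.X → ℂ) (hW : ∀ a, IsOpen (W a))
    (v : ι → D.A → E n → ℂ) (hv : ∀ a, D.On (W a) fun d z =>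
      HolN (v a d) z ∧ v a d z ≠ 0 ∧ D.rd (σ a) d z = v a d z * xm (D.c d) (fun i => k i) z)
    (hg : ∀ a b, D.On (W a ∩ W b) fun d z => HolN (D.rd (g a b) d) z)
    (hg2 : ∀ a b, ∀ x ∈ W a ∩ W b, σ a x = g a b x * σ b x)
    (hF : Mer D (fun i => j * k i) F) :
    ∃ u : ι → M.X → ℂ, (∀ a, D.On (W a) fun d z => HolN (D.rd (u a) d) z ∧ ∀ s, HolN s z →
      (∀ᶠ y in 𝓝 z, Off (D.c d) y → D.rd F d y = xm (D.c d) (-fun i => (j : ℤ) * k i) y * s y) →
        D.rd (u a) d z = v a d z ^ j * s z) ∧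
      ∀ a b, ∀ x ∈ W a ∩ W b, u a x = g a b x ^ j * u b x := by
  have key : ∀ a d, ∀ z ∈ B2 n, (D.e d).symm z ∈ W a → ∀ s, HolN s z →
      (∀ᶠ y in 𝓝 z, Off (D.c d) y → D.rd F d y = xm (D.c d) (-fun i => (j : ℤ) * k i) y * s y) →
      HolN (fun y => v a d y ^ j * s y) z ∧ ∀ᶠ y in 𝓝 z, Off (D.c d) y →
        D.rd (fun x => σ a x ^ j * F x) d y = v a d y ^ j * s y := by
    intro a d z hz ha s hs e
    refine ⟨?_, ?_⟩
    · filter_upwards [hol_pow (hv a d z hz ha).1 j, hs] with y h1 h2 using h1.fun_mul h2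
    · filter_upwards [e, ev_W (hW a) hz ha] with y h1 h2 h3
      have v1 := (hv a d y h2.1 h2.2).2.2
      have x0 := pow_ne_zero j (MON.xm_ne (fun i => (k i : ℤ)) h3)
      have h4 := h1 h3
      simp only [Ad.rd] at h4 v1 ⊢
      rw [h4, v1, MON.xm_neg, xm_mul, mul_pow, mul_assoc, mul_inv_cancel_left₀ x0]
  refine ⟨fun a x => limUnder (𝓝[O D] x) fun y => σ a y ^ j * F y, fun a d z hz ha => ⟨?_, ?_⟩,
    fun a b x hx => ?_⟩
  · obtain ⟨s, s1, s2⟩ := hF d z hz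
    obtain ⟨h1, h3⟩ := key a d z hz ha s s1 s2
    filter_upwards [h1, (lim_ev hz h1 h3).eventuallyEq_nhds] with y a1 a2
    exact a1.congr_of_eventuallyEq a2
  · intro s s1 s2
    obtain ⟨h1, h3⟩ := key a d z hz ha s s1 s2
    exact (lim_ev hz h1 h3).eq_of_nhds
  · obtain ⟨d, z, hz, rfl⟩ := chart D x
    obtain ⟨s, s1, s2⟩ := hF d z hz
    obtain ⟨h1, h3⟩ := key b d z hz hx.2 s s1 s2
    have hc := (hol_pow (hg a b d z hz hx) j).self_of_nhds.continuousAt
    refine (lim_eq (h := fun y => D.rd (g a b) d y ^ j * (v b d y ^ j * s y)) hz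
      (hc.mul h1.self_of_nhds.continuousAt) ?_).trans ?_
    · filter_upwards [h3, ev_W ((hW a).inter (hW b)) hz hx] with y a1 a2 a3
      rw [← a1 a3]
      simp only [Ad.rd]
      rw [hg2 a b _ a2.2, mul_pow, mul_assoc]
    · beta_reduce
      rw [lim_eq hz h1.self_of_nhds.continuousAt h3]
      rfl

end BR4

open LFT BR4 in
theorem nBR4 (hV : St_VAL) : St_BR4 := by
  intro n Y ι I _ _ _ _ _ _ _ _ m S ex k l η W σ g D hR hF hv
  choose v hv using hv
  have : (mf n Y).Cpt := ⟨‹_›, ‹_›, ‹_›⟩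
  have v1 := (hV n (mf n Y) I D).1
  have hW := fun a => (hR.opn a).1
  have hg : ∀ a b, D.On (W a ∩ W b) fun d z => HolN (D.rd (g a b) d) z := fun a b d z hz h =>
    holN ((hW a).inter (hW b)) (fun y hy => (hR.tr a b y hy).1) hz h
  refine ⟨fun V hA y => ?_, fun y hy => ?_, fun j V u hu => ⟨fun a d z hz h => ?_,
    fun a a' y hy d hd => ?_, fun a a' y hy h0 h1 => ?_⟩, fun j hG a y hy => ?_⟩
  · obtain ⟨d, z, hz, rfl⟩ := FINV.chart D y
    obtain ⟨r, f, f1, f2⟩ := hA d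
    refine ⟨r, fun x i => f i (D.e d x), ?_⟩
    filter_upwards [(D.e d).open_source.mem_nhds ((D.e d).map_target (FINV.tgt hz))] with x hx
    have hb := K1.b2 hx
    refine ⟨fun i => (K1.hol_iff0 (D.mem d) hx).2 ?_, ?_⟩
    · refine ((f1 i).differentiableAt (isOpen_ball.mem_nhds hb)).congr_of_eventuallyEq ?_
      filter_upwards [isOpen_ball.mem_nhds hb] with w hw
      exact congrArg (f i) ((D.e d).right_inv (FINV.tgt hw))
    · have h2 := f2 _ hb
      rw [(D.e d).left_inv hx] at h2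
      exact h2.trans funext_iff.symm
  · obtain ⟨i, hi, d, hd, h0⟩ := hy
    have h2 := (hF d _ (K1.b2 hd) i).2 h0
    rw [(D.e d).left_inv hd] at h2
    exact mem_biUnion (s := {i | 0 < k i}) hi h2
  · exact ⟨_, quo (holN (hW a) (hu.hol a) hz h) (hol_pow (hv a d z hz h).1 j)
      (pow_ne_zero j (hv a d z hz h).2.1),
      mer ((near (hW a) hz h).mono fun y hy => (hv a d y hy.1 hy.2).2.2)⟩
  · have hz := K1.b2 hd
    have e0 := (D.e d).left_inv hd
    have h : (D.e d).symm (D.e d y) ∈ W a ∩ W a' := e0.symm ▸ hy.2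
    have o := (hW a).inter (hW a')
    have s1 : HolN (fun w => D.rd (u a) d w - D.rd (g a a') d w ^ j * D.rd (u a') d w)
        (D.e d y) := by
      filter_upwards [holN (hW a) (hu.hol a) hz h.1, hol_pow (hg a a' d _ hz h) j,
        holN (hW a') (hu.hol a') hz h.2] with w w1 w2 w3 using w1.fun_sub (w2.fun_mul w3)
    rw [(v1 (D.c d) _ _ _ _ (quo s1 (hol_pow (hv a d _ hz h.1).1 j)
      (pow_ne_zero j (hv a d _ hz h.1).2.1)) ?_).self_of_nhds]
    · simp only [Ad.rd, e0]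
      rw [hu.glue a a' y ⟨hy.2, hy.1⟩]
      simp
    · filter_upwards [mer (U := fun w => D.rd (u a) d w - D.rd (g a a') d w ^ j * D.rd (u a') d w)
        (j := j) ((near (hW a) hz h.1).mono fun w hw => (hv a d w hw.1 hw.2).2.2), near o hz h]
        with w w1 w2 w3
      rw [← w1 w3]
      obtain ⟨-, t1, t2⟩ := hv a d w w2.1 w2.2.1
      have t3 := (hR.tr a a' _ w2.2).2
      have t4 : σ a ((D.e d).symm w) ≠ 0 :=
        fun h0 => mul_ne_zero t1 (MON.xm_ne (fun i => (k i : ℤ)) w3) (t2.symm.trans h0)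
      have t5 := pow_ne_zero j (left_ne_zero_of_mul (t3 ▸ t4))
      simp only [Ad.rd, Pi.sub_apply]
      rw [sub_div, t3, mul_pow, mul_div_mul_left _ _ t5]
  · obtain ⟨d, z, hz, rfl⟩ := FINV.chart D y
    have h2 := h1 d ((D.e d).map_target (FINV.tgt hz))
    rw [(D.e d).right_inv (FINV.tgt hz)] at h2
    have h3 := ((v1 (D.c d) _ (D.rd (fun x => u a' x / σ a' x ^ j) d) _ _
      (quo (holN (hW a') (hu.hol a') hz hy.2.2) (hol_pow (hv a' d z hz hy.2.2).1 j)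
        (pow_ne_zero j (hv a' d z hz hy.2.2).2.1))
      (mer ((near (hW a') hz hy.2.2).mono fun w hw =>
        (hv a' d w hw.1 hw.2).2.2))).self_of_nhds).symm.trans h2
    refine h0 ?_
    rw [hu.glue a a' _ ⟨hy.2, hy.1⟩, show u a' _ = 0 from (div_eq_zero_iff.1 h3).resolve_right
      (pow_ne_zero j (hv a' d z hz hy.2.2).2.1), mul_zero]
  · obtain ⟨r, G, G1, G2⟩ := hG
    obtain ⟨d, z, hz, rfl⟩ := FINV.chart D y
    obtain ⟨b, s, s1, s2, s3⟩ := G2 d z hz
    obtain ⟨u, u1, u2⟩ := gen D k j W σ g (G b) hW v hv hg (fun a b x hx => (hR.tr a b x hx).2) (G1 b)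
    refine ⟨u, ⟨fun a y hy => ?_, fun a b y hy => u2 a b y hy.1⟩, fun h0 => ?_⟩
    · obtain ⟨d, z, hz, rfl⟩ := FINV.chart D y
      have h3 := (u1 a d z hz hy).1.self_of_nhds
      rw [← (D.e d).right_inv (FINV.tgt hz)] at h3
      exact (K1.hol_iff0 (D.mem d) ((D.e d).map_target (FINV.tgt hz))).2 h3
    · exact mul_ne_zero (pow_ne_zero j (hv a d z hz hy.1).2.1) s2
        (((u1 a d z hz hy.1).2 s s1 s3).symm.trans h0)

end Pool.Agent.Lib.NA
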