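import Pool.Agent.Lib.NA.Blue2
import Pool.Agent.Lib.NA.B_BR4

/-! Project NA, row BR5. -/

open scoped Classical Topology ContDiff Manifold
open Set Complex Metric Filter

set_option linter.unusedSectionVars false

noncomputable section

namespace Pool.Agent.Lib.NA

open Pool.Agent.Lib.SV (E)
open Pool.Agent.Lib.HS32 Pool.Agent.Lib.EX Pool.Agent.Lib.EXS Pool.Agent.Lib.ZL
open Pool.Agent.Lib.KP (HolAt)
open Pool.Agent.Lib.HS.BBR (mf)

namespace BR5

variable {n : ℕ} {Y I : Type} [TopologicalSpace Y] [ChartedSpace (E n) Y] [Fintype I]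

theorem hol {S : I → Set Y} {k : I → ℕ} {s : Y → ℂ} {y : Y} (h : Ord n 0 S (fun i => k i) s y)
    (j : ℕ) : HolAt n 0 (s ^ j) y := by
  obtain ⟨h, w, h1, h2⟩ := h
  have a := h2.self_of_nhds.1
  have b := fun i => (h1.1.self_of_nhds i).1
  simp only [HolAt, pow_zero, mul_one, Pi.pow_apply] at a b ⊢
  refine DifferentiableAt.fun_pow ?_ j
  have p : DifferentiableAt ℂ (fun z => ∏ i, h i ((chartAt (E n) y).symm z) ^ k i)
      (chartAt (E n) y y) :=
    (HasFDerivAt.finsetProd fun i _ => ((b i).fun_pow (k i)).hasFDerivAt).differentiableAt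
  refine (a.fun_mul p).congr_of_eventuallyEq ?_
  filter_upwards [((chartAt (E n) y).tendsto_symm (mem_chart_source (E n) y)).eventually h2]
    with z hz
  simp only [hz.2.2, zpow_natCast]

theorem lg {k : I → ℕ} {h : I → ℂ} {w : ℂ} (hw : w ≠ 0) (hh : ∀ i, h i ≠ 0) :
    Real.log (normSq (w * ∏ i, h i ^ (k i : ℤ))) =
      Real.log (normSq w) + ∑ i, (k i : ℝ) * Real.log (normSq (h i)) := by
  simp only [zpow_natCast, map_mul, map_prod, map_pow]
  rw [Real.log_mul (normSq_pos.2 hw).ne' (Finset.prod_ne_zero_iff.2 fun i _ =>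
    pow_ne_zero _ (normSq_pos.2 (hh i)).ne'),
    Real.log_prod fun i _ => pow_ne_zero _ (normSq_pos.2 (hh i)).ne']
  simp only [Real.log_pow]

theorem dens {A c : ℝ} {δ : I → ℝ} {h : I → ℂ} (hA : 0 < A) (hh : ∀ i, h i ≠ 0) :
    A ^ (-c) * ∏ i, normSq (h i) ^ (-δ i) =
      Real.exp (-(c * Real.log A) - ∑ i, δ i * Real.log (normSq (h i))) := by
  rw [sub_eq_add_neg, Real.exp_add, ← Finset.sum_neg_distrib, Real.exp_sum,
    Real.rpow_def_of_pos hA]
  refine congrArg₂ _ (congrArg _ (by ring)) (Finset.prod_congr rfl fun i _ => ?_)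
  rw [Real.rpow_def_of_pos (normSq_pos.2 (hh i))]
  exact congrArg _ (by ring)

theorem cmp {a b C : ℝ} (h : |a - b| ≤ C) :
    Real.exp a ≤ Real.exp C * Real.exp b ∧ Real.exp b ≤ Real.exp C * Real.exp a := by
  have := abs_le.1 h
  simp only [← Real.exp_add, Real.exp_le_exp]
  constructor <;> linarith

end BR5

open BR4 BR5 in
theorem nBR5 (hL : St_LOC) : St_BR5 := by
  intro n Y ι I _ _ _ _ _ _ _ _ m M S ex k l η W σ g D X hR hF hv hM ho j q F hj hm h1
  choose v hv using hv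
  have hW := fun a => (hR.opn a).1
  have hg : ∀ a b, D.On (W a ∩ W b) fun d z => HolN (D.rd (g a b) d) z := fun a b d z hz h =>
    LFT.holN ((hW a).inter (hW b)) (fun y hy => (hR.tr a b y hy).1) hz h
  have ex1 : ∀ b, ∃ s : ι → Y → ℂ, SecOn n W (g ^ j) univ s ∧ (F b = 1 → s = σ ^ j) ∧
      ∀ a, ∀ x ∈ W a, x ∈ off D → s a x = σ a x ^ j * F b x := fun b => by
    by_cases hb : F b = 1
    · refine ⟨σ ^ j, ⟨fun a y hy => hol (hR.div a y hy) j, fun a a' y hy => ?_⟩, fun _ => rfl,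
        fun a x _ _ => by simp [hb]⟩
      simp only [Pi.pow_apply]
      rw [(hR.tr a a' y hy.1).2, mul_pow]
    · obtain ⟨u, u1, u2⟩ := gen D k j W σ g (F b) hW v hv hg (fun a b x hx => (hR.tr a b x hx).2)
        (hm b)
      refine ⟨u, ⟨fun a y hy => ?_, fun a b y hy => u2 a b y hy.1⟩, fun h => absurd h hb,
        fun a x hx hx' => ?_⟩
      · obtain ⟨d, z, hz, rfl⟩ := FINV.chart D y
        have h3 := (u1 a d z hz hy).1.self_of_nhds
        rw [← (D.e d).right_inv (FINV.tgt hz)] at h3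
        exact (K1.hol_iff0 (D.mem d) ((D.e d).map_target (FINV.tgt hz))).2 h3
      · obtain ⟨d, z, hz, rfl⟩ := FINV.chart D x
        obtain ⟨s, s1, s2⟩ := hm b d z hz
        have o := hx' d ((D.e d).map_target (FINV.tgt hz))
        rw [(D.e d).right_inv (FINV.tgt hz)] at o
        have a1 := (u1 a d z hz hx).2 s s1 s2
        have a2 := s2.self_of_nhds o
        have a3 := (hv a d z hz hx).2.2
        simp only [Ad.rd] at a1 a2 a3
        rw [a1, a2, a3, MON.xm_neg, xm_mul, mul_pow, mul_assoc,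
          mul_inv_cancel_left₀ (pow_ne_zero j (MON.xm_ne _ o))]
  choose s s1 s2 s3 using ex1
  obtain ⟨b₀, hb₀⟩ := h1
  refine ⟨s, s1, ⟨b₀, s2 b₀ hb₀⟩, fun c y => ?_⟩
  obtain ⟨L1, L2, L3⟩ := hL n Y I S D X y hF
  have key : ∀ a h, y ∈ W a → Eqs n S y h → ∃ C, 0 ≤ C ∧ ∀ᶠ x in 𝓝 y, x ∈ off D →
      (∑ b, normSq (s b a x)) ^ (-c) * ∏ i, normSq (h i x) ^ (-(k i / M - l i / m : ℝ)) ≤
        C * (om D (fun i => k i / M) (lps (j * M) F) (c * (j * M)) x * Real.exp (lw D X.o x)) ∧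
      om D (fun i => k i / M) (lps (j * M) F) (c * (j * M)) x * Real.exp (lw D X.o x) ≤
        C * ((∑ b, normSq (s b a x)) ^ (-c) *
          ∏ i, normSq (h i x) ^ (-(k i / M - l i / m : ℝ))) := by
    intro a h hy hh
    obtain ⟨h', w, e1, e2⟩ := hR.div a y hy
    obtain ⟨C1, c1⟩ := L3 h (fun i => k i / M - l i / m) hh
    obtain ⟨C2, c2⟩ := L3 h' (fun i => k i) e1
    have c3 : ContinuousAt (fun x => Real.log (normSq (w x))) y :=
      (continuous_normSq.continuousAt.comp (LFT.cont e2.self_of_nhds.1)).log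
        (normSq_pos.2 e2.self_of_nhds.2.1).ne'
    refine ⟨Real.exp (|c * j| * (|Real.log (normSq (w y))| + 1 + C2) + C1), (Real.exp_pos _).le, ?_⟩
    filter_upwards [c1, c2, e2, c3.abs.eventually (gt_mem_nhds (lt_add_one _)),
      (hW a).mem_nhds hy] with x x1 x2 x3 x4 x5 x6
    obtain ⟨y1, y2⟩ := x1 x6
    obtain ⟨y3, y4⟩ := x2 x6
    have t1 := lg (k := k) x3.2.1 y3
    rw [← x3.2.2] at t1
    have t2 : 0 < normSq (σ a x) := by
      rw [x3.2.2]
      exact normSq_pos.2 (mul_ne_zero x3.2.1 (Finset.prod_ne_zero_iff.2 fun i _ =>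
        zpow_ne_zero _ (y3 i)))
    have t3 : 0 < ∑ b, normSq (F b x) := Finset.sum_pos' (fun b _ => normSq_nonneg _)
      ⟨b₀, Finset.mem_univ _, normSq_pos.2 ((congrFun hb₀ x).trans_ne one_ne_zero)⟩
    have t4 : ∑ b, normSq (s b a x) = normSq (σ a x) ^ j * ∑ b, normSq (F b x) := by
      simp only [s3 _ a x x5 x6, map_mul, map_pow, Finset.mul_sum]
    have M0 : (M : ℝ) ≠ 0 := by positivity
    have j0 : (j : ℝ) ≠ 0 := by positivity
    have t5 : lw D (fun i => (k i : ℝ)) x = M * lw D (fun i => k i / M) x := by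
      simp only [lw, Finset.mul_sum]
      exact Finset.sum_congr rfl fun i _ => by field_simp
    have t6 : lw D (fun i => (k i / M - l i / m : ℝ)) x = lw D (fun i => k i / M) x - lw D X.o x := by
      simp only [lw, ho, sub_mul, Finset.sum_sub_distrib]
    rw [dens (t4 ▸ mul_pos (pow_pos t2 j) t3) y1, om, ← Real.exp_add, t4,
      Real.log_mul (pow_pos t2 j).ne' t3.ne', Real.log_pow, lps]
    refine cmp ?_
    have t7 : |Real.log (normSq (σ a x)) - lw D (fun i => (k i : ℝ)) x| ≤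
        |Real.log (normSq (w y))| + 1 + C2 := by
      rw [t1, add_sub_assoc]
      exact (abs_add_le _ _).trans (add_le_add x4.le y4)
    refine le_trans (le_of_eq ?_) ((abs_add_le _ _).trans (add_le_add
      ((abs_mul _ _).trans_le (mul_le_mul_of_nonneg_left t7 (abs_nonneg (c * j)))) y2))
    rw [← abs_neg, t5, t6]
    refine congrArg _ ?_
    field_simp
    ring
  constructor
  · rintro ⟨a, h, hy, hh, hV⟩
    obtain ⟨C, hC, hx⟩ := key a h hy hh
    exact L2 _ _ C hC (hx.mono fun x h1 h2 => (h1 h2).2) hV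
  · intro hI
    obtain ⟨a, hy⟩ := hR.cov y
    obtain ⟨h, -, hh, -⟩ := hR.form y
    obtain ⟨C, hC, hx⟩ := key a h hy hh
    exact ⟨a, h, hy, hh, L1 _ _ C hC (hx.mono fun x h1 h2 => (h1 h2).1) hI⟩

end Pool.Agent.Lib.NA
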