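import Pool.Agent.Lib.NA.Blue
import Pool.Agent.Lib.ZL.B_UPB
import Pool.Agent.Lib.EX.B_TRF

/-! Project NA, row VAL. -/

open scoped Classical Topology ContDiff ENNReal
open Set MeasureTheory Complex Metric Filter

set_option linter.unusedSectionVars false

noncomputable section

namespace Pool.Agent.Lib.NA

open Pool.Agent.Lib.SV (E)
open Pool.Agent.Lib.HS32 Pool.Agent.Lib.EX Pool.Agent.Lib.EXS Pool.Agent.Lib.ZL

namespace VAL

variable {n : ℕ} {ι : Type} [Fintype ι] [DecidableEq ι] {c : ι → Option (Fin n)} {P Q : ι → ℤ}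
  {z : E n} {f g s s' : E n → ℂ}

/-- A representation with numerator `s`. -/
def Rp (c : ι → Option (Fin n)) (Q : ι → ℤ) (g s : E n → ℂ) (z : E n) : Prop :=
  HolN s z ∧ ∀ᶠ y in 𝓝 z, Off c y → g y = xm c (-Q) y * s y

theorem rp_val (h : Rp c Q g s z) : val c Q g z = s z := (U11.val_ev h.1 h.2).eq_of_nhds

theorem rp_self (h : PolH c Q g z) : Rp c Q g (val c Q g) z := by
  obtain ⟨s, s1, s2⟩ := h
  have e := U11.val_ev s1 s2
  refine ⟨?_, ?_⟩
  · filter_upwards [s1, e.eventually_nhds] with y a b using a.congr_of_eventuallyEq b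
  · filter_upwards [s2, e] with y a b o
    rw [b, a o]

theorem rp_add (t : ℂ) (h : Rp c Q f s z) (h' : Rp c Q g s' z) :
    Rp c Q (fun y => f y + t * g y) (fun y => s y + t * s' y) z := by
  refine ⟨(h.1.and h'.1).mono fun y a => a.1.add (a.2.const_mul t), ?_⟩
  filter_upwards [h.2, h'.2] with y a b o
  rw [a o, b o]
  ring

theorem rp_sub (h : Rp c Q f s z) (h' : Rp c Q g s' z) :
    Rp c Q (fun y => f y - g y) (fun y => s y - s' y) z := by
  refine ⟨(h.1.and h'.1).mono fun y a => a.1.sub a.2, ?_⟩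
  filter_upwards [h.2, h'.2] with y a b o
  rw [a o, b o]
  ring

theorem rp_mul (h : Rp c P f s z) (h' : Rp c Q g s' z) :
    Rp c (P + Q) (fun y => f y * g y) (fun y => s y * s' y) z := by
  refine ⟨(h.1.and h'.1).mono fun y a => a.1.mul a.2, ?_⟩
  filter_upwards [h.2, h'.2] with y a b o
  rw [a o, b o, neg_add, MON.xm_add _ _ o]
  ring

theorem xm_nsmul (q : ℕ) (G : ι → ℤ) (z : E n) : xm c (q • G) z = xm c G z ^ q := by
  rw [xm, xm, ← Finset.prod_pow]
  exact Finset.prod_congr rfl fun i _ => by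
    rw [Pi.smul_apply, nsmul_eq_mul, mul_comm, zpow_mul, zpow_natCast]

theorem rp_pow (q : ℕ) (h : Rp c Q f s z) :
    Rp c (q • Q) (fun y => f y ^ q) (fun y => s y ^ q) z := by
  refine ⟨h.1.mono fun y a => a.pow q, ?_⟩
  filter_upwards [h.2] with y a o
  rw [a o, ← smul_neg, xm_nsmul, mul_pow]

variable {M : Mf n} {D : Ad M ι} {W : Set M.X} {F G : M.X → ℂ} {y : M.X} {d : D.A}

theorem rp_at (h : MerOn D W Q F) (hy : y ∈ W) (hd : y ∈ (D.e d).source) :
    Rp (D.c d) Q (D.rd F d) (val (D.c d) Q (D.rd F d)) (D.e d y) :=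
  rp_self (GLU.on_at h hd hy)

theorem van_of (h : PolH (D.c d) Q (D.rd F d) (D.e d y)) (hd : y ∈ (D.e d).source)
    (h0 : val (D.c d) Q (D.rd F d) (D.e d y) = 0) : Van D Q F y := by
  intro b hb
  obtain ⟨s1, s2⟩ := rp_self h
  have r : Rp (D.c b) Q (D.rd F b)
      (D.tr d b (val (D.c d) Q (D.rd F d)) * D.rd (D.um (-Q) d b) b) (D.e b y) := by
    refine ⟨TRF.holN_mul (TRF.hoT D hd hb s1) (TRF.um_hol D _ hd hb), ?_⟩
    filter_upwards [TRF.rep1 D hd hb s2, TRF.near D hd hb] with w a e o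
    rw [← a o]
    simp only [Ad.tr, Ad.rd, (D.e d).left_inv e.1]
  rw [rp_val r, Pi.mul_apply, Ad.tr, (D.e b).left_inv hb, h0, zero_mul]

theorem rd_congr (h : ∀ x ∈ off D, G x = F x) (hz : z ∈ B2 n) :
    ∀ᶠ w in 𝓝 z, Off (D.c d) w → D.rd G d w = D.rd F d w := by
  filter_upwards [isOpen_ball.eventually_mem hz] with w b o
  refine h _ ?_
  rwa [GLU.mem_off (GLU.mem_src d b), GLU.rinv d b]

theorem val_congr (h : ∀ᶠ w in 𝓝 z, Off c w → g w = f w) : val c Q g z = val c Q f z := by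
  refine congrArg lim (Filter.map_congr ?_)
  filter_upwards [nhdsWithin_le_nhds h, self_mem_nhdsWithin] with w a o
  rw [a o]

/-- Near a point the norm is comparable with the numerator. -/
theorem cmp (hPW : ZL.St_PW) [M.Cpt] (hd : y ∈ (D.e d).source)
    (h : Rp (D.c d) Q (D.rd F d) s (D.e d y)) : ∃ L > (0 : ℝ), ∀ᶠ x in 𝓝 y, x ∈ off D →
      normSq (s (D.e d x)) ≤ L * sq D Q F x ∧ sq D Q F x ≤ L * normSq (s (D.e d x)) := by
  obtain ⟨-, -, -, -, -, -, -, -, p9, -⟩ := hPW n M ι D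
  obtain ⟨r, r1, r2⟩ := exists_between (mem_ball_zero_iff.1 (GLU.mem_B2 hd))
  obtain ⟨L, -, hL⟩ := p9 r r2
  refine ⟨Real.exp (L * ∑ i, |(Q i : ℝ)|), Real.exp_pos _, ?_⟩
  have t := (D.e d).continuousAt hd
  filter_upwards [t.eventually h.2, (D.e d).open_source.mem_nhds hd,
    (continuous_norm.continuousAt.comp t).eventually (gt_mem_nhds r1)] with x a b e hx
  have o := hx d b
  obtain ⟨u, v⟩ := hL (fun i => (Q i : ℝ)) d _ (le_of_lt e) o
  have a' := a o
  rw [GLU.rd_e _ b] at u v a'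
  have k : normSq (xm (D.c d) (-Q) (D.e d x)) * xr (D.c d) (fun i => (Q i : ℝ)) (D.e d x) = 1 := by
    have := U11.nsq (c := D.c d) (P := -Q) (D.e d x)
    rw [neg_neg, show (-fun i => ((-Q) i : ℝ)) = fun i => (Q i : ℝ) from funext fun i => by simp]
      at this
    rw [← this, ← map_mul, MON.xm_neg, inv_mul_cancel₀ (MON.xm_ne Q o), map_one]
  have p : 0 ≤ normSq (xm (D.c d) (-Q) (D.e d x)) * normSq (s (D.e d x)) :=
    mul_nonneg (normSq_nonneg _) (normSq_nonneg _)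
  have u' := mul_le_mul_of_nonneg_left u p
  have v' := mul_le_mul_of_nonneg_left v p
  rw [sq, a', map_mul]
  constructor
  · calc _ = normSq (xm (D.c d) (-Q) (D.e d x)) * normSq (s (D.e d x)) *
          xr (D.c d) (fun i => (Q i : ℝ)) (D.e d x) := by rw [mul_right_comm, k, one_mul]
      _ ≤ _ := u'
      _ = _ := by ring
  · refine v'.trans_eq ?_
    rw [mul_left_comm, mul_right_comm, k, one_mul]

theorem kc (D : Ad M ι) (d : D.A) : IsCompact (Kc D d) := by
  have hs : closedBall (0 : E n) 1 ⊆ B2 n := closedBall_subset_ball one_lt_two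
  have e : Kc D d = (D.e d).symm '' closedBall (0 : E n) 1 := by
    ext x
    constructor
    · rintro ⟨a, b⟩
      exact ⟨_, mem_closedBall_zero_iff.2 b, (D.e d).left_inv a⟩
    · rintro ⟨z, hz, rfl⟩
      exact ⟨GLU.mem_src d (hs hz), by rw [GLU.rinv d (hs hz)]; exact mem_closedBall_zero_iff.1 hz⟩
  rw [e]
  exact (isCompact_closedBall 0 1).image_of_continuousOn
    ((D.e d).continuousOn_symm.mono fun z hz => GLU.mem_tgt d (hs hz))

theorem bound (hPW : ZL.St_PW) [M.Cpt] {K : Set M.X} (hK : IsCompact K) (hW : K ⊆ W)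
    (h : MerOn D W Q F) : ∃ C, ∀ x ∈ K ∩ off D, sq D Q F x ≤ C := by
  refine hK.induction_on (p := fun S => ∃ C, ∀ x ∈ S ∩ off D, sq D Q F x ≤ C) ⟨0, by simp⟩
    (fun s t hst ⟨C, hC⟩ => ⟨C, fun x hx => hC x ⟨hst hx.1, hx.2⟩⟩)
    (fun s t ⟨C, hC⟩ ⟨C', hC'⟩ => ⟨max C C', fun x hx => hx.1.elim
      (fun a => le_max_of_le_left (hC x ⟨a, hx.2⟩)) fun a => le_max_of_le_right (hC' x ⟨a, hx.2⟩)⟩)
    fun y hy => ?_
  obtain ⟨d, hd⟩ := GLU.ex_ch D y
  have r := rp_at h (hW hy) hd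
  obtain ⟨L, L0, hL⟩ := cmp hPW hd r
  have t := continuous_normSq.continuousAt.comp
    (r.1.self_of_nhds.continuousAt.comp ((D.e d).continuousAt hd))
  refine ⟨_, nhdsWithin_le_nhds (hL.and (t.eventually (gt_mem_nhds (lt_add_one _)))),
    L * (normSq (val (D.c d) Q (D.rd F d) (D.e d y)) + 1), fun x hx => ?_⟩
  exact (hx.1.1 hx.2).2.trans (mul_le_mul_of_nonneg_left hx.1.2.le L0.le)

theorem lower (hPW : ZL.St_PW) [M.Cpt] (h : MerOn D W Q F) (hy : y ∈ W) (hv : ¬ Van D Q F y) :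
    ∃ c > (0 : ℝ), ∀ᶠ x in 𝓝 y, x ∈ off D → c ≤ sq D Q F x := by
  obtain ⟨d, hd⟩ := GLU.ex_ch D y
  have r := rp_at h hy hd
  have q : 0 < normSq (val (D.c d) Q (D.rd F d) (D.e d y)) :=
    normSq_pos.2 fun e => hv (van_of (GLU.on_at h hd hy) hd e)
  obtain ⟨L, L0, hL⟩ := cmp hPW hd r
  have t := continuous_normSq.continuousAt.comp
    (r.1.self_of_nhds.continuousAt.comp ((D.e d).continuousAt hd))
  refine ⟨normSq (val (D.c d) Q (D.rd F d) (D.e d y)) / 2 / L, by positivity, ?_⟩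
  filter_upwards [hL, t.eventually (lt_mem_nhds (half_lt_self q))] with x a b hx
  rw [div_le_iff₀ L0, mul_comm]
  exact b.le.trans (a hx).1

end VAL

open VAL in
theorem nVAL (hPW : ZL.St_PW) : St_VAL := by
  intro n M _ ι _ _ D
  refine ⟨fun c Q g s z h1 h2 => U11.val_ev h1 h2, fun c Q g z h => rp_self h,
    fun W Q F h y hy d hd h0 => van_of (GLU.on_at h hd hy) hd h0,
    fun Q F => ⟨fun h d z hz _ => h d z hz, fun h d z hz => h d z hz trivial⟩,
    fun W W' Q F hW h d z hz hx => h d z hz (hW hx),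
    fun W Q F G t hF hG => ⟨fun d z hz hx => ⟨_, rp_add t (rp_self (hF d z hz hx))
      (rp_self (hG d z hz hx))⟩, fun d z hz hx => ⟨_, rp_sub (rp_self (hF d z hz hx))
      (rp_self (hG d z hz hx))⟩, fun y hy => ⟨fun a b d hd => ?_, fun a => ?_⟩⟩,
    fun W P Q F G hF hG => ⟨fun d z hz hx => ⟨_, rp_mul (rp_self (hF d z hz hx))
      (rp_self (hG d z hz hx))⟩, fun y hy => ⟨fun a => ?_, fun a d hd => ?_⟩⟩,
    fun W Q F q hF => ⟨fun d z hz hx => ⟨_, rp_pow q (rp_self (hF d z hz hx))⟩,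
      fun y hy => ⟨fun a d hd => ?_, fun hq a d hd => ?_⟩⟩,
    fun W Q F G h => ⟨fun hF d z hz hx => ?_, fun y a d hd => ?_⟩,
    fun W K Q F hK hW h => bound hPW hK hW h, fun W Q F h y hy hv => lower hPW h hy hv, kc D⟩
  · refine (rp_val (rp_add t (rp_at hF hy hd) (rp_at hG hy hd))).trans ?_
    rw [a d hd, b d hd, mul_zero, add_zero]
  · refine forall_congr' fun d => forall_congr' fun hd => ?_
    rw [sub_eq_zero.1 ((rp_val (rp_sub (rp_at hF hy hd) (rp_at hG hy hd))).symm.trans (a d hd))]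
  · obtain ⟨d, hd⟩ := GLU.ex_ch D y
    exact (mul_eq_zero.1 ((rp_val (rp_mul (rp_at hF hy hd) (rp_at hG hy hd))).symm.trans
      (a d hd))).imp (van_of (GLU.on_at hF hd hy) hd) (van_of (GLU.on_at hG hd hy) hd)
  · exact (rp_val (rp_mul (rp_at hF hy hd) (rp_at hG hy hd))).trans
      (mul_eq_zero.2 (a.imp (fun b => b d hd) fun b => b d hd))
  · exact IsNilpotent.eq_zero ⟨q, (rp_val (rp_pow q (rp_at hF hy hd))).symm.trans (a d hd)⟩
  · refine (rp_val (rp_pow q (rp_at hF hy hd))).trans ?_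
    rw [a d hd, zero_pow hq.ne']
  · obtain ⟨s, s1, s2⟩ := hF d z hz hx
    refine ⟨s, s1, ?_⟩
    filter_upwards [s2, rd_congr (d := d) h hz] with w a b o
    rw [b o, a o]
  · rw [val_congr (rd_congr h (GLU.mem_B2 hd)), a d hd]

end Pool.Agent.Lib.NA
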