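import Pool.Agent.Lib.NA.Blue
import Pool.Agent.Lib.ZL.B_EXT
import Pool.Agent.Lib.EXK.B_MIN
import Pool.Agent.Lib.EX.B_DIV

/-! Project NA: poles along the exceptional components drop. -/

open scoped Classical Topology ContDiff ENNReal Manifold
open Set MeasureTheory Complex Metric Filter

set_option linter.unusedSectionVars false

noncomputable section

namespace Pool.Agent.Lib.NA

open Pool.Agent.Lib.SV (E)
open Pool.Agent.Lib.HS32 Pool.Agent.Lib.EX Pool.Agent.Lib.EXS Pool.Agent.Lib.ZL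

namespace EXB

variable {n : ℕ} {M : Mf n} {ι : Type} [Fintype ι] [DecidableEq ι] {D : Ad M ι} {z : E n}
  {c : ι → Option (Fin n)} {g g' : ι → ℤ} {v : E n → ℂ} {k : ι → ℕ} {ex : Set ι} {W : Set M.X}

theorem hinv (h : HolN v z) (h0 : v z ≠ 0) : HolN (fun y => (v y)⁻¹) z :=
  (h.and (h.self_of_nhds.continuousAt.eventually_ne h0)).mono fun _ hy => hy.1.inv hy.2

theorem triv_add (h : Triv D W g) (h' : Triv D W g') : Triv D W (g + g') := by
  obtain ⟨σ, v, h⟩ := h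
  obtain ⟨σ', v', h'⟩ := h'
  refine ⟨σ * σ', v * v', fun d z hz ho => ?_⟩
  obtain ⟨a1, a2, a3⟩ := h d z hz ho
  obtain ⟨b1, b2, b3⟩ := h' d z hz ho
  refine ⟨(a1.and b1).mono fun y hy => hy.1.mul hy.2, mul_ne_zero a2 b2, fun hf => ?_⟩
  change D.rd σ d z * D.rd σ' d z = v d z * v' d z * _
  rw [a3 hf, b3 hf, MON.xm_add _ _ hf]
  ring

theorem triv_smul (h : Triv D W g) (p : ℕ) : Triv D W (p • g) := by
  induction p with
  | zero => exact ⟨1, 1, fun d z _ _ => ⟨.of_forall fun _ => differentiableAt_const _,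
      one_ne_zero, fun _ => by simp [Ad.rd, xm]⟩⟩
  | succ p ih =>
    rw [succ_nsmul]
    exact triv_add ih h

/-- Poles along exceptional components drop to the order of a principal divisor. -/
theorem drop (B : Bl D k ex) (hg : Triv D B.W g) {H : M.X → ℂ} {q : ι → ℤ}
    (hq : ∀ i ∉ ex, q i ≤ g i) (hH : MerOn D B.W q H) : MerOn D B.W g H := by
  obtain ⟨σ, v, hv⟩ := hg
  have h1 := EXC.exc_min (EXT.zero B) le_rfl (H := H * σ) (q - g)
    (fun i hi => by simpa [sp] using hq i hi) fun d z hz ho =>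
      EXT.mul (hH d z hz ho.1) (hv d z hz ho.1).1 ((GLU.ev_on B.opn hz ho.1).mono fun y hy hf => by
        rw [← (hv d y hy.1 hy.2).2.2 hf]
        rfl)
  intro d z hz ho
  obtain ⟨v1, v2, -⟩ := hv d z hz ho
  have h2 := EXT.mul (F' := D.rd H d) (K := -g) (h1 d z hz ⟨ho, B.lt _ ho⟩) (hinv v1 v2)
    ((GLU.ev_on B.opn hz ho).mono fun y hy hf => by
      obtain ⟨-, w2, w3⟩ := hv d y hy.1 hy.2
      have w4 := MON.xm_ne g hf
      change _ = D.rd H d y * D.rd σ d y * _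
      rw [w3 hf, MON.xm_neg]
      field_simp)
  refine EXC.polH_mono (fun i => ?_) h2
  simp only [Pi.sub_apply, Pi.neg_apply, Pi.zero_apply, sp, if_true, Nat.cast_zero]
  omega

end EXB

theorem nEXB (hV : St_VAL) : St_EXB := by
  intro n M _ ι _ _ D X R
  have tr : ∀ b p t, Triv D (R.B b).W (R.Q p t) := fun b p t => by
    have e : R.Q p t = (p • fun i => (R.k i : ℤ)) + t • fun i => (R.P.a i : ℤ) := by
      funext i
      simp [Rx.Q]
    rw [e]
    exact EXB.triv_add (EXB.triv_smul ⟨(R.B b).σ, (R.B b).v, fun d z hz ho =>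
      ⟨((R.B b).vhol d z hz ho).1, ((R.B b).vhol d z hz ho).2.1,
        fun _ => ((R.B b).vhol d z hz ho).2.2⟩⟩ p) (EXB.triv_smul (R.tri b) t)
  refine ⟨fun P Q F h h' d z hz => EXK.kMIN bDIV n ι _ P Q _ z (D.inj d) (h d z hz) (h' d z hz),
    tr, fun W g hW ⟨σ, v, hv⟩ => ?_, fun p t Q F hQ hF b z hz =>
      EXB.drop (R.B b) (tr b p t) hQ (fun d y hy _ => hF d y hy) b z hz (R.sub b z hz)⟩
  have e1 : D.On W fun d z => ∀ᶠ y in 𝓝 z, Off (D.c d) y →
      D.rd σ d y = xm (D.c d) (- -g) y * v d y := fun d z hz ho =>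
    (GLU.ev_on hW hz ho).mono fun y hy hf => by rw [(hv d y hy.1 hy.2).2.2 hf, neg_neg, mul_comm]
  have e2 : D.On W fun d z => ∀ᶠ y in 𝓝 z, Off (D.c d) y →
      D.rd σ⁻¹ d y = xm (D.c d) (-g) y * (v d y)⁻¹ := fun d z hz ho =>
    (GLU.ev_on hW hz ho).mono fun y hy hf => by
      change (D.rd σ d y)⁻¹ = _
      rw [(hv d y hy.1 hy.2).2.2 hf, MON.xm_neg, mul_inv, mul_comm]
  refine ⟨σ, fun d z hz ho => ⟨_, (hv d z hz ho).1, e1 d z hz ho⟩, fun d z hz ho =>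
    ⟨_, EXB.hinv (hv d z hz ho).1 (hv d z hz ho).2.1, e2 d z hz ho⟩, fun x hx => ?_,
    fun y hy => ?_⟩
  · obtain ⟨d, hd⟩ := GLU.ex_ch D x
    obtain ⟨-, a2, a3⟩ := GLU.on_at hv hd hx.1
    rw [← GLU.rd_e σ hd, a3 (hx.2 d hd)]
    exact mul_ne_zero a2 (MON.xm_ne g (hx.2 d hd))
  · obtain ⟨d, hd⟩ := GLU.ex_ch D y
    obtain ⟨a1, a2, -⟩ := GLU.on_at hv hd hy
    exact ⟨fun h => a2 (((hV n M ι D).1 _ _ _ _ _ a1 (GLU.on_at e1 hd hy)).self_of_nhds.symm.trans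
      (h d hd)), fun h => inv_ne_zero a2 (((hV n M ι D).1 _ _ _ _ _ (EXB.hinv a1 a2)
        (GLU.on_at e2 hd hy)).self_of_nhds.symm.trans (h d hd))⟩

end Pool.Agent.Lib.NA
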