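import Pool.Agent.Lib.NA.B_ONE
import Pool.Agent.Lib.ZL.B_UPB
import Pool.Agent.Lib.ZL.B_SPL

/-! Project NA, row IDL: functions that vanish on the locus of non-integrability. -/

open scoped Classical Topology ContDiff ENNReal
open Set MeasureTheory Complex Metric Filter

set_option linter.unusedSectionVars false

noncomputable section

namespace Pool.Agent.Lib.NA

open Pool.Agent.Lib.SV (E)
open Pool.Agent.Lib.HS32 Pool.Agent.Lib.EX Pool.Agent.Lib.EXS Pool.Agent.Lib.ZL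

namespace IDL

variable {n : ℕ} {M : Mf n} [M.Cpt] {ι : Type} [Fintype ι] [DecidableEq ι] {D : Ad M ι}

/-- An elementary form of the inequality of Young. -/
theorem young {s θ a b : ℝ} {m : ℕ} (hm : 1 ≤ m) (h : m * θ = 1) (hs : 0 ≤ s) :
    s * Real.exp (θ * a + (1 - θ) * b) ≤ s ^ m * Real.exp a + Real.exp b := by
  have e : s * Real.exp (θ * a + (1 - θ) * b) = s * Real.exp (θ * (a - b)) * Real.exp b := by
    rw [mul_assoc, ← Real.exp_add]
    exact congrArg (fun t => s * Real.exp t) (by ring)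
  have e' : (s * Real.exp (θ * (a - b))) ^ m * Real.exp b = s ^ m * Real.exp a := by
    rw [mul_pow, ← Real.exp_nat_mul, ← mul_assoc (m : ℝ), h, one_mul, mul_assoc, ← Real.exp_add,
      sub_add_cancel]
  rw [e, ← e']
  have hb := Real.exp_pos b
  have hu : 0 ≤ s * Real.exp (θ * (a - b)) := mul_nonneg hs (Real.exp_pos _).le
  rcases le_total (s * Real.exp (θ * (a - b))) 1 with k | k
  · nlinarith [pow_nonneg hu m]
  · nlinarith [le_self_pow₀ k (by omega : m ≠ 0)]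

/-- The norm of a section and its leading coefficient. -/
theorem cmp (hW : St_PW) (hV : St_VAL) {W : Set M.X} {Q : ι → ℤ} {F : M.X → ℂ}
    (hF : MerOn D W Q F) {y : M.X} {d : D.A} (hd : y ∈ (D.e d).source) (h1 : ‖D.e d y‖ ≤ 1)
    (hy : y ∈ W) : ∃ A : ℝ, 0 ≤ A ∧ ∀ᶠ w in 𝓝 (D.e d y), Off (D.c d) w →
      sq D Q F ((D.e d).symm w) ≤ A * normSq (val (D.c d) Q (D.rd F d) w) ∧
      normSq (val (D.c d) Q (D.rd F d) w) ≤ A * sq D Q F ((D.e d).symm w) := by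
  obtain ⟨-, -, -, -, -, p6, -, -, p9, -⟩ := hW n M ι D
  obtain ⟨C, -, hC⟩ := p9 (3 / 2) (by norm_num)
  refine ⟨Real.exp (C * ∑ i, |(-fun i => (Q i : ℝ)) i|), (Real.exp_pos _).le, ?_⟩
  filter_upwards [((hV n M ι D).2.1 _ Q _ _ (GLU.on_at hF hd hy)).2,
    continuous_norm.continuousAt.eventually (gt_mem_nhds (h1.trans_lt (by norm_num : (1 : ℝ) < 3 / 2)))]
    with w e hw ho
  obtain ⟨a, b⟩ := hC (-fun i => (Q i : ℝ)) d w hw.le ho
  have e1 : sq D Q F ((D.e d).symm w) = xr (D.c d) (-fun i => (Q i : ℝ)) w *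
      Real.exp (lw D (fun i => Q i) ((D.e d).symm w)) * normSq (val (D.c d) Q (D.rd F d) w) := by
    have := congrArg normSq (e ho)
    rw [map_mul, ZL.U11.nsq] at this
    rw [sq, show F ((D.e d).symm w) = D.rd F d w from rfl, this]
    ring
  have e2 : Real.exp (D.rd (lw D (-fun i => (Q i : ℝ))) d w) *
      Real.exp (lw D (fun i => Q i) ((D.e d).symm w)) = 1 := by
    rw [← Real.exp_add, Ad.rd, p6, neg_add_cancel, Real.exp_zero]
  have k := Real.exp_pos (lw D (fun i => Q i) ((D.e d).symm w))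
  have k' := normSq_nonneg (val (D.c d) Q (D.rd F d) w)
  have a' := mul_le_mul_of_nonneg_right a k.le
  have b' := mul_le_mul_of_nonneg_right b k.le
  rw [mul_assoc, e2, mul_one] at a'
  rw [e2, mul_assoc] at b'
  rw [e1]
  exact ⟨mul_le_mul_of_nonneg_right a' k', by
    rw [← mul_assoc]
    exact le_mul_of_one_le_left k' b'⟩

/-- The inequality of Łojasiewicz near a point. -/
theorem loc (hW : St_PW) (hV : St_VAL) (hL : St_LOJ1) {P Q : ι → ℤ} {r : ℕ}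
    {G : Fin r → M.X → ℂ} {W : Set M.X} {h : M.X → ℂ} (hG : ∀ i, Mer D Q (G i)) (hO : IsOpen W)
    (hh : MerOn D W P h) (hv : ∀ y ∈ W, (∀ i, Van D Q (G i) y) → Van D P h y) {y : M.X}
    (hy : y ∈ W) : ∃ (N : ℕ) (A : ℝ), 0 ≤ A ∧ ∀ᶠ x in 𝓝 y, x ∈ off D →
      sq D P h x ^ N ≤ A * ∑ i, sq D Q (G i) x := by
  obtain ⟨d, hd, h1⟩ := (hW n M ι D).2.1 y
  obtain ⟨-, v2, v3, v4, -⟩ := hV n M ι D
  have hG' := fun i => (v4 Q (G i)).1 (hG i)
  obtain ⟨N, C, hN⟩ := hL n r (fun i => val (D.c d) Q (D.rd (G i) d)) (val (D.c d) P (D.rd h d))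
    (D.e d y) (fun i => (v2 _ Q _ _ (GLU.on_at (hG' i) hd trivial)).1)
    (v2 _ P _ _ (GLU.on_at hh hd hy)).1 (by
      filter_upwards [GLU.ev_on (d := d) hO (GLU.mem_B2 hd) (by rwa [(D.e d).left_inv hd])]
        with w hw k
      have := hv _ hw.2 (fun i => v3 univ Q (G i) (hG' i) _ trivial d (GLU.mem_src d hw.1)
        (by rw [GLU.rinv d hw.1]; exact k i)) d (GLU.mem_src d hw.1)
      rwa [GLU.rinv d hw.1] at this)
  obtain ⟨A, A0, hA⟩ := cmp hW hV hh hd h1 hy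
  choose B B0 hB using fun i => cmp hW hV (hG' i) hd h1 trivial
  have S0 : 0 ≤ ∑ i, B i := Finset.sum_nonneg fun i _ => B0 i
  refine ⟨N, A ^ N * (C ^ 2 * (r * ∑ i, B i)), by positivity, ?_⟩
  filter_upwards [((D.e d).continuousAt hd).eventually (hN.and (hA.and (eventually_all.2 hB))),
    (D.e d).open_source.mem_nhds hd] with x ⟨a, b, c⟩ hx ho
  have o := ho d hx
  rw [(D.e d).left_inv hx] at b c
  have a1 : normSq (val (D.c d) P (D.rd h d) (D.e d x)) ^ N ≤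
      C ^ 2 * (∑ i, ‖val (D.c d) Q (D.rd (G i) d) (D.e d x)‖) ^ 2 := by
    rw [normSq_eq_norm_sq, ← pow_mul, mul_comm 2 N, pow_mul, ← mul_pow]
    exact pow_le_pow_left₀ (by positivity) a 2
  have a2 : (∑ i, ‖val (D.c d) Q (D.rd (G i) d) (D.e d x)‖) ^ 2 ≤
      r * ((∑ i, B i) * ∑ i, sq D Q (G i) x) := by
    refine (sq_sum_le_card_mul_sum_sq).trans ?_
    rw [Finset.card_univ, Fintype.card_fin, Finset.mul_sum Finset.univ (fun i => sq D Q (G i) x)]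
    refine mul_le_mul_of_nonneg_left (Finset.sum_le_sum fun i _ => ?_) r.cast_nonneg
    rw [← normSq_eq_norm_sq]
    exact (c i o).2.trans (mul_le_mul_of_nonneg_right
      (Finset.single_le_sum (fun i _ => B0 i) (Finset.mem_univ i)) (ONE.sq_nn _ _ _))
  calc sq D P h x ^ N ≤ (A * normSq (val (D.c d) P (D.rd h d) (D.e d x))) ^ N :=
        pow_le_pow_left₀ (ONE.sq_nn _ _ _) (b o).1 N
    _ ≤ A ^ N * (C ^ 2 * (r * ((∑ i, B i) * ∑ i, sq D Q (G i) x))) := by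
        rw [mul_pow]
        exact mul_le_mul_of_nonneg_left (a1.trans (mul_le_mul_of_nonneg_left a2 (sq_nonneg C)))
          (pow_nonneg A0 N)
    _ = _ := by ring

/-- Local inequalities give an inequality on a compact set. -/
theorem glob {Y : Type} [TopologicalSpace Y] {K O : Set Y} {s T : Y → ℝ} {B : ℝ}
    (hK : IsCompact K) (s0 : ∀ x, 0 ≤ s x) (T0 : ∀ x, 0 ≤ T x) (hB : ∀ x ∈ K ∩ O, s x ≤ B)
    (h : ∀ y ∈ K, ∃ (N : ℕ) (A : ℝ), 0 ≤ A ∧ ∀ᶠ x in 𝓝 y, x ∈ O → s x ^ N ≤ A * T x) :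
    ∃ (N : ℕ) (A : ℝ), 1 ≤ N ∧ 0 ≤ A ∧ ∀ x ∈ K ∩ O, s x ^ N ≤ A * T x := by
  have b : ∀ (m : ℕ), ∀ x ∈ K ∩ O, s x ^ m ≤ |B| ^ m := fun m x hx =>
    pow_le_pow_left₀ (s0 x) ((hB x hx).trans (le_abs_self B)) m
  obtain ⟨N, A, A0, hA⟩ := hK.induction_on
    (p := fun S => ∃ (N : ℕ) (A : ℝ), 0 ≤ A ∧ ∀ x ∈ S, x ∈ K ∩ O → s x ^ N ≤ A * T x)
    ⟨0, 0, le_rfl, fun x hx => hx.elim⟩
    (fun S S' hS ⟨N, A, A0, hA⟩ => ⟨N, A, A0, fun x hx => hA x (hS hx)⟩)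
    (fun S S' ⟨N, A, A0, hA⟩ ⟨N', A', A0', hA'⟩ =>
      ⟨N + N', A * |B| ^ N' + |B| ^ N * A', by positivity, fun x hx k => by
        have t := T0 x
        have u : 0 ≤ A * |B| ^ N' * T x := by positivity
        have u' : 0 ≤ |B| ^ N * A' * T x := by positivity
        rw [pow_add]
        rcases hx with hx | hx
        · nlinarith [mul_le_mul (hA x hx k) (b N' x k) (pow_nonneg (s0 x) _) (mul_nonneg A0 t)]
        · nlinarith [mul_le_mul (b N x k) (hA' x hx k) (pow_nonneg (s0 x) _) (by positivity)]⟩)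
    fun y hy => by
      obtain ⟨N, A, A0, hA⟩ := h y hy
      exact ⟨_, nhdsWithin_le_nhds hA, N, A, A0, fun x hx k => hx k.2⟩
  refine ⟨N + 1, A * |B| ^ 1, by omega, by positivity, fun x hx => ?_⟩
  rw [pow_add, mul_right_comm]
  exact mul_le_mul (hA x hx.1 hx) (b 1 x hx) (pow_nonneg (s0 x) _) (mul_nonneg A0 (T0 x))

end IDL

theorem nIDL (hW : ZL.St_PW) (hU : ZL.St_MU) (hV : St_VAL) (hL : St_LOJ1) : St_IDL := by
  intro n M _ ι _ _ D X γ ψ C c₀ c₁ P Q r G K W h _ hψ _ hc h0 hG hI hK hO hKW hh hv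
  obtain ⟨-, -, -, v4, -, -, -, -, -, v10, -⟩ := hV n M ι D
  obtain ⟨B, hB⟩ := v10 W K P h hK hKW hh
  obtain ⟨N, A, N1, A0, hA⟩ := IDL.glob hK (ONE.sq_nn P h)
    (fun x => Finset.sum_nonneg fun i _ => ONE.sq_nn Q (G i) x) hB
    fun y hy => IDL.loc hW hV hL hG hO hh hv (hKW hy)
  have N0 : (1 : ℝ) ≤ N := by exact_mod_cast N1
  have t0 : (0 : ℝ) < (N : ℝ)⁻¹ := by positivity
  have t1 : (N : ℝ)⁻¹ ≤ 1 := inv_le_one_of_one_le₀ N0
  obtain ⟨c, c1, c2⟩ := h0 ((N : ℝ)⁻¹ * (c₁ - c₀)) (mul_pos t0 (sub_pos.2 hc))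
  refine ⟨(N : ℝ)⁻¹ * c₁ + (1 - (N : ℝ)⁻¹) * c, ?_, ?_⟩
  · nlinarith [mul_nonneg (sub_nonneg.2 t1) (sub_pos.2 c1).le, mul_pos (mul_pos t0 t0) (sub_pos.2 hc)]
  have m : ∀ i, AEMeasurable (fun x => sq D Q (G i) x * om D γ ψ c₁ x) X.μ := fun i => by
    have k := ONE.cont_sq hW ((v4 Q (G i)).1 (hG i))
    rw [univ_inter] at k
    exact (hU n M ι D X).2.1 ℝ _ (k.mul (ONE.cont_om hW hψ c₁))
  have f1 : X.I (fun x => A * ∑ i, sq D Q (G i) x * om D γ ψ c₁ x) ≠ ⊤ := by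
    rw [SPL.int_mul A0]
    exact ENNReal.mul_ne_top ENNReal.ofReal_ne_top (ONE.i_sum X _ m hI)
  refine ne_top_of_le_ne_top (ONE.i_add X
    ((Finset.aemeasurable_fun_sum _ fun i _ => m i).const_mul A) f1 c2)
    ((hU n M ι D X).2.2.1 _ _ fun x hx => ?_)
  have o1 : 0 < om D γ ψ c₁ x := Real.exp_pos _
  have o2 : 0 < om D γ ψ c x := Real.exp_pos _
  have T0 : 0 ≤ ∑ i, sq D Q (G i) x := Finset.sum_nonneg fun i _ => ONE.sq_nn Q (G i) x
  rw [← Finset.sum_mul, ← mul_assoc]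
  by_cases k : x ∈ K
  · have e : om D γ ψ ((N : ℝ)⁻¹ * c₁ + (1 - (N : ℝ)⁻¹) * c) x =
        Real.exp ((N : ℝ)⁻¹ * (-(c₁ * (ψ x + lw D γ x)) - lw D γ x) +
          (1 - (N : ℝ)⁻¹) * (-(c * (ψ x + lw D γ x)) - lw D γ x)) :=
      congrArg Real.exp (by ring)
    rw [indicator_of_mem k, e]
    exact (IDL.young N1 (mul_inv_cancel₀ (by positivity)) (ONE.sq_nn P h x)).trans
      (add_le_add (mul_le_mul_of_nonneg_right (hA x ⟨k, hx⟩) o1.le) le_rfl)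
  · rw [indicator_of_notMem k, zero_mul]
    positivity

end Pool.Agent.Lib.NA
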