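import Pool.Agent.Lib.NA.Blue
import Pool.Agent.Lib.ZL.B_EST

/-! Project NA, row ESTX: the estimate for the extension step. -/

open scoped Classical Topology ContDiff ENNReal
open Set MeasureTheory Complex Metric Filter

noncomputable section

namespace Pool.Agent.Lib.NA

open Pool.Agent.Lib.SV (E)
open Pool.Agent.Lib.HS32 Pool.Agent.Lib.EX Pool.Agent.Lib.EXS Pool.Agent.Lib.ZL

namespace ESTX

theorem lse_lo' (a t : ℝ) : t ≤ Real.log (Real.exp a + Real.exp t) :=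
  (Real.le_log_iff_exp_le (by positivity)).2 (by linarith [Real.exp_pos a])

theorem young {u v ϑ : ℝ} (h0 : 0 ≤ ϑ) (h1 : ϑ ≤ 1) :
    Real.exp (ϑ * u + (1 - ϑ) * v) ≤ Real.exp u + Real.exp v := by
  rcases le_total u v with h | h
  · exact (Real.exp_le_exp.2 (by nlinarith)).trans (le_add_of_nonneg_left (Real.exp_pos u).le)
  · exact (Real.exp_le_exp.2 (by nlinarith)).trans (le_add_of_nonneg_right (Real.exp_pos v).le)

theorem ea {k e α : ℝ} (k0 : 0 ≤ k) (e0 : 0 < e) (e1 : e ≤ 1) (hα : -k ≤ α) : -k ≤ e * α := by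
  linarith [mul_le_mul_of_nonneg_left hα e0.le, mul_le_mul_of_nonneg_right e1 k0]

theorem two {e β w P T x m Y z Q W B : ℝ} (e0 : 0 < e) (β0 : 0 ≤ β) (P0 : 0 ≤ P) (T0 : 0 ≤ T)
    (x0 : 0 ≤ x) (Y0 : 0 ≤ Y) (W0 : 0 ≤ W) (B0 : 0 ≤ B) (Q1 : 1 ≤ Q) (b1 : β * x ≤ B)
    (b2 : w ≤ P * T * (x * m)) (b4 : m ≤ Y + z) (b3 : z ≤ Q * W) :
    2 / e * β * w ≤ 2 * (1 + B) * (P * Q) / e * T * (β * x * Y) +
      2 * (1 + B) * (P * Q) / e * T * W := by
  have q0 : 0 ≤ β * x := mul_nonneg β0 x0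
  have Q0 : 0 ≤ Q := zero_le_one.trans Q1
  have a1 := mul_le_mul_of_nonneg_left (b4.trans (add_le_add_right b3 Y)) q0
  have a2 : β * x * (Q * W) ≤ (1 + B) * (Q * W) :=
    mul_le_mul_of_nonneg_right (by linarith) (mul_nonneg Q0 W0)
  have a3 : β * x * Y ≤ (1 + B) * Q * (β * x * Y) :=
    le_mul_of_one_le_left (mul_nonneg q0 Y0) (one_le_mul_of_one_le_of_one_le (by linarith) Q1)
  have a4 : β * x * m ≤ (1 + B) * Q * (β * x * Y) + (1 + B) * (Q * W) := by linarith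
  have a5 := mul_le_mul_of_nonneg_left a4 (show 0 ≤ 2 / e * (P * T) by positivity)
  have a6 := mul_le_mul_of_nonneg_left b2 (show 0 ≤ 2 / e * β by positivity)
  exact a6.trans (le_of_eq_of_le (by ring) (a5.trans_eq (by ring)))

theorem up {c c' lam δ ϑ s L B C k t e ρ ψ α g β lg : ℝ} (c0 : 0 ≤ c) (d0 : 0 < δ)
    (dl : 2 * δ ≤ lam) (h0 : 0 ≤ ϑ) (h1 : ϑ ≤ 1) (hϑ : ϑ * c' = c + 2 * δ)
    (hs : (1 - ϑ) * s = lam - 2 * δ) (s0 : 0 ≤ s) (L0 : 0 < L) (B0 : 0 ≤ B) (t0 : 0 ≤ t)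
    (hα : -k ≤ e * α) (e0 : 0 < e) (hρ : ρ ≤ C - lg) (β0 : 0 ≤ β)
    (hg : g ≤ B * Real.exp (-((1 + c + lam) * lg)))
    (hβ : β ≤ B * Real.exp (-((1 + c + lam) * lg))) (k0 : 0 ≤ k) :
    ((if 2 ≤ ρ + e * α - (ψ + t) ∧ ρ + e * α - (ψ + t) ≤ 3 then L / δ * g else 0) +
      if 2 ≤ ρ + e * α - (ψ + t) then 2 / e * β else 0) *
      Real.exp (-(c * ψ + (lam - δ) * (ρ + e * α) +
        δ * Real.log (Real.exp (ρ + e * α) + Real.exp (ψ + t)) + e * α)) ≤
      2 * (1 + B) * Real.exp ((lam + 1) * k + (c + lam) * |C|) / e * Real.exp (-(2 * δ * t)) *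
        (β * Real.exp ((1 + c + lam) * lg) * Real.exp (-(c' * (ψ + lg)) - lg)) +
      (L / δ * (B * Real.exp ((c + lam + 1) * k + (c + δ) * (t + 3) + s * |C|)) +
        2 * (1 + B) * Real.exp ((lam + 1) * k + (c + lam) * |C|) / e * Real.exp (-(2 * δ * t))) *
          Real.exp (-((1 + (s + c + lam)) * lg) - (s + c + lam) * ρ) := by
  have l0 : 0 ≤ lam := by linarith
  have h2 := mul_le_mul_of_nonneg_left (lse_lo' (ρ + e * α) (ψ + t)) d0.le
  have hC : ρ + lg ≤ |C| := by linarith [le_abs_self C]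
  generalize Real.log (Real.exp (ρ + e * α) + Real.exp (ψ + t)) = u at h2 ⊢
  by_cases h : 2 ≤ ρ + e * α - (ψ + t)
  swap
  · rw [if_neg h, if_neg fun k => h k.1, add_zero, zero_mul]
    positivity
  have h5 : (if 2 ≤ ρ + e * α - (ψ + t) ∧ ρ + e * α - (ψ + t) ≤ 3 then L / δ * g else 0) *
      Real.exp (-(c * ψ + (lam - δ) * (ρ + e * α) + δ * u + e * α)) ≤
      L / δ * (B * Real.exp ((c + lam + 1) * k + (c + δ) * (t + 3) + s * |C|)) *
        Real.exp (-((1 + (s + c + lam)) * lg) - (s + c + lam) * ρ) := by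
    split_ifs with h6
    swap
    · rw [zero_mul]; positivity
    rw [mul_assoc, mul_assoc]
    refine mul_le_mul_of_nonneg_left ((mul_le_mul_of_nonneg_right hg (Real.exp_pos _).le).trans ?_)
      (by positivity)
    rw [mul_assoc, mul_assoc, ← Real.exp_add, ← Real.exp_add]
    refine mul_le_mul_of_nonneg_left (Real.exp_le_exp.2 ?_) B0
    have a1 := mul_le_mul_of_nonneg_left h6.2 (show 0 ≤ c + δ by linarith)
    have a2 := mul_le_mul_of_nonneg_left hα (show 0 ≤ c + lam + 1 by linarith)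
    have a3 := mul_le_mul_of_nonneg_left hC s0
    have a4 := mul_nonneg d0.le t0
    linarith
  have b1 : β * Real.exp ((1 + c + lam) * lg) ≤ B := by
    have := mul_le_mul_of_nonneg_right hβ (Real.exp_pos ((1 + c + lam) * lg)).le
    rwa [mul_assoc, ← Real.exp_add, neg_add_cancel, Real.exp_zero, mul_one] at this
  have b2 : Real.exp (-(c * ψ + (lam - δ) * (ρ + e * α) + δ * u + e * α)) ≤
      Real.exp ((lam + 1) * k) * Real.exp (-(2 * δ * t)) * (Real.exp ((1 + c + lam) * lg) *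
        Real.exp (ϑ * (-(c' * (ψ + lg)) - lg) + (1 - ϑ) * (-(s * (ρ + lg)) - lg))) := by
    simp only [← Real.exp_add]
    refine Real.exp_le_exp.2 ?_
    have a1 := mul_le_mul_of_nonneg_left h d0.le
    have a2 := mul_le_mul_of_nonneg_left hα (show 0 ≤ lam - 2 * δ + 1 by linarith)
    have a3 := mul_nonneg d0.le k0
    have a4 : ϑ * (-(c' * (ψ + lg)) - lg) + (1 - ϑ) * (-(s * (ρ + lg)) - lg) =
        -(ϑ * c' * (ψ + lg)) - (1 - ϑ) * s * (ρ + lg) - lg := by ring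
    rw [a4, hϑ, hs]
    linarith
  have b3 : Real.exp (-(s * (ρ + lg)) - lg) ≤ Real.exp ((c + lam) * |C|) *
      Real.exp (-((1 + (s + c + lam)) * lg) - (s + c + lam) * ρ) := by
    rw [← Real.exp_add]
    exact Real.exp_le_exp.2 (by
      linarith [mul_le_mul_of_nonneg_left hC (show 0 ≤ c + lam by linarith)])
  have b4 := young (u := -(c' * (ψ + lg)) - lg) (v := -(s * (ρ + lg)) - lg) h0 h1
  have b5 : 1 ≤ Real.exp ((c + lam) * |C|) := Real.one_le_exp (by positivity)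
  have b6 := two e0 β0 (Real.exp_pos _).le (Real.exp_pos _).le (Real.exp_pos _).le
    (Real.exp_pos _).le (Real.exp_pos _).le B0 b5 b1 b2 b4 b3
  rw [← Real.exp_add] at b6
  rw [if_pos h, add_mul]
  linarith

theorem low {c lam δ C k t e ρ ψ α lg le : ℝ} (c0 : 0 ≤ c) (d0 : 0 < δ) (dl : δ ≤ lam)
    (k0 : 0 ≤ k) (t0 : 0 ≤ t) (e0 : 0 < e) (e1 : e ≤ 1) (le0 : le ≤ 0) (hα : α ≤ k - le)
    (hρ : ρ ≤ C - lg) (hψ : ψ ≤ C - lg) :
    Real.exp (lam * lg + (c + lam + 1) * e * le - c * ψ) ≤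
      Real.exp (lam * (|C| + k) + δ + k) * Real.exp (δ * t) *
        Real.exp (-(c * ψ + (lam - δ) * (ρ + e * α) +
          δ * Real.log (Real.exp (ρ + e * α) + Real.exp (ψ + t)) + e * α)) := by
  have h5 : e * α ≤ k - e * le := by
    linarith [mul_le_mul_of_nonneg_left hα e0.le, mul_le_mul_of_nonneg_right e1 k0]
  have h6 : ρ + e * α ≤ |C| + k - lg - e * le := by linarith [le_abs_self C]
  have h7 := mul_nonpos_of_nonneg_of_nonpos e0.le le0
  have h8 := mul_le_mul_of_nonneg_left (EST.lse_hi (a := ρ + e * α) (t := ψ + t)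
    (u := t + (|C| + k - lg - e * le)) (by linarith) (by linarith [le_abs_self C])) d0.le
  have h9 := mul_le_mul_of_nonneg_left h6 (show 0 ≤ lam - δ by linarith)
  have h10 := mul_nonpos_of_nonneg_of_nonpos c0 h7
  rw [← Real.exp_add, ← Real.exp_add]
  exact Real.exp_le_exp.2 (by linarith)

theorem win {c lam s B C k t e ρ ψ α g lg le : ℝ} (c0 : 0 ≤ c) (l0 : 0 ≤ lam) (s0 : 0 ≤ s)
    (B0 : 0 ≤ B) (e0 : 0 < e) (le0 : le ≤ 0) (hα : -k ≤ e * α) (hρ : ρ ≤ C - lg)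
    (hg : g ≤ B * Real.exp (-((1 + c + lam) * lg))) (h : ρ + e * α - (ψ + t) ≤ 3) :
    g * Real.exp (lam * lg + (c + lam + 1) * e * le - c * ψ) ≤
      B * Real.exp (c * (k + t + 3) + (s + lam) * |C|) *
        Real.exp (-((1 + (s + c + lam)) * lg) - (s + c + lam) * ρ) := by
  refine (mul_le_mul_of_nonneg_right hg (Real.exp_pos _).le).trans ?_
  rw [mul_assoc B, mul_assoc B, ← Real.exp_add, ← Real.exp_add]
  refine mul_le_mul_of_nonneg_left (Real.exp_le_exp.2 ?_) B0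
  have a1 := mul_le_mul_of_nonneg_left h c0
  have a2 := mul_le_mul_of_nonneg_left hα c0
  have a3 := mul_le_mul_of_nonneg_left (show ρ + lg ≤ |C| by linarith [le_abs_self C])
    (add_nonneg s0 l0)
  have a4 := mul_nonpos_of_nonneg_of_nonpos (show 0 ≤ (c + lam + 1) * e by positivity) le0
  linarith

theorem last {G F : ℂ} {y u V w : ℝ} (y0 : 0 ≤ y) (y1 : y ≤ 1) (y3 : 3 ≤ u → y = 1)
    (V0 : 0 ≤ V) (w0 : 0 ≤ w) (hw : u ≤ 3 → normSq G * w ≤ V) :
    normSq (G - F) * w ≤ 2 * V + 2 * (normSq (y * G - F) * w) := by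
  have h3 : normSq (G - y * G) * w ≤ V := by
    by_cases h : u ≤ 3
    · rw [← one_sub_mul, ← ofReal_one, ← ofReal_sub, map_mul, normSq_ofReal, mul_assoc]
      exact (mul_le_of_le_one_left (mul_nonneg (normSq_nonneg _) w0) (by nlinarith)).trans (hw h)
    · rw [y3 (not_le.1 h).le, ofReal_one, one_mul, sub_self, map_zero, zero_mul]
      exact V0
  have h4 := mul_le_mul_of_nonneg_right (EST.sq_sub G (y * G) F) w0
  linarith

end ESTX

open ESTX Pool.Agent.Lib.ZL.EST in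
theorem nESTX (hP : ZL.St_PW) (hM : ZL.St_MU) (hW : ZL.St_WGT) : St_ESTX := by
  intro n M _ ι _ _ D X γ θ Z c c' lam C B ε₀ ρ ψ β G c0 cc lam0 ε0 B0 hρ hψ bψ hθ hZ hG hb mβ0 β0
    hβ hD hI η η0
  obtain ⟨-, -, ladd, lsub, lsm, -, lmon, lS, -, hc, -⟩ := hP n M ι D
  obtain ⟨-, am, imon, -, -⟩ := hM n M ι D X
  obtain ⟨L, L0, hct, hW⟩ := hW
  obtain ⟨w1, w2, w3, -, w5, -, -, -, w9⟩ := hW n M ι D
  obtain ⟨k0, hc'⟩ := X.αb
  simp only [lsm] at hb hβ hI ⊢
  have l0 : ∀ a : ι → ℝ, 0 ≤ a → ∀ x, lw D a x ≤ 0 := fun a ha x => by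
    have h1 := lmon 0 a ha x
    have h2 := lsm 0 0 x
    rw [zero_smul, zero_mul] at h2
    linarith
  have e0 : ∀ x, lw D (fun i => X.e i) x ≤ 0 := l0 _ fun i => Nat.cast_nonneg _
  obtain ⟨k, k0, α1⟩ : ∃ c1 : ℝ, 0 ≤ c1 ∧
      ∀ x ∈ off D, -c1 ≤ X.α x ∧ X.α x ≤ c1 - lw D (fun i => X.e i) x :=
    ⟨|k0|, abs_nonneg k0, fun x hx => by
      obtain ⟨a1, a2⟩ := abs_le.1 ((hc' x hx).trans (le_abs_self k0))
      exact ⟨by linarith [e0 x], by linarith⟩⟩
  obtain ⟨δ, d0, dl, dc⟩ : ∃ δ : ℝ, 0 < δ ∧ 2 * δ ≤ lam ∧ c + 2 * δ < c' :=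
    ⟨min (lam / 2) ((c' - c) / 3), lt_min (by linarith) (by linarith),
      by linarith [min_le_left (lam / 2) ((c' - c) / 3)],
      by linarith [min_le_right (lam / 2) ((c' - c) / 3)]⟩
  have c'0 : 0 < c' := by linarith
  obtain ⟨ϑ, h0, h1, hϑ⟩ : ∃ ϑ : ℝ, 0 ≤ ϑ ∧ ϑ < 1 ∧ ϑ * c' = c + 2 * δ :=
    ⟨(c + 2 * δ) / c', by positivity, (div_lt_one c'0).2 dc, div_mul_cancel₀ _ c'0.ne'⟩
  obtain ⟨s, s0, hs⟩ : ∃ s : ℝ, 0 ≤ s ∧ (1 - ϑ) * s = lam - 2 * δ :=
    ⟨(lam - 2 * δ) / (1 - ϑ), div_nonneg (by linarith) (by linarith),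
      mul_div_cancel₀ _ (by linarith)⟩
  have N0 : 0 < c + lam := by linarith
  obtain ⟨A, ε₁, e1, hA⟩ := hρ.2 (s + c + lam) (by linarith)
  obtain ⟨J, J0, hJ⟩ : ∃ J : ℝ, 0 ≤ J ∧ X.I (fun x => β x * Real.exp ((1 + c + lam) * lw D γ x) *
      om D γ ψ c' x) ≤ ENNReal.ofReal J := ⟨_, ENNReal.toReal_nonneg, (ENNReal.ofReal_toReal hI).ge⟩
  obtain ⟨σ, hσ⟩ : ∃ σ, σ = (c + lam + 1) * (1 + ∑ i, (X.e i : ℝ)) := ⟨_, rfl⟩
  have se : 0 ≤ ∑ i, (X.e i : ℝ) := Finset.sum_nonneg fun i _ => Nat.cast_nonneg _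
  have σ0 : 0 < σ := by rw [hσ]; positivity
  obtain ⟨t, e, t0, ep, b1, b2, b3, b4, t1, b5, a1⟩ := pick (fun i => θ i - (c + lam) * γ i)
    (fun i => (c + lam + 1) * X.e i) Z (fun i hi => sub_pos.2 (hθ i hi)) (s := σ)
    (U := σ * (Real.exp (c * |C|) * Real.exp (lam * (|C| + k) + δ + k)) * 10 *
      (2 * (1 + B) * Real.exp ((lam + 1) * k + (c + lam) * |C|) * (|A| + J)))
    (fun t => σ * (Real.exp (c * |C|) * Real.exp (lam * (|C| + k) + δ + k)) * Real.exp (δ * t) *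
      10 * (L / δ * (B * Real.exp ((c + lam + 1) * k + (c + δ) * (t + 3) + s * |C|)) * |A|))
    d0 e1 (lt_min η0 ε0)
  have ar := (ari ep t1 b5).trans (min_le_left _ _)
  obtain ⟨r1, r2, r3⟩ := hρ.1 e ep
  have r4 := (hA e ep b2).trans (ENNReal.ofReal_le_ofReal (le_abs_self A))
  have cγ := hc _ _ (lS γ)
  have mY : AEMeasurable (fun x => β x * Real.exp ((1 + c + lam) * lw D γ x) * om D γ ψ c' x)
      X.μ := (mβ0.mul (am _ _ (cγ.const_smul (1 + c + lam)).rexp)).mul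
        (am _ _ ((((hc _ _ hψ.1).add cγ).const_smul c').neg.sub cγ).rexp)
  have mW : AEMeasurable (fun x => Real.exp (-((1 + (s + c + lam)) * lw D γ x) -
      (s + c + lam) * ρ e x)) X.μ := am _ _ ((cγ.const_smul (1 + (s + c + lam))).neg.sub
        ((hc _ _ r1).const_smul (s + c + lam))).rexp
  have pb := w2 _ _ hψ (w1 t)
  have ma : AEMeasurable (fun x => ρ e x + e * X.α x - (ψ x + t)) X.μ :=
    am _ _ ((hc _ _ r2.1).sub (hc _ _ pb.1))
  have mG : AEMeasurable (fun x => normSq (G x)) X.μ :=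
    am _ _ (continuous_normSq.comp_continuousOn (hc _ _ hG))
  have pf := w2 _ _ (w3 c _ c0 hψ) (w3 (lam - δ) _ (by linarith) r2)
  obtain ⟨g1, g2⟩ := w9 _ _ _ X.α G _ δ e d0 ep r2 pb pf X.αp hG (fun x _ => β0 x) hD
  have pp := w2 _ _ (w2 _ _ pf (w3 δ _ d0.le (w5 _ _ r2 pb))) (w3 e _ ep.le X.αp)
  have mβ : AEMeasurable (fun x => (if 2 ≤ ρ e x + e * X.α x - (ψ x + t) ∧
      ρ e x + e * X.α x - (ψ x + t) ≤ 3 then L / δ * normSq (G x) else 0) +
      if 2 ≤ ρ e x + e * X.α x - (ψ x + t) then 2 / e * β x else 0) X.μ := by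
    have k1 := am_ite (S := Icc 2 3) measurableSet_Icc ma (mG.const_mul (L / δ))
    have k2 := am_ite (S := Ici 2) measurableSet_Ici ma (mβ0.const_mul (2 / e))
    exact (k1.add k2).congr (Eventually.of_forall fun x => by
      simp only [Pi.add_apply, mem_Icc, mem_Ici])
  obtain ⟨F, f1, f2⟩ := X.hor pp g1 mβ (fun x _ => by
    have := normSq_nonneg (G x)
    have := β0 x
    positivity) g2
  have α2 := fun x (hx : x ∈ off D) => ea k0 ep b1 (α1 x hx).1
  have u1 := (imon _ _ fun x hx => up (c' := c') (ψ := ψ x) c0 d0 dl h0 h1.le hϑ hs s0 L0 B0 t0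
    (α2 x hx) ep (r3 x hx) (β0 x) (hb x hx) (hβ x hx) k0).trans
      (i_two X mY (by positivity) (by positivity) J0 (abs_nonneg A) hJ r4)
  have f3 : X.I (fun x => normSq ((ct (ρ e x + e * X.α x - (ψ x + t)) : ℂ) * G x - F x) *
      Real.exp (lam * lw D γ x + (c + lam + 1) * e * lw D (fun i => X.e i) x - c * ψ x)) ≤ _ :=
    (imon _ (fun x => Real.exp (lam * (|C| + k) + δ + k) * Real.exp (δ * t) * _) fun x hx =>
      (mul_le_mul_of_nonneg_left (low (t := t) c0 d0 (by linarith) k0 t0 ep b1 (e0 x) (α1 x hx).2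
        (r3 x hx) (bψ x hx)) (normSq_nonneg _)).trans_eq (mul_left_comm _ _ _)).trans
      ((i_mul X (by positivity) _).trans_le (mul_le_mul_right (f2.trans (mul_le_mul_right u1 _)) _))
  rw [← ENNReal.ofReal_ofNat 10, ← ENNReal.ofReal_mul (by norm_num),
    ← ENNReal.ofReal_mul (by positivity)] at f3
  have f4 : X.I (fun x => normSq (G x - F x) *
      Real.exp (lam * lw D γ x + (c + lam + 1) * e * lw D (fun i => X.e i) x - c * ψ x)) ≠ ⊤ := by
    refine ne_top_of_le_ne_top ENNReal.ofReal_ne_top ((imon _ _ fun x hx => ?_).trans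
      (i_two X mW (a := 2 * (B * Real.exp (c * (k + t + 3) + (s + lam) * |C|))) (b := 2)
        (by positivity) (by positivity) (abs_nonneg A) (by positivity) r4 f3))
    obtain ⟨k1, k2, -, k3⟩ := hct (ρ e x + e * X.α x - (ψ x + t))
    rw [mul_assoc 2]
    exact last k1 k2 k3 (by positivity) (Real.exp_pos _).le
      (win c0 lam0.le s0 B0 ep (e0 x) (α2 x hx) (r3 x hx) (hb x hx))
  have lo : ∀ x ∈ off D, Real.exp (lw D (fun i => θ i - (1 - e * σ) * ind Z i) x) ≤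
      Real.exp (c * |C|) *
        Real.exp (lam * lw D γ x + (c + lam + 1) * e * lw D (fun i => X.e i) x - c * ψ x) := by
    intro x hx
    have h2 := lmon ((c + lam) • γ + ((c + lam + 1) * e) • fun i => (X.e i : ℝ))
      (fun i => θ i - (1 - e * σ) * ind Z i) (fun i => hσ ▸ cmp N0 ep hZ a1 i) x
    rw [ladd, lsm, lsm] at h2
    have h3 := mul_le_mul_of_nonneg_left ((bψ x hx).trans (sub_le_sub_right (le_abs_self C) _)) c0
    rw [← Real.exp_add]
    exact Real.exp_le_exp.2 (by linarith)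
  refine ⟨e * σ, by positivity, b3.trans (min_le_left _ _), F,
    fun x => (ct (ρ e x + e * X.α x - (ψ x + t)) : ℂ) * G x, f1, fun x => ?_, ?_, ?_, ?_⟩
  · obtain ⟨h1, h2, -⟩ := hct (ρ e x + e * X.α x - (ψ x + t))
    rw [map_mul, normSq_ofReal]
    exact mul_le_of_le_one_left (normSq_nonneg _) (mul_le_one₀ h2 h1 h2)
  · refine ne_top_of_le_ne_top (ENNReal.mul_ne_top ENNReal.ofReal_ne_top f4)
      ((imon _ _ fun x hx => ?_).trans (i_mul X (Real.exp_pos (c * |C|)).le _).le)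
    have h2 := lmon (fun i => θ i - (1 - e * σ) * ind Z i) θ (fun i => by
      refine sub_le_self _ (mul_nonneg (by linarith) ?_)
      simp only [ind]
      split_ifs <;> simp) x
    rw [mul_left_comm]
    exact mul_le_mul_of_nonneg_left ((Real.exp_le_exp.2 h2).trans (lo x hx)) (normSq_nonneg _)
  · refine (imon _ (fun x => e * σ * Real.exp (c * |C|) * _) fun x hx => ?_).trans
      ((i_mul X (by positivity) _).trans_le ((mul_le_mul_right f3 _).trans ?_))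
    · exact (mul_le_mul_of_nonneg_left (lo x hx) (mul_nonneg (by positivity)
        (normSq_nonneg _))).trans_eq (by ring)
    · rw [← ENNReal.ofReal_mul (by positivity)]
      exact ENNReal.ofReal_le_ofReal (le_of_eq_of_le (by ring) ar)
  · refine ne_top_of_le_ne_top f4 (imon _ _ fun x hx =>
      mul_le_mul_of_nonneg_left ?_ (normSq_nonneg _))
    have h2 := lmon (((c + lam + 1) * e) • fun i => (X.e i : ℝ)) (fun _ => ε₀) (fun i => by
      have h3 : (X.e i : ℝ) ≤ ∑ i, (X.e i : ℝ) :=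
        Finset.single_le_sum (f := fun i => (X.e i : ℝ)) (fun i _ => Nat.cast_nonneg _)
          (Finset.mem_univ i)
      have h4 := mul_le_mul_of_nonneg_left h3 (show 0 ≤ (c + lam + 1) * e by positivity)
      have h5 := b3.trans (min_le_right _ _)
      have h6 : 0 ≤ (c + lam + 1) * e := by positivity
      rw [hσ] at h5
      simp only [Pi.smul_apply, smul_eq_mul]
      linarith) x
    rw [lsm] at h2
    rw [om, ← Real.exp_add, ← Real.exp_add]
    exact Real.exp_le_exp.2 (by linarith)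

end Pool.Agent.Lib.NA
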