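import Pool.Agent.Lib.NA.Blue
import Pool.Agent.Lib.EX.B_MON

/-! Project NA: row LC0. -/

open scoped Classical Topology ContDiff ENNReal
open Set MeasureTheory Complex Metric Filter

noncomputable section

namespace Pool.Agent.Lib.NA

open Pool.Agent.Lib.SV (E)
open Pool.Agent.Lib.HS32 Pool.Agent.Lib.EX Pool.Agent.Lib.EXS Pool.Agent.Lib.ZL

namespace LC0

theorem one {n : ℕ} {ι : Type} [Fintype ι] {c : ι → Option (Fin n)} {z : E n} (h : Off c z)
    (Q : ι → ℤ) : normSq (xm c (-Q) z) * xr c (fun i => Q i) z = 1 := by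
  rw [xm, xr, map_prod, ← Finset.prod_mul_distrib]
  refine Finset.prod_eq_one fun i _ => ?_
  rw [map_zpow₀, Real.rpow_intCast, Pi.neg_apply, zpow_neg,
    inv_mul_cancel₀ (zpow_ne_zero _ (normSq_pos.2 (h i)).ne')]

theorem lip {n r : ℕ} {v : Fin r → E n → ℂ} {z : E n} (h : ∀ i, HolN (v i) z)
    (h0 : ∀ i, v i z = 0) : ∃ C > (0 : ℝ), ∀ᶠ w in 𝓝 z, ∑ i, normSq (v i w) ≤ C * ‖w - z‖ ^ 2 := by
  have k : ∀ i, ∃ C : ℝ, ∀ᶠ w in 𝓝 z, normSq (v i w) ≤ C ^ 2 * ‖w - z‖ ^ 2 := fun i => by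
    obtain ⟨C, hC⟩ := (h i).self_of_nhds.hasFDerivAt.isBigO_sub.bound
    refine ⟨C, hC.mono fun w hw => ?_⟩
    rw [h0 i, sub_zero] at hw
    rw [Complex.normSq_eq_norm_sq, ← mul_pow]
    exact pow_le_pow_left₀ (norm_nonneg _) hw 2
  choose C hC using k
  refine ⟨∑ i, C i ^ 2 + 1, by positivity, (eventually_all.2 hC).mono fun w hw => ?_⟩
  refine (Finset.sum_le_sum fun i _ => hw i).trans ?_
  rw [← Finset.sum_mul]
  exact mul_le_mul_of_nonneg_right (by linarith) (by positivity)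

theorem core (hPW : ZL.St_PW) (hMU : ZL.St_MU) (hUPB : ZL.St_UPB) (hWGT : ZL.St_WGT)
    (hVAL : St_VAL) (hINT : St_INT) (hNINT : St_NINT) (n : ℕ) (M : Mf n) [M.Cpt] (ι : Type)
    [Fintype ι] [DecidableEq ι] (D : Ad M ι) (X : Cx D) (R : Rx X) (j r : ℕ)
    (s : Fin r → M.X → ℂ) (y : M.X) (hj : 0 < j) (hs : ∀ i, Mer D (R.Q j 0) (s i))
    (h1 : ∃ i, s i = 1) (hv : ∀ i, Van D (R.Q j 0) (s i) y) (hy : y ∉ off D) :
    ∃ (ψ : M.X → ℝ) (c₀ : ℝ), (∀ x, ψ x = Real.log (∑ i, normSq (s i x)) / (j * R.N)) ∧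
      R.Wt ψ ∧ 0 ≤ c₀ ∧ (∀ η > 0, ∃ c, c₀ - η < c ∧ X.I (om D R.γ ψ c) ≠ ⊤) ∧
      (∀ c > c₀, X.I (om D R.γ ψ c) = ⊤) ∧ ∀ (i : Fin r) (q : ℕ) (c : ℝ), c ≤ q * j * R.N →
        X.I (fun x => sq D (R.Q (q * j) 0) (s i ^ q) x * om D R.γ ψ c x) ≠ ⊤ := by
  obtain ⟨-, hch, -, -, lsm, -, lanti, -, lcmp, -, -⟩ := hPW n M ι D
  obtain ⟨-, -, imono, -, ich⟩ := hMU n M ι D X
  obtain ⟨L, -, -, hW⟩ := hWGT
  obtain ⟨-, -, pmul, -, -, plog, -, -, -⟩ := hW n M ι D
  clear hW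
  obtain ⟨-, v2, -⟩ := hVAL n M ι D
  have hN : 0 < R.N := lt_of_lt_of_le one_pos R.N1
  set J : ℝ := j * R.N with hJ
  have hJ0 : 0 < J := mul_pos (by exact_mod_cast hj) hN
  have hQ : ∀ (p : ℕ) x, lw D (fun i => R.Q p 0 i) x = p * R.N * lw D R.γ x := fun p x => by
    rw [← lsm]
    congr 1
    funext i
    simp only [Rx.Q, Rx.γ, Pi.smul_apply, smul_eq_mul]
    push_cast
    field_simp
    ring
  have hS : ∀ x, 0 < ∑ i, normSq (s i x) := fun x => by
    obtain ⟨i, hi⟩ := h1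
    exact Finset.sum_pos' (fun i _ => normSq_nonneg _) ⟨i, Finset.mem_univ i, by simp [hi]⟩
  set ψ : M.X → ℝ := fun x => J⁻¹ * Real.log (∑ i, normSq (s i x)) with hψ
  set T : M.X → ℝ := fun x => (∑ i, normSq (s i x)) * Real.exp (J * lw D R.γ x) with hT
  have hT0 : ∀ x, 0 < T x := fun x => mul_pos (hS x) (Real.exp_pos _)
  have hlog : ∀ x, ψ x + lw D R.γ x = J⁻¹ * Real.log (T x) := fun x => by
    simp only [hψ, hT]
    rw [Real.log_mul (hS x).ne' (Real.exp_pos _).ne', Real.log_exp]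
    field_simp
  have hom : ∀ (K : ℝ) x, om D R.γ ψ (K * J) x = T x ^ (-K) * Real.exp (-lw D R.γ x) :=
    fun K x => by
      rw [om, hlog, Real.rpow_def_of_pos (hT0 x), ← Real.exp_add]
      congr 1
      field_simp
      ring
  choose B hB using fun i => (hUPB n M ι D _).2.2.2.2.1 (s i) (hs i)
  have hbd : ∀ x ∈ off D, ψ x ≤ J⁻¹ * Real.log (∑ i, B i) - lw D R.γ x := fun x hx => by
    rw [le_sub_iff_add_le, hlog]
    refine mul_le_mul_of_nonneg_left (Real.log_le_log (hT0 x) ?_) (inv_nonneg.2 hJ0.le)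
    simp only [hT, Finset.sum_mul]
    refine Finset.sum_le_sum fun i _ => ?_
    have := mul_le_mul_of_nonneg_right (hB i x hx) (Real.exp_pos (J * lw D R.γ x)).le
    rwa [hQ, mul_assoc (B i), ← hJ, ← Real.exp_add, neg_add_cancel, Real.exp_zero, mul_one] at this
  obtain ⟨i1, i2, -⟩ := hINT n M ι D X R.γ 0 ψ _ R.klt hbd
  have i1' : ∀ c c', c ≤ c' → X.I (om D R.γ ψ c') ≠ ⊤ → X.I (om D R.γ ψ c) ≠ ⊤ :=
    fun c c' h k => by simpa using i1 c c' (fun _ => 1) h (fun _ => zero_le_one) (by simpa using k)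
  have top : ∃ c, X.I (om D R.γ ψ c) = ⊤ := by
    obtain ⟨d, hd, hd1⟩ := hch y
    set z := D.e d y with hz
    set a : ι → ℕ := fun i => ⌈X.o i - R.γ i⌉₊ with ha
    set K : ℝ := n + ∑ i, (a i : ℝ) with hK
    have hK0 : 0 ≤ K := by positivity
    refine ⟨K * J, ?_⟩
    by_contra hfin
    have hP := fun i => v2 (D.c d) (R.Q j 0) (D.rd (s i) d) z (hs i d z (GLU.mem_B2 hd))
    obtain ⟨C, hC0, hC⟩ := LC0.lip (fun i => (hP i).1) fun i => hv i d hd
    obtain ⟨C1, -, hC1⟩ := lcmp (3 / 2) (by norm_num)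
    set C2 := Real.exp (C1 * ∑ i, |(R.Q j 0 i : ℝ)|) * C with hC2
    have hC20 : 0 < C2 := by positivity
    have hb : closedBall (0 : E n) (3 / 2) ∈ 𝓝 z :=
      closedBall_mem_nhds_of_mem (mem_ball_zero_iff.2 (by linarith))
    have ev : ∀ᶠ w in 𝓝 z, w ∈ closedBall (0 : E n) (3 / 2) ∧ (Off (D.c d) w →
        T ((D.e d).symm w) ≤ C2 * ‖w - z‖ ^ 2) := by
      filter_upwards [hb, hC, eventually_all.2 fun i => (hP i).2] with w w1 w2 w3
      refine ⟨w1, fun ho => ?_⟩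
      have e1 : ∑ i, normSq (s i ((D.e d).symm w)) = normSq (xm (D.c d) (-R.Q j 0) w) *
          ∑ i, normSq (val (D.c d) (R.Q j 0) (D.rd (s i) d) w) := by
        rw [Finset.mul_sum]
        exact Finset.sum_congr rfl fun i _ => by rw [← map_mul, ← w3 i ho]; rfl
      have e2 := (hC1 (fun i => R.Q j 0 i) d w (mem_closedBall_zero_iff.1 w1) ho).2
      change Real.exp (lw D _ _) ≤ _ at e2
      rw [hQ] at e2
      have e3 := LC0.one ho (R.Q j 0)
      calc T _ ≤ normSq (xm (D.c d) (-R.Q j 0) w) * (C * ‖w - z‖ ^ 2) *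
            (Real.exp (C1 * ∑ i, |(R.Q j 0 i : ℝ)|) * xr (D.c d) (fun i => R.Q j 0 i) w) := by
            simp only [hT]
            rw [e1]
            exact mul_le_mul (mul_le_mul_of_nonneg_left w2 (normSq_nonneg _)) e2
              (Real.exp_pos _).le (mul_nonneg (normSq_nonneg _) (by positivity))
        _ = normSq (xm (D.c d) (-R.Q j 0) w) * xr (D.c d) (fun i => R.Q j 0 i) w *
            (C2 * ‖w - z‖ ^ 2) := by rw [hC2]; ring
        _ = _ := by rw [e3, one_mul]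
    obtain ⟨O, hO, hOo, hzO⟩ := _root_.eventually_nhds_iff.1 ev
    have hno : ¬ Off (D.c d) z := fun h => hy ((GLU.mem_off hd).2 h)
    have ninf := hNINT n ι (D.c d) a K z O hno (hOo.mem_nhds hzO) le_rfl
    obtain ⟨C3, hC3⟩ := ich (3 / 2) (by norm_num) K
    have key := hC3 (fun i => a i)
      (fun x => om D R.γ ψ (K * J) x * Real.exp (-lw D ((fun i => (a i : ℝ)) - X.o) x)) d
      fun i => by
        rw [abs_of_nonneg (Nat.cast_nonneg _)]
        exact le_add_of_nonneg_of_le (Nat.cast_nonneg _)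
          (Finset.single_le_sum (f := fun i => (a i : ℝ)) (fun i _ => Nat.cast_nonneg _)
            (Finset.mem_univ i))
    simp only [mul_assoc, ← Real.exp_add, neg_add_cancel, Real.exp_zero, mul_one] at key
    refine (lt_of_le_of_lt ?_ (ENNReal.mul_lt_top (a := ENNReal.ofReal (C2 ^ K))
      ENNReal.ofReal_lt_top (key.trans_lt
        (ENNReal.mul_lt_top ENNReal.ofReal_lt_top (lt_top_iff_ne_top.2 hfin))))).ne ninf
    rw [← lintegral_const_mul' _ _ ENNReal.ofReal_ne_top]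
    refine le_trans ?_ (lintegral_mono_set fun w hw => (hO w hw).1)
    refine lintegral_mono_ae ?_
    filter_upwards [ae_restrict_of_ae (MON.off_ae (D.c d)), ae_restrict_mem hOo.measurableSet]
      with w ho hw
    rw [← ENNReal.ofReal_mul (by positivity), ← mul_assoc]
    refine ENNReal.ofReal_le_ofReal (mul_le_mul_of_nonneg_right ?_
      (Finset.prod_nonneg fun i _ => Real.rpow_nonneg (normSq_nonneg _) _))
    set x := (D.e d).symm w with hx
    have hwz : 0 < ‖w - z‖ := norm_pos_iff.2 (sub_ne_zero.2 fun h => hno (h ▸ ho))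
    have f1 : (C2 * ‖w - z‖ ^ 2) ^ (-K) ≤ T x ^ (-K) :=
      Real.rpow_le_rpow_of_nonpos (hT0 x) ((hO w hw).2 ho) (neg_nonpos.2 hK0)
    have f2 : lw D ((fun i => (a i : ℝ)) - X.o) x ≤ -lw D R.γ x := by
      have := lanti ((-1 : ℝ) • R.γ) ((fun i => (a i : ℝ)) - X.o) (fun i => by
        have := Nat.le_ceil (X.o i - R.γ i)
        simp only [Pi.smul_apply, smul_eq_mul, Pi.sub_apply, ha]
        linarith) x
      rw [lsm] at this
      linarith
    have f3 : 1 ≤ Real.exp (-lw D R.γ x) * Real.exp (-lw D ((fun i => (a i : ℝ)) - X.o) x) := by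
      rw [← Real.exp_add]
      exact Real.one_le_exp (by linarith)
    have f4 : ‖w - z‖ ^ (-(2 * K)) = C2 ^ K * (C2 * ‖w - z‖ ^ 2) ^ (-K) := by
      rw [Real.mul_rpow hC20.le (by positivity), ← mul_assoc, ← Real.rpow_add hC20,
        add_neg_cancel, Real.rpow_zero, one_mul, ← Real.rpow_natCast, ← Real.rpow_mul hwz.le]
      congr 1
      push_cast
      ring
    rw [f4]
    refine mul_le_mul_of_nonneg_left ?_ (by positivity)
    change _ ≤ om D R.γ ψ (K * J) x * _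
    rw [hom, mul_assoc (T x ^ (-K))]
    exact f1.trans (le_mul_of_one_le_right (Real.rpow_nonneg (hT0 x).le _) f3)
  obtain ⟨cs, hcs⟩ := top
  set G : Set ℝ := {c | 0 ≤ c ∧ X.I (om D R.γ ψ c) ≠ ⊤} with hG
  have g0 : (0 : ℝ) ∈ G := ⟨le_rfl, i2⟩
  have gb : BddAbove G := ⟨cs, fun c hc => le_of_not_ge fun h => i1' cs c h hc.2 hcs⟩
  refine ⟨ψ, sSup G, fun x => (div_eq_inv_mul _ _).symm, ⟨pmul _ _ (inv_nonneg.2 hJ0.le)
    (plog r s (fun i => ((hUPB n M ι D _).1 _ (hs i)).1) fun x _ => hS x), _, hbd⟩,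
    le_csSup gb g0, fun η hη => ?_, fun c hc => ?_, fun i q c hc => ?_⟩
  · obtain ⟨c, h1, h2⟩ := exists_lt_of_lt_csSup ⟨0, g0⟩ (sub_lt_self (sSup G) hη)
    exact ⟨c, h2, h1.2⟩
  · by_contra h
    exact (le_csSup gb ⟨(le_csSup gb g0).trans hc.le, h⟩).not_gt hc
  · refine i1 c (q * J) _ (by rwa [hJ, ← mul_assoc])
      (fun x => mul_nonneg (normSq_nonneg _) (Real.exp_pos _).le)
      (ne_top_of_le_ne_top i2 (imono _ _ fun x _ => ?_))
    have e0 := hom 0 x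
    rw [zero_mul, neg_zero, Real.rpow_zero, one_mul] at e0
    rw [e0, hom, ← mul_assoc]
    refine mul_le_of_le_one_left (Real.exp_pos _).le ?_
    rw [Real.rpow_neg (hT0 x).le, Real.rpow_natCast, mul_inv_le_iff₀ (pow_pos (hT0 x) q), one_mul,
      sq, hQ, Pi.pow_apply, map_pow]
    have e1 : Real.exp (((q * j : ℕ) : ℝ) * R.N * lw D R.γ x) =
        Real.exp (J * lw D R.γ x) ^ q := by
      rw [← Real.exp_nat_mul, hJ]
      congr 1
      push_cast
      ring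
    rw [e1, ← mul_pow]
    exact pow_le_pow_left₀ (mul_nonneg (normSq_nonneg _) (Real.exp_pos _).le)
      (mul_le_mul_of_nonneg_right (Finset.single_le_sum (f := fun i => normSq (s i x))
        (fun i _ => normSq_nonneg _) (Finset.mem_univ i)) (Real.exp_pos _).le) q

end LC0

theorem nLC0 (hPW : ZL.St_PW) (hMU : ZL.St_MU) (hUPB : ZL.St_UPB) (hWGT : ZL.St_WGT)
    (hVAL : St_VAL) (hINT : St_INT) (hNINT : St_NINT) : St_LC0 := by
  intro n M _ ι _ _ D X R j r s y hj hs h1 hv hy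
  obtain ⟨ψ, c, -, h⟩ :=
    LC0.core hPW hMU hUPB hWGT hVAL hINT hNINT n M ι D X R j r s y hj hs h1 hv hy
  exact ⟨ψ, c, h⟩

end Pool.Agent.Lib.NA
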