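import Pool.Agent.Lib.NA.Blue
import Pool.Agent.Lib.ZL.B_MU

/-! Project NA: the theorem on the manifold layer. -/

open scoped Classical Topology ContDiff ENNReal
open Set MeasureTheory Complex Metric Filter

set_option linter.unusedSectionVars false

noncomputable section

namespace Pool.Agent.Lib.NA

open Pool.Agent.Lib.SV (E)
open Pool.Agent.Lib.HS32 Pool.Agent.Lib.EX Pool.Agent.Lib.EXS Pool.Agent.Lib.ZL

namespace NA0

variable {n : ℕ} {M : Mf n} {ι : Type} [Fintype ι] [DecidableEq ι] {D : Ad M ι}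

theorem not_off {k : ι → ℕ} {y : M.X} (h : y ∈ Spt D k) : y ∉ off D := by
  obtain ⟨i, -, d, hd, h0⟩ := h
  exact fun ho => ho d hd i h0

theorem le_mul3 {q j : ℕ} {N : ℝ} (hj : 0 < j) (hN : 1 ≤ N) : (q : ℝ) ≤ q * j * N := by
  have h1 : (1 : ℝ) ≤ j := by exact_mod_cast hj
  have h0 : (0 : ℝ) ≤ q := Nat.cast_nonneg q
  calc (q : ℝ) = q * 1 * 1 := by ring
    _ ≤ q * j * N := by gcongr

theorem q_add {X : Cx D} (R : Rx X) (q j t : ℕ) :
    q • R.Q j 0 + t • (fun i => (R.P.a i : ℤ)) = R.Q (q * j) t := by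
  funext i
  rw [Pi.add_apply, Pi.smul_apply, Pi.smul_apply, nsmul_eq_mul, nsmul_eq_mul, Rx.Q, Rx.Q]
  push_cast
  ring

theorem fin_mul (X : Cx D) {f : M.X → ℝ} {C : ℝ} (hC : 0 ≤ C) (h : X.I f ≠ ⊤) :
    X.I (fun x => C * f x) ≠ ⊤ := by
  unfold Cx.I at h ⊢
  simp only [ENNReal.ofReal_mul hC]
  rw [lintegral_const_mul' _ _ ENNReal.ofReal_ne_top]
  exact ENNReal.mul_ne_top ENNReal.ofReal_ne_top h

end NA0

theorem nNA (hPW : ZL.St_PW) (hVAL : St_VAL) (hPK0 : St_PK0) (hSTB : St_STB) (hLC0 : St_LC0)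
    (hLC1 : St_LC1) (hPWR : St_PWR) (hONE : St_ONE) : St_NA := by
  intro n M _ ι _ _ D X R hNv
  obtain ⟨-, v2, v3, v4, -, -, v7, v8, -, v10, -, -⟩ := hVAL n M ι D
  obtain ⟨-, -, ladd, -⟩ := hPW n M ι D
  obtain ⟨-, -, mono, -⟩ := bMU hPW n M ι D X
  obtain ⟨j, hj, r, s, hs, h1, hbs⟩ := hSTB n M ι D X R
  refine ⟨j, hj, r, s, hs, fun d z hz => ?_⟩
  by_contra hno
  have hy : ∀ i, Van D (R.Q j 0) (s i) ((D.e d).symm z) := fun i => by
    refine v3 univ _ _ ((v4 _ _).1 (hs i)) _ (mem_univ _) d (GLU.mem_src d hz) ?_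
    rw [GLU.rinv d hz]
    by_contra h0
    obtain ⟨a1, a2⟩ := v2 _ _ _ z (hs i d z hz)
    exact hno ⟨i, _, a1, h0, a2⟩
  obtain ⟨ψ, c₀, hW, c0, happ, htop, hfin⟩ :=
    hLC0 n M ι D X R j r s _ hj hs h1 hy (NA0.not_off (hbs _ hy).1)
  obtain ⟨t, hone⟩ := hONE n M ι D X R
  obtain ⟨q, hq⟩ : ∃ q : ℕ, c₀ + 2 < q := exists_nat_gt _
  have q0 : 0 < q := by
    have : (0 : ℝ) < q := by linarith
    exact_mod_cast this
  obtain ⟨C, hC⟩ := hW.2
  obtain ⟨c₁, r', G, h01, h12, hG, hGI, hGV, hne, han⟩ := hLC1 n M ι D X R.γ ψ C c₀ (c₀ + 1)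
    (R.Q (q * j) t) R.klt hW.1.1 hC (by linarith) htop
  obtain ⟨g, C', -, -, hT, -⟩ := hPK0 n M ι D R.P
  have hqj := NA0.le_mul3 (q := q) hj R.N1
  have sub : ∀ y, (∀ i, Van D (R.Q (q * j) t) (G i) y) → ∀ i, Van D (R.Q j 0) (s i) y := by
    intro y hv i
    obtain ⟨T, mT, nT⟩ := hT y
    obtain ⟨m1, w1⟩ := v8 univ _ _ q ((v4 _ _).1 (hs i))
    obtain ⟨m2, w2⟩ := v8 univ _ _ t ((v4 _ _).1 mT)
    obtain ⟨m3, w3⟩ := v7 univ _ _ _ _ m1 m2
    rw [NA0.q_add] at m3 w3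
    obtain ⟨B, hB⟩ := v10 univ univ _ _ isCompact_univ subset_rfl m2
    have hI : X.I (fun x => sq D (R.Q (q * j) t) (s i ^ q * T ^ t) x * om D R.γ ψ c₁ x) ≠ ⊤ := by
      refine ne_top_of_le_ne_top (NA0.fin_mul X (le_max_right B 0)
        (hfin i q c₁ (by linarith))) (mono _ _ fun x hx => ?_)
      have e : (fun i => ((R.Q (q * j) t i : ℤ) : ℝ)) = (fun i => ((R.Q (q * j) 0 i : ℤ) : ℝ)) +
          fun i => (((t • fun i => (R.P.a i : ℤ)) i : ℤ) : ℝ) := by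
        funext i
        rw [Pi.add_apply, Pi.smul_apply, nsmul_eq_mul, Rx.Q, Rx.Q]
        push_cast
        ring
      have e2 : sq D (R.Q (q * j) t) (s i ^ q * T ^ t) x =
          sq D (t • fun i => (R.P.a i : ℤ)) (T ^ t) x * sq D (R.Q (q * j) 0) (s i ^ q) x := by
        unfold sq
        rw [e, ladd, Real.exp_add, Pi.mul_apply, map_mul]
        ring
      rw [e2, mul_assoc]
      refine mul_le_mul_of_nonneg_right ((hB x ⟨mem_univ _, hx⟩).trans (le_max_left _ _)) ?_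
      exact mul_nonneg (mul_nonneg (normSq_nonneg _) (Real.exp_pos _).le) (Real.exp_pos _).le
    rcases (w3 y (mem_univ _)).1 (hGV c₁ h01 _ ((v4 _ _).2 m3) hI y hv) with h | h
    · exact (w1 y (mem_univ _)).1 h
    · exact absurd ((w2 y (mem_univ _)).1 h) nT
  obtain ⟨m, m0, f, b, x, hS⟩ := hNv _ hne (fun y hv => (hbs y (sub y hv)).1) han
  have hx := hbs x (sub x hS.mem.1)
  have hqm := NA0.le_mul3 (q := q) m0 R.N1
  obtain ⟨F, mF, nF⟩ := hone ψ c₀ c₁ (q * j) (q * m) r' G (fun d => f d ^ q) b x hW c0 h01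
    (by push_cast; linarith) (by push_cast; linarith) happ hG hGI
    (fun c hc H mH iH => hGV c hc H mH iH x hS.mem.1) (hPWR n M ι D X R _ m q f b x hS)
    (NA0.not_off hx.1)
  exact nF (hx.2 _ (Nat.mul_pos q0 m0) F mF)

end Pool.Agent.Lib.NA
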