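import Pool.Agent.Lib.NA.Blue
import Pool.Agent.Lib.EXS.B_GLU

/-! Project NA: one step. -/

open scoped Classical Topology ContDiff ENNReal
open Set MeasureTheory Complex Metric Filter

set_option linter.unusedVariables false
set_option linter.unusedSectionVars false

noncomputable section

namespace Pool.Agent.Lib.NA

open Pool.Agent.Lib.SV (E)
open Pool.Agent.Lib.HS32 Pool.Agent.Lib.EX Pool.Agent.Lib.EXS Pool.Agent.Lib.ZL

namespace ONE

variable {n : ℕ} {M : Mf n} [M.Cpt] {ι : Type} [Fintype ι] [DecidableEq ι] {D : Ad M ι}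

theorem i_add (X : Cx D) {f g : M.X → ℝ} (hf : AEMeasurable f X.μ) (h1 : X.I f ≠ ⊤)
    (h2 : X.I g ≠ ⊤) : X.I (fun x => f x + g x) ≠ ⊤ := by
  refine ne_top_of_le_ne_top (ENNReal.add_ne_top.2 ⟨h1, h2⟩) ?_
  unfold Cx.I
  rw [← lintegral_add_left' hf.ennreal_ofReal]
  exact lintegral_mono fun x => ENNReal.ofReal_add_le

theorem i_sum (X : Cx D) {τ : Type} (S : Finset τ) {f : τ → M.X → ℝ}
    (hf : ∀ a, AEMeasurable (f a) X.μ) (h : ∀ a, X.I (f a) ≠ ⊤) :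
    X.I (fun x => ∑ a ∈ S, f a x) ≠ ⊤ := by
  induction S using Finset.induction_on with
  | empty => simp [Cx.I]
  | insert a S ha ih =>
    simp only [Finset.sum_insert ha]
    exact i_add X (hf a) (h a) ih

theorem i_two (X : Cx D) {f : M.X → ℝ} (h : X.I f ≠ ⊤) : X.I (fun x => 2 * f x) ≠ ⊤ := by
  unfold Cx.I at h ⊢
  simp only [ENNReal.ofReal_mul (by norm_num : (0 : ℝ) ≤ 2)]
  rw [lintegral_const_mul' _ _ ENNReal.ofReal_ne_top]
  exact ENNReal.mul_ne_top ENNReal.ofReal_ne_top h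

theorem cont_mer {W : Set M.X} {Q : ι → ℤ} {h : M.X → ℂ} (hh : MerOn D W Q h) :
    ContinuousOn h (W ∩ off D) := by
  intro x hx
  obtain ⟨d, hd⟩ := GLU.ex_ch D x
  obtain ⟨s, hs, e⟩ := GLU.on_at hh hd hx.1
  have ho := (GLU.mem_off hd).1 hx.2
  refine (GLU.cont_rd hd ?_).continuousWithinAt
  have h1 : ContinuousAt (fun y => xm (D.c d) (-Q) y * s y) (D.e d x) :=
    (MON.diff_xm fun i => Or.inl (ho i)).continuousAt.mul hs.self_of_nhds.continuousAt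
  refine h1.congr ?_
  filter_upwards [e, MON.off_ev ho] with y e1 e2
  exact (e1 e2).symm

theorem meas_ind (hW : St_PW) (hU : ZL.St_MU) (X : Cx D) {K W : Set M.X} (hK : IsCompact K)
    (hO : IsOpen W) (hKW : K ⊆ W) {g : M.X → ℝ} (hg : ContinuousOn g (W ∩ off D)) :
    AEMeasurable (K.indicator g) X.μ := by
  have o1 : MeasurableSet (W ∩ off D) := (hO.inter (hW n M ι D).1).measurableSet
  have h1 : AEMeasurable ((W ∩ off D).indicator g) X.μ :=
    (aemeasurable_indicator_iff o1).2 (hg.aemeasurable o1)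
  refine (h1.indicator hK.isClosed.measurableSet).congr ?_
  filter_upwards [(hU n M ι D X).1] with x hx
  by_cases k : x ∈ K
  · rw [indicator_of_mem k, indicator_of_mem k, indicator_of_mem (show x ∈ W ∩ off D from ⟨hKW k, hx⟩)]
  · rw [indicator_of_notMem k, indicator_of_notMem k]

theorem cont_lw (hW : St_PW) (a : ι → ℝ) : ContinuousOn (lw D a) (off D) := by
  obtain ⟨-, -, -, -, -, -, -, h8, -, h10, -⟩ := hW n M ι D
  exact h10 ℝ _ (h8 a)

theorem cont_om (hW : St_PW) {γ : ι → ℝ} {ψ : M.X → ℝ} (hψ : SmO D ψ) (c : ℝ) :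
    ContinuousOn (om D γ ψ c) (off D) := by
  obtain ⟨-, -, -, -, -, -, -, -, -, h10, -⟩ := hW n M ι D
  exact Real.continuous_exp.comp_continuousOn
    ((continuousOn_const.mul ((h10 ℝ _ hψ).add (cont_lw hW γ))).neg.sub (cont_lw hW γ))

theorem cont_sq (hW : St_PW) {W : Set M.X} {Q : ι → ℤ} {h : M.X → ℂ} (hh : MerOn D W Q h) :
    ContinuousOn (sq D Q h) (W ∩ off D) :=
  (continuous_normSq.comp_continuousOn (cont_mer hh)).mul
    (Real.continuous_exp.comp_continuousOn ((cont_lw hW _).mono inter_subset_right))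

theorem sq_nn (Q : ι → ℤ) (h : M.X → ℂ) (x : M.X) : 0 ≤ sq D Q h x :=
  mul_nonneg (normSq_nonneg _) (Real.exp_pos _).le

theorem om_nn (γ : ι → ℝ) (ψ : M.X → ℝ) (c : ℝ) (x : M.X) : 0 ≤ om D γ ψ c x :=
  (Real.exp_pos _).le

theorem meas_pc (hW : St_PW) (hU : ZL.St_MU) (X : Cx D) {K W : Set M.X} (hK : IsCompact K)
    (hO : IsOpen W) (hKW : K ⊆ W) {Q : ι → ℤ} {h : M.X → ℂ} (hh : MerOn D W Q h) {γ : ι → ℝ}
    {ψ : M.X → ℝ} (hψ : SmO D ψ) (c : ℝ) :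
    AEMeasurable (fun x => K.indicator (sq D Q h) x * om D γ ψ c x) X.μ :=
  (meas_ind hW hU X hK hO hKW (cont_sq hW hh)).mul
    ((hU n M ι D X).2.1 ℝ _ (cont_om hW hψ c))

theorem nsq3 (a b c : ℂ) : normSq (a - b) ≤ 2 * normSq (c - a) + 2 * normSq (c - b) := by
  simp only [normSq_apply, sub_re, sub_im]
  nlinarith [sq_nonneg (2 * c.re - a.re - b.re), sq_nonneg (2 * c.im - a.im - b.im)]

theorem lw_np (hW : St_PW) {e : ℝ} (he : 0 ≤ e) (x : M.X) : lw D (fun _ => e) x ≤ 0 := by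
  obtain ⟨-, -, -, -, h5, -, h7, -⟩ := hW n M ι D
  have h1 := h7 0 (fun _ => e) (fun _ => he) x
  have h2 := h5 0 0 x
  rw [zero_smul, zero_mul] at h2
  exact h1.trans h2.le

end ONE

open ONE in
theorem ONE.core (hW : St_PW) (hU : ZL.St_MU) (hV : St_VAL) (hI : St_INT) (hA : St_AVGX)
    (hE : St_EX2) (hD : St_IDL) (n : ℕ) (M : Mf n) [M.Cpt] (ι : Type) [Fintype ι] [DecidableEq ι]
    (D : Ad M ι) (X : Cx D) (R : Rx X) (t : ℕ) (fv : ι → ℝ)
    (hP : ∀ b, ∀ x ∈ (R.B b).W, x ∉ off D → ∃ K, IsCompact K ∧ K ⊆ (R.B b).W ∧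
      ∀ (ψ : M.X → ℝ) (c ε : ℝ) (p m : ℕ) (h : M.X → ℂ),
      R.Wt ψ → 0 ≤ c → c + 1 ≤ p * R.N → 0 < ε → MerOn D (R.B b).W (R.Q m 0) h →
      X.I (fun y => K.indicator (sq D (R.Q m 0) h) y * om D R.γ ψ c y *
        Real.exp (-lw D (ε • fv) y)) ≠ ⊤ → ¬ Van D (R.Q m 0) h x →
      ∃ G, Mer D (R.Q p t) G ∧ X.I (fun y => sq D (R.Q p t) G y * om D R.γ ψ c y) ≠ ⊤ ∧
        ¬ Van D (R.Q p t) G x) :
    ∀ (ψ : M.X → ℝ) (c₀ c₁ : ℝ) (p m r : ℕ)
    (G : Fin r → M.X → ℂ) (f : D.A → M.X → ℂ) (b : D.A) (x : M.X), R.Wt ψ → 0 ≤ c₀ → c₀ < c₁ →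
    c₁ + 1 ≤ p * R.N → c₁ + 1 < m * R.N →
    (∀ η > 0, ∃ c, c₀ - η < c ∧ X.I (om D R.γ ψ c) ≠ ⊤) → (∀ i, Mer D (R.Q p t) (G i)) →
    (∀ i, X.I (fun y => sq D (R.Q p t) (G i) y * om D R.γ ψ c₁ y) ≠ ⊤) →
    (∀ c > c₀, ∀ H, Mer D (R.Q p t) H → X.I (fun y => sq D (R.Q p t) H y * om D R.γ ψ c y) ≠ ⊤ →
      Van D (R.Q p t) H x) →
    R.Sc {y | ∀ i, Van D (R.Q p t) (G i) y} m f b x → x ∉ off D →
    ∃ F, Mer D (R.Q m 0) F ∧ ¬ Van D (R.Q m 0) F x := by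
  intro ψ c₀ c₁ p m r G f b x hψ h0 h01 hp hm hap hG hGi hst hS hx
  obtain ⟨K, K1, K2, hK⟩ := hP b x hS.mem.2 hx
  obtain ⟨ψ1, C, ψ2⟩ := id hψ
  obtain ⟨-, -, -, v4, v5, v6, -, -, -, v10, -, v12⟩ := hV n M ι D
  obtain ⟨i1, -, i3⟩ := hI n M ι D X R.γ fv ψ C R.klt ψ2
  have kw : ∀ d, Kc D d ⊆ (R.B d).W := fun d y hy => by
    have : (D.e d).symm (D.e d y) ∈ (R.B d).W := R.sub d _ (GLU.mem_B2 hy.1)
    rwa [(D.e d).left_inv hy.1] at this
  have md : ∀ d d', MerOn D ((R.B d).W ∩ (R.B d').W) (R.Q m 0) (f d - f d') := fun d d' =>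
    (v6 _ _ _ _ 0 (v5 _ _ _ _ inter_subset_left (hS.mer d))
      (v5 _ _ _ _ inter_subset_right (hS.mer d'))).2.1
  have idl : ∀ d d' (L : Set M.X), IsCompact L → L ⊆ (R.B d).W ∩ (R.B d').W →
      ∀ᶠ c in 𝓝[>] c₀, X.I (fun y => L.indicator (sq D (R.Q m 0) (f d - f d')) y *
        om D R.γ ψ c y) ≠ ⊤ := fun d d' L L1 L2 => by
    obtain ⟨c', e1, e2⟩ := hD n M ι D X R.γ ψ C c₀ c₁ (R.Q m 0) (R.Q p t) r G L _ _ R.klt ψ1.1 ψ2
      h01 hap hG hGi L1 ((R.B d).opn.inter (R.B d').opn) L2 (md d d')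
      fun y hy hv => hS.glue d d' y ⟨hv, hy⟩
    filter_upwards [Ioc_mem_nhdsGT e1] with c hc
    exact i1 c c' _ hc.2 (fun y => indicator_nonneg (fun z _ => sq_nn _ _ z) y) e2
  have cp1 : ∀ d d', IsCompact (Kc D d ∩ Kc D d') := fun d d' => (v12 d).inter (v12 d')
  have sb1 : ∀ d d', Kc D d ∩ Kc D d' ⊆ (R.B d).W ∩ (R.B d').W := fun d d' =>
    inter_subset_inter (kw d) (kw d')
  have cp2 : ∀ d, IsCompact (Kc D d ∩ K) := fun d => (v12 d).inter K1
  have sb2 : ∀ d, Kc D d ∩ K ⊆ (R.B d).W ∩ (R.B b).W := fun d => inter_subset_inter (kw d) K2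
  obtain ⟨c₂, ⟨a1, a2⟩, a3⟩ := (((eventually_all.2 fun d => eventually_all.2 fun d' =>
    idl d d' _ (cp1 d d') (sb1 d d')).and (eventually_all.2 fun d =>
      idl d b _ (cp2 d) (sb2 d))).and (Ioc_mem_nhdsGT h01)).exists
  obtain ⟨ε₀, ε0, ε₁, ε1, c', b1, b2, hc'⟩ := i3 c₀ ((c₀ + c₂) / 2) h0 (by linarith [a3.1])
  have fm : D.All fun d z => PolH (D.c d) (R.Q m 0) (D.rd (f d) d) z := fun d z hz =>
    hS.mer d d z hz (R.sub d z hz)
  obtain ⟨F, F1, F2⟩ := hE n M ι D X R ψ m ((c₀ + c₂) / 2) c₂ ε₀ (fun d => D.rd (f d) d) hψ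
    (by linarith [a3.1]) (by linarith [a3.1]) (by linarith [a3.1, a3.2]) ε0 fm (by
      have := i_sum X Finset.univ (fun d => Finset.aemeasurable_fun_sum Finset.univ fun d' _ =>
        meas_pc hW hU X (cp1 d d') ((R.B d).opn.inter (R.B d').opn) (sb1 d d') (md d d') ψ1.1 c₂)
        fun d => i_sum X Finset.univ (fun d' => meas_pc hW hU X (cp1 d d')
          ((R.B d).opn.inter (R.B d').opn) (sb1 d d') (md d d') ψ1.1 c₂) (a1 d)
      refine ne_top_of_le_ne_top this ((hU n M ι D X).2.2.1 _ _ fun y _ => le_of_eq ?_)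
      simp only [dif, Finset.sum_mul]
      refine Finset.sum_congr rfl fun d _ => Finset.sum_congr rfl fun d' _ => ?_
      by_cases k : y ∈ Kc D d ∩ Kc D d'
      · rw [indicator_of_mem k, indicator_of_mem k, GLU.rd_e _ k.1.1, GLU.rd_e _ k.2.1]
        rfl
      · rw [indicator_of_notMem k, indicator_of_notMem k, zero_mul])
  have Fb : MerOn D (R.B b).W (R.Q m 0) F := v5 _ _ _ _ (subset_univ _) ((v4 _ _).1 F1)
  obtain ⟨-, hm1, hm2⟩ := v6 _ _ F (f b) 0 Fb (hS.mer b)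
  refine ⟨F, F1, fun hv => hS.ne (((hm2 x hS.mem.2).2 (by_contra fun hn => ?_)).1 hv)⟩
  obtain ⟨B, hB⟩ := v10 _ K _ _ K1 K2 hm1
  obtain ⟨-, -, -, -, C', -, -, -, av⟩ := hA n M ι D X (R.Q m 0) _ fm
  have key : X.I (fun y => K.indicator (sq D (R.Q m 0) (F - f b)) y *
      om D R.γ ψ ((c₀ + c₂) / 2) y * Real.exp (lw D (fun _ => ε₀) y)) ≠ ⊤ := by
    have ms := fun d => meas_pc (γ := R.γ) hW hU X (cp2 d) ((R.B d).opn.inter (R.B b).opn) (sb2 d)
      (md d b) ψ1.1 ((c₀ + c₂) / 2)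
    have s1 := i_two X (i_sum X Finset.univ ms fun d => i1 _ c₂ _ (by linarith [a3.1])
      (fun y => indicator_nonneg (fun z _ => sq_nn _ _ z) y) (a2 d))
    have := i_add X ((Finset.aemeasurable_fun_sum Finset.univ fun d _ => ms d).const_mul 2) s1
      (i_two X F2)
    refine ne_top_of_le_ne_top this ((hU n M ι D X).2.2.1 _ _ fun y _ => ?_)
    have o1 := om_nn (D := D) R.γ ψ ((c₀ + c₂) / 2) y
    have e1 : Real.exp (lw D (fun _ => ε₀) y) ≤ 1 := Real.exp_le_one_iff.2 (lw_np hW ε0.le y)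
    have e2 := (Real.exp_pos (lw D (fun _ => ε₀) y)).le
    have q1 := sq_nn (D := D) (R.Q m 0) (D.avg (fun d => D.rd (f d) d) - F) y
    have q2 : 0 ≤ ∑ d, (Kc D d ∩ K).indicator (sq D (R.Q m 0) (f d - f b)) y :=
      Finset.sum_nonneg fun d _ => indicator_nonneg (fun z _ => sq_nn _ _ z) y
    have q3 : K.indicator (sq D (R.Q m 0) (F - f b)) y ≤
        2 * (∑ d, (Kc D d ∩ K).indicator (sq D (R.Q m 0) (f d - f b)) y) +
          2 * sq D (R.Q m 0) (D.avg (fun d => D.rd (f d) d) - F) y := by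
      by_cases k : y ∈ K
      · have u1 : (∑ d, (Kc D d).indicator (fun y' => normSq (D.rd (f d) d (D.e d y') - f b y)) y) *
            Real.exp (lw D (fun i => R.Q m 0 i) y) =
            ∑ d, (Kc D d ∩ K).indicator (sq D (R.Q m 0) (f d - f b)) y := by
          rw [Finset.sum_mul]
          refine Finset.sum_congr rfl fun d _ => ?_
          by_cases k' : y ∈ Kc D d
          · rw [indicator_of_mem k', indicator_of_mem (show y ∈ Kc D d ∩ K from ⟨k', k⟩),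
              GLU.rd_e _ k'.1]
            rfl
          · rw [indicator_of_notMem k', indicator_of_notMem fun h => k' h.1, zero_mul]
        rw [indicator_of_mem k, ← u1]
        have u2 := av (f b y) y
        have u3 := nsq3 (F y) (f b y) (D.avg (fun d => D.rd (f d) d) y)
        have u4 := (Real.exp_pos (lw D (fun i => R.Q m 0 i) y)).le
        simp only [sq, Pi.sub_apply]
        nlinarith [mul_le_mul_of_nonneg_right u2 u4, mul_le_mul_of_nonneg_right u3 u4]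
      · rw [indicator_of_notMem k]
        positivity
    rw [← Finset.sum_mul]
    nlinarith [mul_le_mul_of_nonneg_right q3 (mul_nonneg o1 e2),
      mul_le_mul_of_nonneg_left e1 (mul_nonneg q2 o1)]
  obtain ⟨H, H1, H2, H3⟩ := hK ψ c' ε₁ p m _ hψ (by linarith) (by linarith [a3.1, a3.2]) ε1 hm1
    (hc' _ (max B 0) (fun y => indicator_nonneg (fun z _ => sq_nn _ _ z) y) (fun y hy => by
      by_cases k : y ∈ K
      · rw [indicator_of_mem k]
        exact (hB y ⟨k, hy⟩).trans (le_max_left _ _)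
      · rw [indicator_of_notMem k]
        exact le_max_right _ _) key) hn
  exact H3 (hst c' b1 H H1 H2)

theorem nONE (hW : St_PW) (hU : ZL.St_MU) (hV : St_VAL) (hI : St_INT) (hA : St_AVGX) (hE : St_EX2)
    (hP : St_PKV) (hD : St_IDL) : St_ONE := by
  intro n M _ ι _ _ D X R
  obtain ⟨t, fv, hP⟩ := hP n M ι D X R
  exact ⟨t, ONE.core hW hU hV hI hA hE hD n M ι D X R t fv hP⟩

end Pool.Agent.Lib.NA
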