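import Pool.Agent.Lib.NA.Blue
import Pool.Agent.Lib.EXS.RV2

/-! Project NA: the weights with a pole along a fibre. -/

open scoped Classical Topology ContDiff ENNReal
open Set MeasureTheory Complex Metric Filter

set_option linter.unusedSectionVars false

noncomputable section

namespace Pool.Agent.Lib.NA

open Pool.Agent.Lib.SV (E nsq nsq_nonneg)
open Pool.Agent.Lib.HS32 Pool.Agent.Lib.EX Pool.Agent.Lib.EXS Pool.Agent.Lib.ZL
open Pool.Agent.Lib.EXS.K32

namespace PK0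

section lin

variable {r : ℕ}

/-- The minors of the pair `w`, `v` and one more coordinate. -/
def hv (v w : E r) (u : ℂ) : Option (Fin r × Fin r) → ℂ :=
  fun o => o.elim u fun p => w p.1 * v p.2 - w p.2 * v p.1

theorem nsq_smul {κ : Type} [Fintype κ] (c : ℂ) (y : κ → ℂ) : nsq (c • y) = normSq c * nsq y := by
  simp [nsq, Finset.mul_sum]

theorem nsq_le {κ : Type} [Fintype κ] (y : κ → ℂ) : nsq y ≤ Fintype.card κ * ‖y‖ ^ 2 := by
  rw [nsq, ← nsmul_eq_mul, ← Finset.card_univ]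
  refine Finset.sum_le_card_nsmul _ _ _ fun i _ => ?_
  rw [normSq_eq_norm_sq]
  exact pow_le_pow_left₀ (norm_nonneg _) (norm_le_pi_norm y i) 2

theorem nsq_ca {κ Y : Type} [Fintype κ] [TopologicalSpace Y] {f : Y → κ → ℂ} {y : Y}
    (h : ContinuousAt f y) : ContinuousAt (fun w => nsq (f w)) y :=
  (continuous_finsetSum _ fun i _ =>
    continuous_normSq.comp (continuous_apply i)).continuousAt.comp h

theorem hv_smul (v w : E r) {u : ℂ} (h : u ≠ 0) : hv v (u⁻¹ • w) 1 = u⁻¹ • hv v w u := by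
  funext o
  cases o with
  | none => simp [hv, h]
  | some p =>
    simp only [hv, Option.elim, Pi.smul_apply, smul_eq_mul]
    ring

theorem hv_one (v w : E r) : hv v w 1 ≠ 0 := fun h => one_ne_zero (congrFun h none)

theorem hv_self (v : E r) : hv v v 0 = 0 := by
  funext o
  cases o with
  | none => rfl
  | some p => simp [hv, mul_comm]

theorem hv_span {v w : E r} {u : ℂ} (h0 : v ≠ 0) (h1 : w ≠ 0) (h : hv v w u = 0) :
    (ℂ ∙ w) = ℂ ∙ v := by
  obtain ⟨j, hj⟩ := Function.ne_iff.1 h0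
  have e : w = (w j / v j) • v := funext fun i => by
    have := sub_eq_zero.1 (congrFun h (some (i, j)))
    simp only [Pi.zero_apply] at hj
    rw [Pi.smul_apply, smul_eq_mul, div_mul_eq_mul_div, ← this, mul_div_cancel_right₀ _ hj]
  have k : w j / v j ≠ 0 := fun k => h1 (by rw [e, k, zero_smul])
  rw [e]
  exact Submodule.span_singleton_smul_eq k.isUnit v

theorem hv_diff {n : ℕ} {f : E n → E r} {u : E n → ℂ} {z : E n} (v : E r)
    (hf : DifferentiableAt ℂ f z) (hu : DifferentiableAt ℂ u z) :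
    DifferentiableAt ℂ (fun y => hv v (f y) (u y)) z := differentiableAt_pi.2 fun o => by
  cases o with
  | none => exact hu
  | some p => exact ((differentiableAt_pi.1 hf p.1).mul_const _).sub
                ((differentiableAt_pi.1 hf p.2).mul_const _)

end lin

variable {n : ℕ} {M : Mf n} {ι : Type} [Fintype ι] [DecidableEq ι] {D : Ad M ι} (P : Pb D)
  {d : D.A} {z : E n}

/-- The monomial. -/
abbrev mo (d : D.A) : E n → ℂ := xm (D.c d) fun i => P.a i

/-- The smooth weight. -/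
def gw (x : M.X) : ℝ := Real.log (nsq (P.τ x))

/-- The weight with the pole. -/
def bw (v : E P.r) (x : M.X) : ℝ := Real.log (nsq (hv v (P.τ x) 1))

/-- The quotient in a chart. -/
def qw (v : E P.r) (d : D.A) (z : E n) : ℝ := nsq (hv v (P.t d z) (mo P d z)) / nsq (P.t d z)

theorem mo_diff (d : D.A) (z : E n) : DifferentiableAt ℂ (mo P d) z :=
  MON.diff_xm fun _ => Or.inr (Int.natCast_nonneg _)

theorem rep (hz : z ∈ B2 n) (ho : Off (D.c d) z) : D.rd P.τ d z = (mo P d z)⁻¹ • P.t d z := by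
  rw [(P.thol d z hz).2.2.2 ho, MON.xm_neg]

theorem hol (hz : z ∈ B2 n) (ho : Off (D.c d) z) : HolN (D.rd P.τ d) z := by
  have e : D.rd P.τ d =ᶠ[𝓝 z] fun y => (mo P d y)⁻¹ • P.t d y := by
    filter_upwards [isOpen_ball.mem_nhds hz, MON.off_ev ho] with y h1 h2 using rep P h1 h2
  filter_upwards [e.eventuallyEq_nhds, MON.off_ev ho, (P.thol d z hz).1] with y h1 h2 h3
  exact (((mo_diff P d y).inv (MON.xm_ne _ h2)).smul h3).congr_of_eventuallyEq h1

theorem gw_psh : Psh D (gw P) := by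
  have h := fun d z (hz : z ∈ B2 n) (ho : Off (D.c d) z) => lv_lg (hol P hz ho) (by
    rw [rep P hz ho]
    exact smul_ne_zero (inv_ne_zero (MON.xm_ne _ ho)) (P.thol d z hz).2.1)
  exact ⟨fun d z hz ho => (h d z hz ho).1, fun d z hz ho v => ((h d z hz ho).2 v).1⟩

theorem bw_psh (v : E P.r) : Psh D (bw P v) := by
  have h := fun d z (hz : z ∈ B2 n) (ho : Off (D.c d) z) =>
    lv_lg (F := fun y => hv v (D.rd P.τ d y) 1) ((hol P hz ho).mono fun _ hy =>
      hv_diff v hy (differentiableAt_const _)) (hv_one _ _)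
  exact ⟨fun d z hz ho => (h d z hz ho).1, fun d z hz ho v => ((h d z hz ho).2 v).1⟩

theorem key (v : E P.r) (hz : z ∈ B2 n) (ho : Off (D.c d) z) :
    Real.exp (D.rd (bw P v) d z - D.rd (gw P) d z) = qw P v d z := by
  have m0 : mo P d z ≠ 0 := MON.xm_ne _ ho
  have p := normSq_pos.2 (inv_ne_zero m0)
  change Real.exp (Real.log (nsq (hv v (D.rd P.τ d z) 1)) - Real.log (nsq (D.rd P.τ d z))) = _
  rw [Real.exp_sub, Real.exp_log (nsq_pos (hv_one _ _)), rep P hz ho, hv_smul _ _ m0, nsq_smul,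
    nsq_smul, Real.exp_log (mul_pos p (nsq_pos (P.thol d z hz).2.1)), mul_div_mul_left _ _ p.ne',
    qw]

theorem key' (v : E P.r) {x : M.X} (hx : x ∈ (D.e d).source) (ho : x ∈ off D) :
    Real.exp (bw P v x - gw P x) = qw P v d (D.e d x) := by
  rw [← key P v (GLU.mem_B2 hx) (ho d hx), GLU.rd_e _ hx, GLU.rd_e _ hx]

theorem qw_ca (v : E P.r) (hz : z ∈ B2 n) : ContinuousAt (qw P v d) z :=
  (nsq_ca (hv_diff v (P.thol d z hz).1.self_of_nhds (mo_diff P d z)).continuousAt).div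
    (nsq_ca (P.thol d z hz).1.self_of_nhds.continuousAt) (nsq_pos (P.thol d z hz).2.1).ne'

/-- A uniform bound on the unit polydiscs. -/
theorem bnd {f : D.A → E n → ℝ} (h : D.All fun d z => ContinuousAt (f d) z) :
    ∃ C, ∀ d z, ‖z‖ ≤ 1 → |f d z| ≤ C := by
  have hb : ∀ d, ∃ B, ∀ z ∈ closedBall (0 : E n) 1, ‖f d z‖ ≤ B := fun d =>
    (isCompact_closedBall (0 : E n) 1).exists_bound_of_continuousOn fun z hz =>
      (h d z (closedBall_subset_ball one_lt_two hz)).continuousWithinAt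
  choose B hB using hb
  obtain ⟨B', hB'⟩ := (Set.finite_range B).bddAbove
  exact ⟨B', fun d z hz => (hB d _ (mem_closedBall_zero_iff.2 hz)).trans (hB' ⟨d, rfl⟩)⟩

theorem gw_bd [M.Cpt] (hPW : St_PW) :
    ∃ C, ∀ x ∈ off D, |gw P x + lw D (fun i => P.a i) x| ≤ C := by
  obtain ⟨-, p1, -, -, -, -, -, -, p2, -⟩ := hPW n M ι D
  obtain ⟨C, -, hC⟩ := p2 1 one_lt_two
  obtain ⟨B, hB⟩ := bnd (D := D) (f := fun d z => Real.log (nsq (P.t d z))) fun d z hz =>
    (lv_lg (P.thol d z hz).1 (P.thol d z hz).2.1).1.continuousAt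
  refine ⟨B + C * ∑ i, |(P.a i : ℝ)|, fun x hx => ?_⟩
  obtain ⟨d, hd, h1⟩ := p1 x
  have hz := GLU.mem_B2 hd
  have ho := hx d hd
  have h2 := abs_le.1 (hB d _ h1)
  obtain ⟨h3, h4⟩ := hC (fun i => P.a i) d _ h1 ho
  rw [GLU.rd_e _ hd, xr_exp fun i _ => ho i, ← Real.exp_add, Real.exp_le_exp] at h3 h4
  have h5 : gw P x = Real.log (nsq (P.t d (D.e d x))) - lm (D.c d) (fun i => P.a i) (D.e d x) := by
    rw [gw, ← GLU.rd_e P.τ hd, rep P hz ho, nsq_smul, map_inv₀, xm_exp fun i _ => ho i,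
      Real.log_mul (by positivity) (nsq_pos (P.thol d _ hz).2.1).ne', Real.log_inv, Real.log_exp]
    simp only [Int.cast_natCast]
    ring
  rw [h5, abs_le]
  constructor <;> linarith [h2.1, h2.2]

theorem rep' (l : Fin P.r) (hz : z ∈ B2 n) : ∀ᶠ y in 𝓝 z, Off (D.c d) y →
    D.rd (fun x => P.τ x l) d y = xm (D.c d) (-fun i => (P.a i : ℤ)) y * P.t d y l :=
  (isOpen_ball.eventually_mem hz).mono fun y hy ho => congrFun ((P.thol d y hy).2.2.2 ho) l

theorem sec [M.Cpt] (hVAL : St_VAL) (y : M.X) :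
    ∃ T, Mer D (fun i => P.a i) T ∧ ¬ Van D (fun i => P.a i) T y := by
  obtain ⟨d, hd⟩ := GLU.ex_ch D y
  have hz := GLU.mem_B2 hd
  obtain ⟨l, hl⟩ := Function.ne_iff.1 (P.thol d _ hz).2.1
  refine ⟨fun x => P.τ x l, fun b z hz => ⟨_, hol_apply (P.thol b z hz).1 l, rep' P l hz⟩,
    fun h => hl ?_⟩
  exact ((hVAL n M ι D).1 _ _ _ _ _ (hol_apply (P.thol d _ hz).1 l)
    (rep' P l hz)).self_of_nhds.symm.trans (h d hd)

/-- The quotient vanishes to second order. -/
theorem near (hz : z ∈ B2 n) (ho : ¬ Off (D.c d) z) :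
    ∃ C, ∀ᶠ y in 𝓝 z, qw P (P.t d z) d y ≤ C * ‖y - z‖ ^ 2 := by
  obtain ⟨i, hi⟩ := not_forall.1 ho
  have e : mo P d z = 0 := Finset.prod_eq_zero (Finset.mem_univ i) (by
    rw [not_not.1 hi, zero_zpow _ (Int.natCast_ne_zero.2 (P.apos i).ne')])
  obtain ⟨L, hL⟩ := (hv_diff (P.t d z) (P.thol d z hz).1.self_of_nhds
    (mo_diff P d z)).isBigO_sub.bound
  have p := half_pos (nsq_pos (P.thol d z hz).2.1)
  refine ⟨Fintype.card (Option (Fin P.r × Fin P.r)) * L ^ 2 / (nsq (P.t d z) / 2), ?_⟩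
  filter_upwards [hL, (nsq_ca (P.thol d z hz).1.self_of_nhds.continuousAt).eventually_const_le
    (half_lt_self (nsq_pos (P.thol d z hz).2.1))] with y h1 h2
  rw [e, hv_self, sub_zero] at h1
  rw [div_mul_eq_mul_div, mul_assoc, ← mul_pow]
  refine div_le_div₀ (by positivity) ((nsq_le _).trans ?_) p h2
  gcongr

end PK0

open PK0 in
theorem nPK0 (hPW : ZL.St_PW) (hVAL : St_VAL) : St_PK0 := by
  intro n M _ ι _ _ D P
  obtain ⟨C, hC⟩ := gw_bd P hPW
  refine ⟨gw P, C, gw_psh P, hC, sec P hVAL, fun W x hW hs hx => ?_⟩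
  obtain ⟨T, t1, t2⟩ := sec P hVAL x
  obtain ⟨d, hd⟩ := GLU.ex_ch D x
  have hz := GLU.mem_B2 hd
  obtain ⟨L, hL⟩ := near P hz fun k => hx ((GLU.mem_off hd).2 k)
  set v := P.t d (D.e d x) with hv
  obtain ⟨B, hB⟩ := bnd (D := D) (f := qw P v) fun d z hz => qw_ca P v hz
  have far : ∀ᶠ c in 𝓝 (0 : ℝ), ∀ w ∈ Wᶜ, ∀ᶠ y in 𝓝 w, y ∈ off D →
      c ≤ Real.exp (bw P v y - gw P y) :=
    hW.isClosed_compl.isCompact.eventually_forall_of_forall_eventually fun w hw => by
      obtain ⟨b, hb⟩ := GLU.ex_ch D w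
      have hz' := GLU.mem_B2 hb
      have p : 0 < qw P v b (D.e b w) := div_pos (nsq_pos fun k => hw (hs w (by
        rw [← GLU.rd_e P.φ hb, ← GLU.rd_e P.φ hd, (P.thol b _ hz').2.2.1, (P.thol d _ hz).2.2.1]
        exact hv_span (P.thol d _ hz).2.1 (P.thol b _ hz').2.1 k))) (nsq_pos (P.thol b _ hz').2.1)
      have a : ∀ᶠ y in 𝓝 w, y ∈ off D → qw P v b (D.e b w) / 2 ≤ Real.exp (bw P v y - gw P y) := by
        filter_upwards [((qw_ca P v hz').comp ((D.e b).continuousAt hb)).eventually_const_le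
          (half_lt_self p), (D.e b).open_source.mem_nhds hb] with y h1 h2 h3
        rwa [key' P v h2 h3]
      filter_upwards [continuousAt_fst.eventually (eventually_le_nhds (half_pos p)),
        continuousAt_snd.eventually a.eventually_nhds] with y h1 h2
      exact h2.mono fun _ k k' => h1.trans (k k')
  obtain ⟨c, c1, c0⟩ := ((far.filter_mono nhdsWithin_le_nhds).and
    (self_mem_nhdsWithin (s := Ioi 0))).exists
  refine ⟨T, bw P v, {w | ∀ᶠ y in 𝓝 w, y ∈ off D → c ≤ Real.exp (bw P v y - gw P y)}ᶜ, Real.log c,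
    max L B, t1, t2, bw_psh P v, isOpen_setOf_eventually_nhds.isClosed_compl.isCompact,
    fun w hw => by_contra fun k => hw (c1 w k), fun y hy => ⟨?_, fun h k => ?_⟩, d, hd, ?_⟩
  · obtain ⟨b, hb, h1⟩ := (hPW n M ι D).2.1 y
    have := Real.add_one_le_exp (bw P v y - gw P y)
    rw [key' P v hb hy] at this
    linarith [le_max_right L B, (abs_le.1 (hB b _ h1)).2]
  · linarith [(Real.log_le_iff_le_exp c0).2 (k.self_of_nhds hy)]
  · have ca : ContinuousAt (fun z : E n => L * ‖z - D.e d x‖ ^ 2) (D.e d x) := by fun_prop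
    filter_upwards [hL, isOpen_ball.eventually_mem hz, ca.eventually_le_const
      (u := Real.exp (Real.log c - 3)) (by simpa using Real.exp_pos _)] with z h1 h2 h3 ho
    rw [← key P v h2 ho] at h1
    exact ⟨by linarith [Real.exp_le_exp.1 (h1.trans h3)],
      h1.trans (mul_le_mul_of_nonneg_right (le_max_left L B) (sq_nonneg _))⟩

end Pool.Agent.Lib.NA
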