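import Pool.Agent.Lib.NA.Blue
import Pool.Agent.Lib.ZL.B_AVG

/-! Project NA: peak sections along a fibre. -/

open scoped Classical Topology ContDiff ENNReal
open Set MeasureTheory Complex Metric Filter

set_option linter.unusedSectionVars false

noncomputable section

namespace Pool.Agent.Lib.NA

open Pool.Agent.Lib.SV (E)
open Pool.Agent.Lib.HS32 Pool.Agent.Lib.EX Pool.Agent.Lib.EXS Pool.Agent.Lib.ZL

namespace PKV

variable {n : ℕ} {M : Mf n} {ι : Type} [Fintype ι] [DecidableEq ι] {D : Ad M ι}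

theorem sq_nn (Q : ι → ℤ) (F : M.X → ℂ) (x : M.X) : 0 ≤ sq D Q F x :=
  mul_nonneg (normSq_nonneg _) (Real.exp_pos _).le

theorem om_pos (γ : ι → ℝ) (ψ : M.X → ℝ) (c : ℝ) (x : M.X) : 0 < om D γ ψ c x := Real.exp_pos _

/-- The logarithm of the norm of a generating family. -/
theorem gen [M.Cpt] (hU : St_UPB) (hW : ZL.St_WGT) {P : ι → ℤ} (h : Gens D P) :
    ∃ (u : M.X → ℝ) (C : ℝ), Psh D u ∧ ∀ x ∈ off D, |u x + lw D (fun i => P i) x| ≤ C := by
  obtain ⟨r, G, B, h1, h2⟩ := (hU n M ι D _).2.2.2.2.2.2 h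
  obtain ⟨L, -, -, hW⟩ := hW
  have hpos : ∀ x ∈ off D, 0 < ∑ a, normSq (G a x) := fun x hx => by
    refine lt_of_le_of_ne (Finset.sum_nonneg fun a _ => normSq_nonneg _) fun h0 => ?_
    have := h2 x hx
    rw [← h0, mul_zero] at this
    exact absurd this (not_le.2 (Real.exp_pos _))
  choose b hb using fun a => (hU n M ι D _).2.2.2.2.1 _ (h1 a).1
  refine ⟨_, |Real.log B| + |Real.log (∑ a, b a)|, (hW n M ι D).2.2.2.2.2.1 r G
    (fun a => ((hU n M ι D _).1 _ (h1 a).1).1) hpos, fun x hx => abs_le.2 ⟨?_, ?_⟩⟩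
  · have a2 : 0 < B :=
      (mul_pos_iff_of_pos_right (hpos x hx)).1 ((Real.exp_pos _).trans_le (h2 x hx))
    have a3 := Real.log_le_log (Real.exp_pos _) (h2 x hx)
    rw [Real.log_mul a2.ne' (hpos x hx).ne', Real.log_exp] at a3
    linarith [le_abs_self (Real.log B), abs_nonneg (Real.log (∑ a, b a))]
  · have a1 : ∑ a, normSq (G a x) ≤ (∑ a, b a) * Real.exp (-lw D (fun i => P i) x) := by
      rw [Finset.sum_mul]
      exact Finset.sum_le_sum fun a _ => hb a x hx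
    have a2 : 0 < ∑ a, b a :=
      (mul_pos_iff_of_pos_right (Real.exp_pos _)).1 ((hpos x hx).trans_le a1)
    have a3 := Real.log_le_log (hpos x hx) a1
    rw [Real.log_mul a2.ne' (Real.exp_pos _).ne', Real.log_exp] at a3
    linarith [le_abs_self (Real.log (∑ a, b a)), abs_nonneg (Real.log B)]

theorem cont_on {W : Set M.X} {Q : ι → ℤ} {F : M.X → ℂ} (h : MerOn D W Q F) :
    ContinuousOn F (W ∩ off D) := fun x hx => by
  obtain ⟨d, hd⟩ := GLU.ex_ch D x
  exact (GLU.cont_rd hd (ZL.AVG.polH_hol90 (GLU.on_at h hd hx.1)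
    ((GLU.mem_off hd).1 hx.2)).self_of_nhds.continuousAt).continuousWithinAt

theorem lse {g s b C : ℝ} (h : b ≤ g + C) :
    |Real.log (Real.exp (g + s) + Real.exp b) - g| ≤ |s| + |C| + 1 := by
  have p : 0 < Real.exp (g + s) + Real.exp b := by positivity
  refine abs_le.2 ⟨?_, ?_⟩
  · have := Real.log_le_log (Real.exp_pos (g + s)) (le_add_of_nonneg_right (Real.exp_pos b).le)
    rw [Real.log_exp] at this
    linarith [neg_abs_le s, abs_nonneg C]
  · have a1 : Real.exp (g + s) ≤ Real.exp (g + |s| + |C|) :=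
      Real.exp_le_exp.2 (by linarith [le_abs_self s, abs_nonneg C])
    have a2 : Real.exp b ≤ Real.exp (g + |s| + |C|) :=
      Real.exp_le_exp.2 (by linarith [le_abs_self C, abs_nonneg s])
    have a3 : Real.exp (g + s) + Real.exp b ≤ Real.exp (g + |s| + |C| + 1) := by
      rw [Real.exp_add _ 1]
      nlinarith [Real.add_one_le_exp 1, Real.exp_pos (g + |s| + |C|)]
    have := Real.log_le_log p a3
    rw [Real.log_exp] at this
    linarith

theorem pole {K : ℕ} {y C ρ : ℝ} (hρ : 0 ≤ ρ) (h : Real.exp y ≤ C * ρ ^ 2) :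
    ρ ^ (-(2 * (K : ℝ))) ≤ |C| ^ K * Real.exp (-(K * y)) := by
  have h1 : Real.exp y ≤ |C| * ρ ^ 2 :=
    h.trans (mul_le_mul_of_nonneg_right (le_abs_self C) (sq_nonneg ρ))
  have h2 : 0 < ρ := hρ.lt_of_ne fun e => by
    rw [← e] at h1
    simp at h1
    exact absurd h1 (not_le.2 (Real.exp_pos _))
  have h3 := pow_le_pow_left₀ (Real.exp_pos y).le h1 K
  rw [← Real.exp_nat_mul, mul_pow, ← pow_mul] at h3
  have e : (2 * (K : ℝ)) = ((2 * K : ℕ) : ℝ) := by push_cast; ring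
  rw [Real.rpow_neg hρ, e, Real.rpow_natCast, Real.exp_neg, ← div_eq_mul_inv, inv_eq_one_div,
    div_le_div_iff₀ (by positivity) (Real.exp_pos _), one_mul]
  exact h3

theorem I_mul {X : Cx D} {f : M.X → ℝ} {c : ℝ} (hc : 0 ≤ c) (h : X.I f ≠ ⊤) :
    X.I (fun x => c * f x) ≠ ⊤ := by
  simp only [Cx.I, ENNReal.ofReal_mul hc]
  rw [lintegral_const_mul' _ _ ENNReal.ofReal_ne_top]
  exact ENNReal.mul_ne_top ENNReal.ofReal_ne_top h

theorem I_add {X : Cx D} {f g : M.X → ℝ} (hf : AEMeasurable f X.μ) (h : X.I f ≠ ⊤)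
    (h' : X.I g ≠ ⊤) : X.I (fun x => f x + g x) ≠ ⊤ := by
  refine ne_top_of_le_ne_top (ENNReal.add_ne_top.2 ⟨h, h'⟩) ?_
  simp only [Cx.I]
  rw [← lintegral_add_left' hf.ennreal_ofReal]
  exact lintegral_mono fun x => ENNReal.ofReal_add_le

theorem nsq_le (a b : ℂ) : normSq b ≤ 2 * normSq (a - b) + 2 * normSq a := by
  simp only [normSq_apply, sub_re, sub_im]
  nlinarith [sq_nonneg (2 * a.re - b.re), sq_nonneg (2 * a.im - b.im)]

theorem ex_j {lam N ε : ℝ} {t : ℕ} (hl : 0 ≤ lam) (hN : 1 ≤ N) (hε : 0 < ε) (ht : 0 < t) :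
    ∃ (j : ℕ) (e : ℝ), 0 ≤ e ∧ e ≤ ε ∧ e * t ≤ 1 ∧ e * N * j = lam := by
  obtain ⟨j, hj⟩ := exists_nat_gt (lam / ε + lam * t)
  have t0 : (0 : ℝ) < t := by exact_mod_cast ht
  have a1 : 0 ≤ lam / ε := by positivity
  have a2 : 0 ≤ lam * t := by positivity
  have j0 : (0 : ℝ) < j := by linarith
  have a3 : (j : ℝ) ≤ N * j := by nlinarith
  refine ⟨j, lam / (N * j), by positivity, ?_, ?_, by field_simp⟩
  · rw [div_le_iff₀ (by positivity)]
    have : lam / ε ≤ N * j := by linarith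
    rwa [div_le_iff₀ hε, mul_comm] at this
  · rw [div_mul_eq_mul_div, div_le_one (by positivity)]
    linarith

end PKV

open PKV in
theorem bPKV (hPW : St_PW) (hMU : ZL.St_MU) (hUPB : St_UPB) (hWGT : ZL.St_WGT) (hPOG : St_POG)
    (hVAL : NA.St_VAL) (hEXB : St_EXB) (hWGL : St_WGL) (hPK0 : St_PK0) (hNINT : St_NINT) :
    St_PKV := by
  intro n M _ ι _ _ D X R
  obtain ⟨oo, -, ladd, lsub, lsm, lneg, lanti, -, -, hcont, hho⟩ := hPW n M ι D
  obtain ⟨hae, hmeas, hmono, -, hloc⟩ := hMU n M ι D X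
  obtain ⟨-, -, -, v4, v5, v6, v7, v8, -, v10, v11, -⟩ := hVAL n M ι D
  obtain ⟨-, x2, x3, x4⟩ := hEXB n M ι D X R
  obtain ⟨L, L0, hL⟩ := hWGL
  obtain ⟨_, -, hct, hW⟩ := id hWGT
  obtain ⟨pc, padd, pmul, -, plse, -⟩ := hW n M ι D
  clear hW
  obtain ⟨g, Cg, pg, bg, -, hpk⟩ := hPK0 n M ι D R.P
  obtain ⟨Ee, hE⟩ : ∃ Ee : ι → ℕ, Ee = fun i => ⌈X.o i - R.γ i⌉₊ := ⟨_, rfl⟩
  obtain ⟨K0, hK0⟩ : ∃ K0 : ℕ, K0 = n + ∑ i, Ee i := ⟨_, rfl⟩
  obtain ⟨t0, ht0⟩ : ∃ t0 : ℕ, t0 = ∑ i, X.e i + 1 := ⟨_, rfl⟩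
  obtain ⟨f, hf⟩ : ∃ f : ι → ℝ, f = (t0 : ℝ) • (fun i => (R.P.a i : ℝ)) - fun i => (X.e i : ℝ) :=
    ⟨_, rfl⟩
  have f0 : ∀ i, 0 ≤ f i := fun i => by
    have a1 : X.e i ≤ t0 := ht0 ▸ (Finset.single_le_sum (f := X.e) (fun _ _ => Nat.zero_le _)
      (Finset.mem_univ i)).trans (Nat.le_succ _)
    have a2 : X.e i ≤ t0 * R.P.a i := a1.trans (Nat.le_mul_of_pos_right _ (R.P.apos i))
    have a3 : (X.e i : ℝ) ≤ t0 * R.P.a i := by exact_mod_cast a2
    simp only [hf, Pi.sub_apply, Pi.smul_apply, smul_eq_mul]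
    linarith
  have l0 : ∀ x, lw D 0 x = 0 := fun x => by simp [lw]
  have lE : ∀ x, lw D ((fun i => (Ee i : ℝ)) - X.o) x ≤ -lw D R.γ x := fun x => by
    rw [← lneg]
    refine lanti _ _ (fun i => ?_) x
    have := Nat.le_ceil (X.o i - R.γ i)
    simp only [hE, Pi.neg_apply, Pi.sub_apply]
    linarith
  have N0 : 0 < R.N := one_pos.trans_le R.N1
  refine ⟨K0 + 2, f, fun b x hx hxo => ?_⟩
  obtain ⟨T, bb, K, s, C', T1, T2, pb, Kc, KW, hbb, d, hd, hnear⟩ :=
    hpk _ x (R.B b).opn (R.sat b x hx) hxo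
  refine ⟨K, Kc, KW, fun ψ c ε p m h hψ hc hp hε hh hI hx0 => ?_⟩
  obtain ⟨pψ, Cψ, bψ⟩ := hψ
  obtain ⟨j, e1, e0, e1ε, e1t, e1l⟩ := ex_j (lam := p * R.N - 1 - c) (t := t0) (by linarith) R.N1 hε
    (ht0 ▸ Nat.succ_pos _)
  obtain ⟨u, Cu, pu, bu⟩ := gen hUPB hWGT (R.gen j)
  obtain ⟨Q, hQ⟩ : ∃ Q, Q = R.Q p (K0 + 2) := ⟨_, rfl⟩
  rw [← hQ]
  -- the function to be cut off
  obtain ⟨σ, s1, -, -, s2⟩ := x3 _ _ (R.B b).opn (x2 b m 0)
  obtain ⟨σ', -, s3, -, s4⟩ := x3 _ _ (R.B b).opn (x2 b p 0)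
  have T3 := v8 _ _ _ (K0 + 2) (v5 _ _ _ _ (subset_univ (R.B b).W) ((v4 _ _).1 T1))
  have V1 := v7 _ _ _ _ _ s3 T3.1
  have V2 := v7 _ _ _ _ _ s1 V1.1
  have V3 := v7 _ _ _ _ _ hh V2.1
  obtain ⟨Q', hQ'⟩ : ∃ Q', Q' = -R.Q m 0 + (R.Q p 0 + (K0 + 2) • fun i => (R.P.a i : ℤ)) :=
    ⟨_, rfl⟩
  obtain ⟨V, hV⟩ : ∃ V, V = σ * (σ'⁻¹ * T ^ (K0 + 2)) := ⟨_, rfl⟩
  rw [← hQ', ← hV] at V2 V3
  have eQ : R.Q m 0 + Q' = Q := by
    funext i
    simp only [hQ, hQ', Rx.Q, Pi.add_apply, Pi.neg_apply, Pi.smul_apply]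
    rw [nsmul_eq_mul]
    push_cast
    ring
  rw [eQ] at V3
  have nU : ¬ Van D Q (h * V) x := fun k => ((V3.2 x hx).1 k).elim hx0 fun k =>
    ((V2.2 x hx).1 k).elim (s2 x hx).1 fun k =>
      ((V1.2 x hx).1 k).elim (s4 x hx).2 fun k => T2 ((T3.2 x hx).1 k)
  obtain ⟨CV, bV⟩ := v10 _ K _ _ Kc KW V2.1
  have sU : ∀ y ∈ K ∩ off D, sq D Q (h * V) y ≤ |CV| * K.indicator (sq D (R.Q m 0) h) y :=
    fun y hy => by
      have e : (fun i => (Q i : ℝ)) = (fun i => (R.Q m 0 i : ℝ)) + fun i => (Q' i : ℝ) := by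
        funext i
        rw [← eQ]
        simp
      have e2 : sq D Q (h * V) y = sq D Q' V y * sq D (R.Q m 0) h y := by
        simp only [sq, e, ladd, Real.exp_add, Pi.mul_apply, map_mul]
        ring
      rw [e2, indicator_of_mem hy.1]
      exact mul_le_mul_of_nonneg_right ((bV y hy).trans (le_abs_self _)) (sq_nn _ _ _)
  have MU := V3.1
  clear V1 V2 V3 T3 s1 s2 s3 s4 bV hV eQ hQ'
  generalize h * V = U at nU sU MU
  -- the weight
  have pa := padd _ _ pg (pc s)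
  have pf := padd _ _ (padd _ _ (padd _ _ (pmul c _ hc pψ) (pmul e1 _ e0 pu))
    (pmul K0 _ (Nat.cast_nonneg _) pb)) (pmul (1 - e1 * t0) _ (by linarith) pg)
  have pph := padd _ _ pf (plse _ _ pa pb)
  obtain ⟨sΓ, dΓ⟩ := hL n M ι D _ bb _ U pa pb pf fun d z hz ho h1 => by
    have hs := GLU.mem_src d hz
    exact ZL.AVG.polH_hol90 (MU d z hz (KW ((hbb _ ((GLU.mem_off hs).2
      (by rwa [GLU.rinv d hz]))).2 h1))) ho
  obtain ⟨ph, hph⟩ : ∃ ph : M.X → ℝ, ph = fun y => c * ψ y + e1 * u y + K0 * bb y +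
    (1 - e1 * t0) * g y + Real.log (Real.exp (g y + s) + Real.exp (bb y)) := ⟨_, rfl⟩
  obtain ⟨Γ, hΓ⟩ : ∃ Γ : M.X → ℂ, Γ = fun y => (ct (g y + s - bb y) : ℂ) * U y := ⟨_, rfl⟩
  obtain ⟨β, hβ⟩ : ∃ β : M.X → ℝ, β = fun y =>
    if 2 ≤ g y + s - bb y ∧ g y + s - bb y ≤ 3 then L * normSq (U y) else 0 := ⟨_, rfl⟩
  rw [← hph] at pph dΓ
  rw [← hΓ] at sΓ dΓ
  rw [← hβ] at dΓ
  obtain ⟨w, hw⟩ : ∃ w : M.X → ℝ, w = fun y => lw D (fun i => Q i) y +
    (-(c * (ψ y + lw D R.γ y)) - lw D R.γ y) + -lw D (e1 • f) y + -(K0 * (bb y - g y)) := ⟨_, rfl⟩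
  have ew : ∀ y, Real.exp (w y) = Real.exp (lw D (fun i => Q i) y) * om D R.γ ψ c y *
      Real.exp (-lw D (e1 • f) y) * Real.exp (-(K0 * (bb y - g y))) := fun y => by
    simp only [hw, Real.exp_add, om]
  obtain ⟨C1, hC1⟩ : ∃ C1, ∀ y ∈ off D, |-ph y - w y| ≤ C1 := by
    refine ⟨e1 * Cu + (K0 + 2 - e1 * t0) * Cg + (|s| + |C'| + 1), fun y hy => ?_⟩
    have q1 : (fun i => (Q i : ℝ)) =
        (p * R.N) • R.γ + (K0 + 2 : ℝ) • fun i => (R.P.a i : ℝ) := by
      funext i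
      simp only [hQ, Rx.Q, Rx.γ, Pi.add_apply, Pi.smul_apply, smul_eq_mul]
      push_cast
      field_simp
    have q2 : (fun i => (((j : ℤ) * R.k i + X.e i : ℤ) : ℝ)) =
        (R.N * j) • R.γ + fun i => (X.e i : ℝ) := by
      funext i
      simp only [Rx.γ, Pi.add_apply, Pi.smul_apply, smul_eq_mul]
      push_cast
      field_simp
    have b1 := bu y hy
    rw [q2, ladd, lsm] at b1
    have b2 := bg y hy
    have b3 := lse (s := s) (hbb y hy).1
    have k0 : (0 : ℝ) ≤ K0 + 2 - e1 * t0 := by linarith [Nat.cast_nonneg (α := ℝ) K0]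
    have b4 := mul_le_mul_of_nonneg_left b1 e0
    have b5 := mul_le_mul_of_nonneg_left b2 k0
    rw [← abs_of_nonneg e0, ← abs_mul, abs_of_nonneg e0] at b4
    rw [← abs_of_nonneg k0, ← abs_mul, abs_of_nonneg k0] at b5
    have e : -ph y - w y = -(e1 * (u y + (R.N * j * lw D R.γ y + lw D (fun i => X.e i) y)) +
        (K0 + 2 - e1 * t0) * (g y + lw D (fun i => R.P.a i) y) +
        (Real.log (Real.exp (g y + s) + Real.exp (bb y)) - g y)) := by
      simp only [hph, hw, q1, hf, ladd, lsm, lsub]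
      linear_combination (lw D R.γ y) * e1l
    rw [e, abs_neg]
    exact (abs_add_three _ _ _).trans (by linarith)
  have up : ∀ y ∈ off D, Real.exp (-ph y) ≤ Real.exp C1 * Real.exp (w y) := fun y hy => by
    rw [← Real.exp_add]
    exact Real.exp_le_exp.2 (by linarith [(abs_le.1 (hC1 y hy)).2])
  have lo : ∀ y ∈ off D, Real.exp (w y) ≤ Real.exp C1 * Real.exp (-ph y) := fun y hy => by
    rw [← Real.exp_add]
    exact Real.exp_le_exp.2 (by linarith [(abs_le.1 (hC1 y hy)).1])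
  have f1 : ∀ y, 1 ≤ Real.exp (-lw D (e1 • f) y) := fun y => Real.one_le_exp (by
    have := lanti 0 (e1 • f) (fun i => mul_nonneg e0 (f0 i)) y
    rw [l0] at this
    linarith)
  have f2 : ∀ y, Real.exp (-lw D (e1 • f) y) ≤ Real.exp (-lw D (ε • f) y) := fun y =>
    Real.exp_le_exp.2 (neg_le_neg
      (lanti _ _ (fun i => mul_le_mul_of_nonneg_right e1ε (f0 i)) y))
  obtain ⟨J, hJ⟩ : ∃ J : M.X → ℝ, J = fun y => K.indicator (sq D (R.Q m 0) h) y *
    om D R.γ ψ c y * Real.exp (-lw D (ε • f) y) := ⟨_, rfl⟩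
  rw [← hJ] at hI
  have J0 : ∀ y, 0 ≤ J y := fun y => by
    rw [hJ]
    exact mul_nonneg (mul_nonneg (indicator_nonneg (fun z _ => sq_nn _ _ z) y)
      (om_pos _ _ _ _).le) (Real.exp_pos _).le
  have sJ : ∀ y ∈ off D, 1 ≤ g y + s - bb y →
      sq D Q U y * om D R.γ ψ c y * Real.exp (-lw D (e1 • f) y) ≤ |CV| * J y := fun y hy h1 => by
    rw [hJ]
    beta_reduce
    rw [← mul_assoc, ← mul_assoc]
    have a1 := sU y ⟨(hbb y hy).2 h1, hy⟩
    exact mul_le_mul (mul_le_mul_of_nonneg_right a1 (om_pos _ _ _ _).le) (f2 y) (Real.exp_pos _).le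
      (mul_nonneg ((sq_nn _ _ _).trans a1) (om_pos _ _ _ _).le)
  -- the theorem of Hörmander
  have aβ : AEMeasurable β X.μ := by
    have hO := ((R.B b).opn.inter oo).measurableSet
    have a1 : AEMeasurable (((R.B b).W ∩ off D).indicator U) X.μ :=
      (aemeasurable_indicator_iff hO).2 ((cont_on MU).aemeasurable hO)
    have a2 : AEMeasurable (fun y => g y + s - bb y) X.μ :=
      hmeas ℝ _ ((hcont ℝ _ pa.1).sub (hcont ℝ _ pb.1))
    refine (((continuous_normSq.measurable.comp_aemeasurable a1).const_mul L).indicator₀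
      (a2.nullMeasurableSet_preimage (measurableSet_Icc (a := (2 : ℝ)) (b := 3)))).congr
      (hae.mono fun y hy => ?_)
    rw [hβ]
    beta_reduce
    by_cases k : 2 ≤ g y + s - bb y ∧ g y + s - bb y ≤ 3
    · rw [if_pos k, indicator_of_mem (by exact k), Function.comp,
        indicator_of_mem (mem_inter (KW ((hbb y hy).2 (by linarith [k.1]))) hy)]
    · rw [if_neg k, indicator_of_notMem (by exact k)]
  obtain ⟨F, hF, hH⟩ := X.hor pph sΓ aβ (fun y _ => by
    rw [hβ]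
    beta_reduce
    split_ifs
    exacts [mul_nonneg L0.le (normSq_nonneg _), le_rfl]) dΓ
  have I1 : X.I (fun y => normSq (Γ y - F y) * Real.exp (-ph y)) ≠ ⊤ := by
    refine ne_top_of_le_ne_top (ENNReal.mul_ne_top (by simp) (ne_top_of_le_ne_top
      (I_mul (c := L * Real.exp C1 * Real.exp (K0 * (3 - s)) * |CV|) (by positivity) hI)
      (hmono _ _ fun y hy => ?_))) hH
    have := J0 y
    rw [hβ]
    beta_reduce
    split_ifs with k
    · have a1 := sJ y hy (by linarith [k.1])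
      have a2 : Real.exp (-(K0 * (bb y - g y))) ≤ Real.exp (K0 * (3 - s)) :=
        Real.exp_le_exp.2 (by nlinarith [k.2, Nat.cast_nonneg (α := ℝ) K0])
      calc _ ≤ L * normSq (U y) * (Real.exp C1 * Real.exp (w y)) :=
            mul_le_mul_of_nonneg_left (up y hy) (mul_nonneg L0.le (normSq_nonneg _))
        _ = L * Real.exp C1 * Real.exp (-(K0 * (bb y - g y))) *
            (sq D Q U y * om D R.γ ψ c y * Real.exp (-lw D (e1 • f) y)) := by
            rw [ew, sq]; ring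
        _ ≤ L * Real.exp C1 * Real.exp (K0 * (3 - s)) * (|CV| * J y) := by
            have := mul_nonneg (mul_nonneg (sq_nn (D := D) Q U y) (om_pos (D := D) R.γ ψ c y).le)
              (Real.exp_pos (-lw D (e1 • f) y)).le
            gcongr
        _ = _ := by ring
    · rw [zero_mul]
      positivity
  have I2 : X.I (fun y => sq D Q F y * om D R.γ ψ c y) ≠ ⊤ := by
    have a0 : AEMeasurable (fun y => normSq (Γ y - F y) * Real.exp (-ph y)) X.μ :=
      hmeas ℝ _ ((continuous_normSq.comp_continuousOn ((hcont ℂ _ sΓ).sub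
        (hcont ℂ _ (hho _ hF)))).mul (hcont ℝ _ pph.1).neg.rexp)
    refine ne_top_of_le_ne_top (I_add (a0.const_mul (2 * Real.exp C1 * Real.exp (K0 * C')))
      (I_mul (by positivity) I1) (I_mul (c := 2 * |CV|) (by positivity) hI))
      (hmono _ _ fun y hy => ?_)
    have o0 := (om_pos (D := D) R.γ ψ c y).le
    have a1 : Real.exp (lw D (fun i => Q i) y) * om D R.γ ψ c y ≤
        Real.exp C1 * Real.exp (K0 * C') * Real.exp (-ph y) := by
      have b1 : 1 ≤ Real.exp (-(K0 * (bb y - g y))) * Real.exp (K0 * C') := by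
        rw [← Real.exp_add]
        exact Real.one_le_exp (by nlinarith [(hbb y hy).1, Nat.cast_nonneg (α := ℝ) K0])
      calc _ = Real.exp (lw D (fun i => Q i) y) * om D R.γ ψ c y * 1 * 1 := by ring
        _ ≤ Real.exp (lw D (fun i => Q i) y) * om D R.γ ψ c y * Real.exp (-lw D (e1 • f) y) *
            (Real.exp (-(K0 * (bb y - g y))) * Real.exp (K0 * C')) := by
            have := f1 y
            gcongr
        _ = Real.exp (w y) * Real.exp (K0 * C') := by rw [ew]; ring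
        _ ≤ Real.exp C1 * Real.exp (-ph y) * Real.exp (K0 * C') := by
            have := lo y hy
            gcongr
        _ = _ := by ring
    have a2 : sq D Q Γ y * om D R.γ ψ c y ≤ |CV| * J y := by
      by_cases k : g y + s - bb y ≤ 2
      · have := J0 y
        simp only [sq, hΓ, (hct _).2.2.1 k]
        simp only [ofReal_zero, zero_mul, map_zero]
        positivity
      · refine le_trans ?_ (sJ y hy (by linarith))
        have b1 : sq D Q Γ y ≤ sq D Q U y := by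
          simp only [sq, hΓ, map_mul, normSq_ofReal]
          refine mul_le_mul_of_nonneg_right (mul_le_of_le_one_left (normSq_nonneg _) ?_)
            (Real.exp_pos _).le
          exact mul_le_one₀ (hct _).2.1 (hct _).1 (hct _).2.1
        exact (mul_le_mul_of_nonneg_right b1 o0).trans
          (le_mul_of_one_le_right (mul_nonneg (sq_nn _ _ _) o0) (f1 y))
    have a3 := mul_le_mul_of_nonneg_left a1 (normSq_nonneg (Γ y - F y))
    have a4 := mul_le_mul_of_nonneg_right (nsq_le (Γ y) (F y))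
      (mul_nonneg (Real.exp_pos (lw D (fun i => Q i) y)).le o0)
    simp only [sq] at a2 ⊢
    nlinarith
  have MF : Mer D Q F := by
    rw [hQ]
    refine x4 p _ (fun i => Q i + Ee i) F (fun i hi => ?_) (hPOG n M ι D X _ F hF
      (ne_top_of_le_ne_top (I_mul (Real.exp_pos (c * Cψ)).le I2) (hmono _ _ fun y hy => ?_)))
    · have : Ee i = 0 := by
        rw [hE]
        exact Nat.ceil_eq_zero.2 (by linarith [R.eff i hi, show R.γ i = R.k i / R.N from rfl])
      rw [this, hQ]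
      simp
    · have e : (fun i => ((Q i + Ee i : ℤ) : ℝ) - X.o i) =
          (fun i => (Q i : ℝ)) + ((fun i => (Ee i : ℝ)) - X.o) := by
        funext i
        simp only [Pi.add_apply, Pi.sub_apply]
        push_cast
        ring
      rw [e, ladd, sq, om, mul_assoc, mul_left_comm, ← Real.exp_add, ← Real.exp_add]
      refine mul_le_mul_of_nonneg_left (Real.exp_le_exp.2 ?_) (normSq_nonneg _)
      nlinarith [lE y, bψ y hy]
  refine ⟨F, MF, I2, fun vF => ?_⟩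
  -- the value at the point
  have v := v6 _ Q U F 0 MU (v5 _ _ _ _ (subset_univ _) ((v4 _ _).1 MF))
  obtain ⟨c0, c00, hc0⟩ := v11 _ Q _ v.2.1 x hx fun k => nU (((v.2.2 x hx).2 k).2 vF)
  have z2 := GLU.mem_B2 hd
  obtain ⟨r, r1, r2⟩ := exists_between (mem_ball_zero_iff.1 z2)
  obtain ⟨Cl, hCl⟩ := hloc r r2 (∑ i, (Ee i : ℝ))
  have i1 := hCl (fun i => Ee i) (fun y => normSq (Γ y - F y) * Real.exp (-ph y) *
    Real.exp (-lw D ((fun i => (Ee i : ℝ)) - X.o) y)) d fun i => by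
      rw [Nat.abs_cast]
      exact Finset.single_le_sum (f := fun i => (Ee i : ℝ)) (fun _ _ => Nat.cast_nonneg _)
        (Finset.mem_univ i)
  simp only [mul_assoc, ← Real.exp_add, neg_add_cancel_right] at i1
  have h1 : ∀ᶠ z in 𝓝 (D.e d x), (D.e d).symm z ∈ off D → c0 ≤ sq D Q (U - F) ((D.e d).symm z) := by
    have := (D.e d).continuousAt_symm (GLU.mem_tgt d z2)
    rw [ContinuousAt, (D.e d).left_inv hd] at this
    exact this.eventually hc0
  obtain ⟨O, O1, O2, O3⟩ := _root_.eventually_nhds_iff.1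
    ((hnear.and h1).and (isOpen_ball.eventually_mem (mem_ball_zero_iff.2 r1)))
  have i2 := hNINT n ι (D.c d) Ee K0 (D.e d x) O (fun k => hxo ((GLU.mem_off hd).2 k))
    (O2.mem_nhds O3) (by rw [hK0]; push_cast; rfl)
  obtain ⟨C2, hC2⟩ : ∃ C2, C2 = |C'| ^ K0 * Real.exp C1 * Real.exp (c * Cψ) / c0 := ⟨_, rfl⟩
  have C20 : 0 ≤ C2 := by rw [hC2]; positivity
  refine absurd i2 (ne_top_of_le_ne_top (ENNReal.mul_ne_top (ENNReal.ofReal_ne_top (r := C2))
    (ne_top_of_le_ne_top (ENNReal.mul_ne_top ENNReal.ofReal_ne_top I1)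
      ((lintegral_mono_set fun z hz => ball_subset_closedBall (O1 z hz).2).trans i1))) ?_)
  rw [← lintegral_const_mul' _ _ ENNReal.ofReal_ne_top]
  refine lintegral_mono_ae ?_
  filter_upwards [ae_restrict_mem O2.measurableSet, ae_restrict_of_ae (MON.off_ae (D.c d))]
    with z hz ho
  obtain ⟨⟨k1, k2⟩, k3⟩ := O1 z hz
  have zb : z ∈ B2 n := ball_subset_ball r2.le k3
  have yo := (GLU.mem_off (GLU.mem_src d zb)).2 (by rwa [GLU.rinv d zb])
  rw [← ENNReal.ofReal_mul C20, ← mul_assoc]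
  refine ENNReal.ofReal_le_ofReal (mul_le_mul_of_nonneg_right ?_ (MON.xr_pos _ ho).le)
  have k4 := pole (K := K0) (norm_nonneg _) (k1 ho).2
  have k5 := (k1 ho).1
  have k6 := k2 yo
  simp only [Ad.rd] at k4 k5 ⊢
  generalize (D.e d).symm z = y at k4 k5 k6 yo
  have k7 : Γ y - F y = (U - F) y := by
    simp only [hΓ, (hct _).2.2.2 k5, Pi.sub_apply]
    simp
  have k8 : 1 ≤ Real.exp (c * Cψ) * (om D R.γ ψ c y *
      Real.exp (-lw D ((fun i => (Ee i : ℝ)) - X.o) y)) := by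
    rw [om, ← Real.exp_add, ← Real.exp_add]
    exact Real.one_le_exp (by nlinarith [lE y, bψ y yo])
  have o0 := (om_pos (D := D) R.γ ψ c y).le
  rw [k7, Real.exp_add, hC2, div_mul_eq_mul_div, le_div_iff₀ c00]
  calc _ ≤ |C'| ^ K0 * Real.exp (-(K0 * (bb y - g y))) * sq D Q (U - F) y * 1 * 1 := by
        rw [mul_one, mul_one]
        gcongr
    _ ≤ |C'| ^ K0 * Real.exp (-(K0 * (bb y - g y))) * sq D Q (U - F) y *
        Real.exp (-lw D (e1 • f) y) * (Real.exp (c * Cψ) * (om D R.γ ψ c y *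
          Real.exp (-lw D ((fun i => (Ee i : ℝ)) - X.o) y))) := by
        have := f1 y
        have := sq_nn (D := D) Q (U - F) y
        gcongr
    _ = |C'| ^ K0 * Real.exp (c * Cψ) * normSq ((U - F) y) *
        Real.exp (-lw D ((fun i => (Ee i : ℝ)) - X.o) y) * Real.exp (w y) := by
        rw [ew, sq]; ring
    _ ≤ |C'| ^ K0 * Real.exp (c * Cψ) * normSq ((U - F) y) *
        Real.exp (-lw D ((fun i => (Ee i : ℝ)) - X.o) y) * (Real.exp C1 * Real.exp (-ph y)) := by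
        have := lo y yo
        have := normSq_nonneg ((U - F) y)
        gcongr
    _ = _ := by ring

end Pool.Agent.Lib.NA
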