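import Pool.Agent.Lib.NA.Blue
import Pool.Agent.Lib.ZL.B_WGT

/-! Project NA, row WGL: the cut-off of a locally holomorphic function. -/

open scoped Classical Topology ContDiff
open Set Complex Filter

noncomputable section

namespace Pool.Agent.Lib.NA

open Pool.Agent.Lib.SV (E)
open Pool.Agent.Lib.HS32 Pool.Agent.Lib.EX Pool.Agent.Lib.EXS Pool.Agent.Lib.ZL
open Pool.Agent.Lib.EXS.K32 (lv lv_add hol_cd)
open Pool.Agent.Lib.ZL.WGT13

namespace WGL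

variable {n : ℕ} {z : E n} {a b f : E n → ℝ} {U : E n → ℂ}

theorem zero36 (ha : ContDiffAt ℝ ∞ a z) (hb : ContDiffAt ℝ ∞ b z) (h : ¬ 1 ≤ a z - b z) :
    (fun y => (ct (a y - b y) : ℂ) * U y) =ᶠ[𝓝 z] fun _ => 0 := by
  filter_upwards [(ha.sub hb).continuousAt.eventually (gt_mem_nhds (not_le.1 h))] with y hy
  rw [ct0 (hy.le.trans one_le_two), ofReal_zero, zero_mul]

theorem dom36 (hL : St_LEV) {L : ℝ} (L0 : 0 < L) (hB : ∀ y, 2 ≤ y ∧ y ≤ 3 →
      2 * deriv ct y ^ 2 ≤ L * (Real.exp y / (1 + Real.exp y) ^ 2))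
    (ha : ContDiffAt ℝ ∞ a z) (hb : ContDiffAt ℝ ∞ b z) (hf : ContDiffAt ℝ ∞ f z)
    (hU : 1 ≤ a z - b z → HolN U z) {v : E n} (pa : 0 ≤ lv a z v) (pb : 0 ≤ lv b z v)
    (pf : 0 ≤ lv f z v) :
    normSq (db (fun y => (ct (a y - b y) : ℂ) * U y) z v) ≤
      (if 2 ≤ a z - b z ∧ a z - b z ≤ 3 then L * normSq (U z) else 0) *
        lv (fun y => f y + Real.log (Real.exp (a y) + Real.exp (b y))) z v := by
  by_cases h : 1 ≤ a z - b z
  swap
  · rw [if_neg fun c => h (one_le_two.trans c.1), zero_mul]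
    simp [db, dzb_congr (zero36 ha hb h)]
  obtain ⟨-, a1, a0⟩ := (hL n z v).2.2 _ _ (ha.sub hb) (hol_cd (hU h))
  obtain ⟨a2, a3⟩ := (hL n z v).2.1 _ _ ha hb pa pb
  rw [a1, a0 (hU h), mul_zero, add_zero, lv_add hf a2, normSq_mul, normSq_mul, normSq_ofReal]
  have P0 := normSq_nonneg (db (fun y => ((a y - b y : ℝ) : ℂ)) z v)
  have N0 := normSq_nonneg (U z)
  split_ifs with c
  · rw [mul_right_comm L]
    refine mul_le_mul_of_nonneg_right ?_ N0
    nlinarith [mul_le_mul_of_nonneg_right (hB _ c) P0, mul_le_mul_of_nonneg_left a3 L0.le,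
      mul_nonneg L0.le pf, mul_nonneg (sq_nonneg (deriv ct (a z - b z))) P0]
  · simp [dct c]

end WGL

open WGL

theorem nWGL (hL : ZL.St_LEV) : St_WGL := by
  obtain ⟨L, L0, hB⟩ := exL
  refine ⟨L, L0, fun n M _ ι _ _ D a b f U ha hb hf hU => ⟨fun d z hz ho => ?_,
    fun d z hz ho v => dom36 hL L0 hB (ha.1 d z hz ho) (hb.1 d z hz ho) (hf.1 d z hz ho)
      (hU d z hz ho) (ha.2 d z hz ho v) (hb.2 d z hz ho v) (hf.2 d z hz ho v)⟩⟩
  by_cases h : 1 ≤ D.rd a d z - D.rd b d z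
  · exact ((hL n z 0).2.2 _ _ ((ha.1 d z hz ho).sub (hb.1 d z hz ho)) (hol_cd (hU d z hz ho h))).1
  · exact contDiffAt_const.congr_of_eventuallyEq
      (zero36 (U := D.rd U d) (ha.1 d z hz ho) (hb.1 d z hz ho) h)

end Pool.Agent.Lib.NA
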