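import Pool.Agent.Lib.NA.Blue
import Pool.Agent.Lib.EX.B_MON

/-! Project NA, block STB: the stable base locus. -/

open scoped Classical Topology ContDiff ENNReal
open Set MeasureTheory Complex Metric Filter

set_option linter.unusedSectionVars false

noncomputable section

namespace Pool.Agent.Lib.NA

open Pool.Agent.Lib.SV (E)
open Pool.Agent.Lib.HS32 Pool.Agent.Lib.EX Pool.Agent.Lib.EXS Pool.Agent.Lib.ZL

namespace STB

variable {n : ℕ} {M : Mf n} {ι : Type} [Fintype ι] [DecidableEq ι] {D : Ad M ι}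

theorem hol_xm (c : ι → Option (Fin n)) {Q : ι → ℤ} (hQ : ∀ i, 0 ≤ Q i) (z : E n) :
    HolN (xm c Q) z := Eventually.of_forall fun _ => MON.diff_xm fun i => .inr (hQ i)

theorem one_eq (d : D.A) (Q : ι → ℤ) (z : E n) : ∀ᶠ y in 𝓝 z, Off (D.c d) y →
    D.rd (1 : M.X → ℂ) d y = xm (D.c d) (-Q) y * xm (D.c d) Q y :=
  Eventually.of_forall fun y hy => by
    rw [MON.xm_neg, inv_mul_cancel₀ (MON.xm_ne Q hy)]
    rfl

/-- Finitely many sections cut out the common zeros of a family of sections. -/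
theorem fin (hUPB : ZL.St_UPB) (hVAL : St_VAL) (hDCC1 : St_DCC1) [M.Cpt] {τ : Type}
    (Q : τ → ι → ℤ) (F : τ → M.X → ℂ) (h : ∀ a, Mer D (Q a) (F a)) :
    ∃ S : Finset τ, ∀ y, (∀ a ∈ S, Van D (Q a) (F a) y) → ∀ a, Van D (Q a) (F a) y := by
  obtain ⟨-, -, v3, v4, -⟩ := hVAL n M ι D
  have key : ∀ x : M.X, ∃ S : Finset τ, ∀ᶠ y in 𝓝 x,
      (∀ a ∈ S, Van D (Q a) (F a) y) → ∀ a, Van D (Q a) (F a) y := fun x => by
    obtain ⟨d, hx⟩ := GLU.ex_ch D x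
    obtain ⟨S, hS⟩ := hDCC1 n τ (fun a => val (D.c d) (Q a) (D.rd (F a) d)) (B2 n) (D.e d x)
      isOpen_ball (GLU.mem_B2 hx) fun a =>
        ((hUPB n M ι D (Q a)).2.2.2.2.2.1 _ _ fun z hz => h a d z hz).1
    refine ⟨S, ?_⟩
    filter_upwards [(D.e d).open_source.mem_nhds hx, ((D.e d).continuousAt hx).eventually hS]
      with y hy h1 h2 a
    exact v3 univ _ _ ((v4 _ _).1 (h a)) y (mem_univ y) d hy (h1 (fun b hb => h2 b hb d hy) a)
  choose S hS using key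
  haveI := Mf.Cpt.cpt (M := M)
  obtain ⟨T, hT⟩ := CompactSpace.elim_nhds_subcover _ hS
  refine ⟨T.biUnion S, fun y hy => ?_⟩
  obtain ⟨x, hx, hxy⟩ := mem_iUnion₂.1 (hT.ge (mem_univ y))
  exact hxy fun a ha => hy a (Finset.mem_biUnion.2 ⟨x, hx, ha⟩)

end STB

open STB in
theorem nSTB (hUPB : ZL.St_UPB) (hVAL : St_VAL) (hDCC1 : St_DCC1) : St_STB := by
  intro n M _ ι _ _ D X R
  obtain ⟨S, hS⟩ := fin hUPB hVAL hDCC1
    (τ := {p : ℕ × (M.X → ℂ) // 0 < p.1 ∧ Mer D (R.Q p.1 0) p.2})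
    (fun a => R.Q a.1.1 0) (fun a => a.1.2) fun a => a.2.2
  obtain ⟨v1, -, -, v4, -, -, -, v8, -⟩ := hVAL n M ι D
  set j := ∏ a ∈ S, a.1.1
  have hj : 0 < j := Finset.prod_pos fun a _ => a.2.1
  have hQ : ∀ i, 0 ≤ R.Q j 0 i := fun i => by
    rw [Rx.Q]
    positivity
  have e : ∀ a : S, (j / a.1.1.1) • R.Q a.1.1.1 0 = R.Q j 0 := fun a => funext fun i => by
    have h := Nat.div_mul_cancel (Finset.dvd_prod_of_mem (fun a => a.1.1) a.2)
    simp only [Rx.Q, Pi.smul_apply, Nat.cast_zero, zero_mul, add_zero, nsmul_eq_mul, ← mul_assoc,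
      ← Nat.cast_mul]
    exact congrArg (fun k : ℕ => (k : ℤ) * R.k i) h
  let s : Option S → M.X → ℂ := fun o => o.elim 1 fun a => a.1.1.2 ^ (j / a.1.1.1)
  have w := fun a : S => v8 univ _ _ (j / a.1.1.1) ((v4 _ _).1 a.1.2.2)
  refine ⟨j, hj, _, s ∘ (Fintype.equivFin (Option S)).symm, fun i => ?_,
    ⟨Fintype.equivFin _ none, by simp [s]⟩, fun y hy => ?_⟩
  · rw [Function.comp_apply]
    rcases (Fintype.equivFin (Option S)).symm i with _ | a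
    · exact fun d z _ => ⟨_, hol_xm _ hQ z, one_eq d _ z⟩
    · exact e a ▸ (v4 _ _).2 (w a).1
  · have hy' : ∀ o, Van D (R.Q j 0) (s o) y := fun o => by
      simpa using hy (Fintype.equivFin _ o)
    refine ⟨?_, fun m hm F hF => hS y (fun a ha => ?_) ⟨(m, F), hm, hF⟩⟩
    · obtain ⟨d, hd⟩ := GLU.ex_ch D y
      have h0 := (v1 _ _ _ _ _ (hol_xm _ hQ (D.e d y)) (one_eq d _ _)).self_of_nhds.symm.trans
        (hy' none d hd)
      obtain ⟨i, -, hi⟩ := Finset.prod_eq_zero_iff.1 h0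
      refine ⟨i, Nat.pos_of_ne_zero fun hk => ?_, d, hd, eq_zero_of_zpow_eq_zero hi⟩
      simp [Rx.Q, hk] at hi
    · exact ((w ⟨a, ha⟩).2 y (mem_univ y)).1 ((e ⟨a, ha⟩).symm ▸ hy' (some ⟨a, ha⟩))

end Pool.Agent.Lib.NA
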