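import Pool.Agent.Lib.NA.Blue
import Pool.Agent.Lib.LJ84.Final

/-! Project NA: rows LOJ1 and DCC1. -/

open scoped Topology
open Set Filter

noncomputable section

namespace Pool.Agent.Lib.NA

open Pool.Agent.Lib.SV (E)

theorem nLOJ1 : St_LOJ1 := by
  intro n r g f x hg hf h0
  obtain ⟨O, hO, ho, hx⟩ := eventually_nhds_iff.1 ((eventually_all.2 hg).and (hf.and h0))
  obtain ⟨N, C, -, hC, h⟩ := LJ84.loj (E n) (Fin r → ℂ) ℂ (fun y i => g i y) f O x ho hx
    (differentiableOn_pi.2 fun i y hy => ((hO y hy).1 i).differentiableWithinAt)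
    (fun y hy => (hO y hy).2.1.differentiableWithinAt)
    fun y hy h1 => (hO y hy).2.2 fun i => congrFun h1 i
  refine ⟨N, C, h.mono fun y hy => hy.trans (mul_le_mul_of_nonneg_left ?_ hC)⟩
  exact (pi_norm_le_iff_of_nonneg (Finset.sum_nonneg fun _ _ => norm_nonneg _)).2 fun i =>
    Finset.single_le_sum (f := fun i => ‖g i y‖) (fun _ _ => norm_nonneg _) (Finset.mem_univ i)

theorem nDCC1 : St_DCC1 := fun n τ g U x hU hx hg => LJ84.dcc (E n) τ g U x hU hx hg

end Pool.Agent.Lib.NA
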