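import Pool.Agent.Lib.NA.Blue

/-! Project NA, row `NINT`: a divergent integral. -/

open scoped Classical Topology ENNReal
open Set MeasureTheory Complex Metric Filter

noncomputable section

namespace Pool.Agent.Lib.NA

open Pool.Agent.Lib.SV (E)
open Pool.Agent.Lib.HS32 Pool.Agent.Lib.EX

namespace NINT

theorem coord {n : ℕ} {y z : E n} {s : ℝ} (hs : 0 < s)
    (hz : z ∈ ball (y + fun _ => ((2 * s : ℝ) : ℂ)) s) (j : Fin n) :
    s ≤ ‖z j - y j‖ ∧ ‖z j - y j‖ ≤ 3 * s := by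
  have h1 : ‖z j - y j - ((2 * s : ℝ) : ℂ)‖ ≤ s := by
    have h := (norm_le_pi_norm (z - (y + fun _ => ((2 * s : ℝ) : ℂ))) j).trans
      (mem_ball_iff_norm.1 hz).le
    simpa only [Pi.sub_apply, Pi.add_apply, sub_add_eq_sub_sub] using h
  have h2 : ‖((2 * s : ℝ) : ℂ)‖ = 2 * s := by
    rw [Complex.norm_real, Real.norm_of_nonneg (by positivity)]
  have h3 := norm_sub_norm_le (z j - y j) ((2 * s : ℝ) : ℂ)
  have h4 := norm_sub_norm_le ((2 * s : ℝ) : ℂ) (z j - y j)
  rw [norm_sub_rev _ (z j - y j)] at h4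
  constructor <;> linarith

theorem vol (n : ℕ) (x : E n) {s : ℝ} (hs : 0 < s) :
    volume (ball x s) = ENNReal.ofReal (s ^ (2 * n)) * volume (ball (0 : E n) 1) := by
  rw [Measure.addHaar_ball_of_pos _ _ hs, Module.finrank_pi_fintype ℝ]
  simp [mul_comm]

end NINT

open NINT in
theorem nNINT : St_NINT := by
  intro n ι _ _ c a K y O hy hO hK
  obtain ⟨i₀, hi₀⟩ := not_forall.1 hy
  obtain ⟨j₀, -⟩ : ∃ j, c i₀ = some j := by
    rcases h : c i₀ with _ | j
    · exact absurd (by simp [xi, h]) hi₀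
    · exact ⟨j, rfl⟩
  have hn : 2 * n ≠ 0 := by have := j₀.pos; omega
  have hA : (0 : ℝ) ≤ ∑ i, (a i : ℝ) := Finset.sum_nonneg fun _ _ => Nat.cast_nonneg _
  have hK0 : -(2 * K) ≤ 0 := by have : (0 : ℝ) ≤ n := Nat.cast_nonneg n; linarith
  by_contra hfin
  set B : ℝ → Set (E n) := fun s => ball (y + fun _ => ((2 * s : ℝ) : ℂ)) s with hB
  set v := volume (ball (0 : E n) 1) with hv
  have hv0 : v ≠ 0 := (measure_ball_pos _ _ one_pos).ne'
  have hv1 : v ≠ ⊤ := measure_ball_lt_top.ne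
  have h0 : Tendsto ((volume.restrict O) ∘ B) (𝓝[>] 0) (𝓝 0) := by
    have h1 : Tendsto (fun s : ℝ => ENNReal.ofReal (s ^ (2 * n)) * v) (𝓝[>] 0) (𝓝 0) := by
      have h2 : Tendsto (fun s : ℝ => s ^ (2 * n)) (𝓝[>] 0) (𝓝 0) := by
        have := (continuous_pow (2 * n)).tendsto (0 : ℝ)
        rw [zero_pow hn] at this
        exact this.mono_left nhdsWithin_le_nhds
      have h3 := ENNReal.Tendsto.mul_const (b := v) (ENNReal.tendsto_ofReal h2) (Or.inr hv1)
      simpa using h3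
    refine tendsto_of_tendsto_of_tendsto_of_le_of_le' tendsto_const_nhds h1
      (Eventually.of_forall fun _ => zero_le) ?_
    filter_upwards [self_mem_nhdsWithin] with s hs
    exact (Measure.restrict_apply_le _ _).trans (vol n _ hs).le
  have h1 := tendsto_setLIntegral_zero hfin h0
  have hc : (0 : ℝ≥0∞) < ENNReal.ofReal ((3 : ℝ) ^ (-(2 * K))) * v :=
    ENNReal.mul_pos (ENNReal.ofReal_pos.2 (by positivity)).ne' hv0
  obtain ⟨r, hr, hrO⟩ := nhds_basis_closedBall.mem_iff.1 hO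
  have e1 : ∀ᶠ s : ℝ in 𝓝[>] 0, ∀ j, y j ≠ 0 → s < ‖y j‖ / 4 :=
    eventually_all.2 fun j => by
      by_cases h : y j = 0
      · simp [h]
      · have : 0 < ‖y j‖ / 4 := by positivity
        filter_upwards [nhdsWithin_le_nhds (gt_mem_nhds this)] with s hs _ using hs
  have e2 : ∀ᶠ s : ℝ in 𝓝[>] 0, s < min 1 (r / 3) :=
    nhdsWithin_le_nhds (gt_mem_nhds (lt_min one_pos (by positivity)))
  obtain ⟨s, ⟨⟨hs1, hs2⟩, hs3⟩, hs⟩ :=
    (((e1.and e2).and (h1.eventually (gt_mem_nhds hc))).and self_mem_nhdsWithin).exists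
  replace hs : 0 < s := hs
  obtain ⟨hs4, hs5⟩ := lt_min_iff.1 hs2
  have hnz : ∀ z ∈ B s, ‖z - y‖ ≤ 3 * s := fun z hz =>
    (pi_norm_le_iff_of_nonneg (by positivity)).2 fun j => (coord hs hz j).2
  have hsub : B s ⊆ O := fun z hz => hrO (mem_closedBall_iff_norm.2 (by linarith [hnz z hz]))
  rw [Measure.restrict_restrict measurableSet_ball, inter_eq_left.2 hsub] at hs3
  refine absurd hs3 (not_lt.2 ?_)
  have hlow : ∀ z ∈ B s, (3 * s) ^ (-(2 * K)) * s ^ (2 * ∑ i, (a i : ℝ)) ≤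
      ‖z - y‖ ^ (-(2 * K)) * xr c (fun i => a i) z := by
    intro z hz
    have h2 : 0 < ‖z - y‖ :=
      (hs.trans_le (coord hs hz j₀).1).trans_le (norm_le_pi_norm (z - y) j₀)
    refine mul_le_mul (Real.rpow_le_rpow_of_nonpos h2 (hnz z hz) hK0) ?_ (by positivity)
      (by positivity)
    rw [Finset.mul_sum, Real.rpow_sum_of_pos hs]
    refine Finset.prod_le_prod (fun _ _ => by positivity) fun i _ => ?_
    rw [Real.rpow_mul hs.le]
    refine Real.rpow_le_rpow (by positivity) ?_ (Nat.cast_nonneg _)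
    rw [Complex.normSq_eq_norm_sq, Real.rpow_two]
    refine pow_le_pow_left₀ hs.le ?_ 2
    rcases h : c i with _ | j
    · simpa [xi, h] using hs4.le
    · have h3 := coord hs hz j
      simp only [xi, h, Option.elim_some]
      by_cases h4 : y j = 0
      · simpa [h4] using h3.1
      · have h5 := hs1 j h4
        have h6 := norm_sub_norm_le (y j) (z j)
        rw [norm_sub_rev] at h6
        linarith [h3.2]
  have hge : (3 : ℝ) ^ (-(2 * K)) ≤
      (3 * s) ^ (-(2 * K)) * s ^ (2 * ∑ i, (a i : ℝ)) * s ^ (2 * n) := by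
    rw [Real.mul_rpow (by norm_num) hs.le, mul_assoc, mul_assoc, ← Real.rpow_natCast,
      ← Real.rpow_add hs, ← Real.rpow_add hs]
    refine le_mul_of_one_le_right (by positivity)
      (Real.one_le_rpow_of_pos_of_le_one_of_nonpos hs hs4.le ?_)
    push_cast
    linarith
  calc ENNReal.ofReal ((3 : ℝ) ^ (-(2 * K))) * v
      ≤ ENNReal.ofReal ((3 * s) ^ (-(2 * K)) * s ^ (2 * ∑ i, (a i : ℝ))) * volume (B s) := by
        rw [vol n _ hs, ← mul_assoc, ← ENNReal.ofReal_mul (by positivity)]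
        exact mul_le_mul_left (ENNReal.ofReal_le_ofReal hge) _
    _ = ∫⁻ _ in B s, ENNReal.ofReal ((3 * s) ^ (-(2 * K)) * s ^ (2 * ∑ i, (a i : ℝ))) :=
        (setLIntegral_const _ _).symm
    _ ≤ _ := setLIntegral_mono' measurableSet_ball fun z hz =>
        ENNReal.ofReal_le_ofReal (hlow z hz)

end Pool.Agent.Lib.NA
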