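import Pool.Agent.Lib.NA.Blue
import Pool.Agent.Lib.ZL.B_AVG

/-! Project NA: the average of local functions, with the size of the differences. -/

open scoped Classical Topology ContDiff ENNReal
open Set MeasureTheory Complex Metric Filter

set_option linter.unusedVariables false

noncomputable section

namespace Pool.Agent.Lib.NA

open Pool.Agent.Lib.SV (E)
open Pool.Agent.Lib.HS32 Pool.Agent.Lib.EX Pool.Agent.Lib.EXS Pool.Agent.Lib.ZL
open Pool.Agent.Lib.EXS.K32
open Pool.Agent.Lib.ZL.AVG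

namespace AVGX

variable {n : ℕ} {M : Mf n} {ι : Type} [Fintype ι] [DecidableEq ι] {D : Ad M ι}

theorem term_nn (f : D.A → E n → ℂ) (d b : D.A) (x : M.X) : 0 ≤ (Kc D d ∩ Kc D b).indicator
    (fun y => normSq (f d (D.e d y) - f b (D.e b y))) x :=
  indicator_nonneg (fun _ _ => normSq_nonneg _) x

theorem dif_nn (f : D.A → E n → ℂ) (x : M.X) : 0 ≤ dif D f x :=
  Finset.sum_nonneg fun d _ => Finset.sum_nonneg fun b _ => term_nn f d b x

theorem le_dif (f : D.A → E n → ℂ) {d b : D.A} {x : M.X} (hd : x ∈ Kc D d) (hb : x ∈ Kc D b) :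
    normSq (f d (D.e d x) - f b (D.e b x)) ≤ dif D f x := by
  have h1 : normSq (f d (D.e d x) - f b (D.e b x)) = (Kc D d ∩ Kc D b).indicator
      (fun y => normSq (f d (D.e d y) - f b (D.e b y))) x :=
    (indicator_of_mem (show x ∈ Kc D d ∩ Kc D b from ⟨hd, hb⟩)
      fun y => normSq (f d (D.e d y) - f b (D.e b y))).symm
  rw [h1]
  refine le_trans (Finset.single_le_sum (f := fun b => (Kc D d ∩ Kc D b).indicator
    (fun y => normSq (f d (D.e d y) - f b (D.e b y))) x) (fun b _ => term_nn f d b x)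
    (Finset.mem_univ b)) ?_
  exact Finset.single_le_sum (f := fun d => ∑ b, (Kc D d ∩ Kc D b).indicator
    (fun y => normSq (f d (D.e d y) - f b (D.e b y))) x)
    (fun d _ => Finset.sum_nonneg fun b _ => term_nn f d b x) (Finset.mem_univ d)

theorem cont_f {P : ι → ℤ} {f : D.A → E n → ℂ} (hf : D.All fun d z => PolH (D.c d) P (f d) z)
    {d : D.A} {x : M.X} (hx : x ∈ (D.e d).source) (ho : x ∈ off D) :
    ContinuousAt (fun y => f d (D.e d y)) x :=
  ContinuousAt.comp (g := f d)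
    (polH_hol90 (hf d _ (GLU.mem_B2 hx)) (ho d hx)).self_of_nhds.continuousAt
    ((D.e d).continuousAt hx)

/-- The last item. -/
theorem conv (f : D.A → E n → ℂ) (h : ℂ) (x : M.X) : normSq (D.avg f x - h) ≤
    ∑ d, (Kc D d).indicator (fun y => normSq (f d (D.e d y) - h)) x := by
  have s : ∑ b, ((D.χ b x : ℝ) : ℂ) = 1 := by exact_mod_cast D.sum x
  have e : D.avg f x - h = ∑ d, (D.χ d x : ℂ) * (f d (D.e d x) - h) := by
    simp only [mul_sub, Finset.sum_sub_distrib, ← Finset.sum_mul, Ad.avg, s, one_mul]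
  have b1 : ‖D.avg f x - h‖ ≤ ∑ d, D.χ d x • ‖f d (D.e d x) - h‖ := by
    rw [e]
    refine (norm_sum_le _ _).trans_eq (Finset.sum_congr rfl fun d _ => ?_)
    rw [norm_mul, Complex.norm_real, Real.norm_of_nonneg (D.nn d x), smul_eq_mul]
  have b2 := (Even.convexOn_pow (𝕜 := ℝ) (n := 2) even_two).map_sum_le (t := Finset.univ)
    (w := fun d => D.χ d x) (p := fun d => ‖f d (D.e d x) - h‖) (fun d _ => D.nn d x) (D.sum x)
    fun _ _ => mem_univ _
  rw [normSq_eq_norm_sq]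
  refine ((pow_le_pow_left₀ (norm_nonneg _) b1 2).trans b2).trans
    (Finset.sum_le_sum fun d _ => ?_)
  by_cases h0 : D.χ d x = 0
  · rw [h0, zero_smul]
    exact indicator_nonneg (fun _ _ => normSq_nonneg _) x
  · rw [indicator_of_mem (show x ∈ Kc D d from D.supp d x h0), normSq_eq_norm_sq, smul_eq_mul]
    have h1 : D.χ d x ≤ 1 := D.sum x ▸ Finset.single_le_sum (f := fun a => D.χ a x)
      (fun a _ => D.nn a x) (Finset.mem_univ d)
    exact mul_le_of_le_one_left (sq_nonneg _) h1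

/-- The derivatives of the partition of unity are bounded. -/
theorem chi_bd (D : Ad M ι) : ∃ A : ℝ, 0 ≤ A ∧ ∀ a d j, ∀ z : E n, ‖z‖ ≤ 1 →
    ‖dzb j (fun y => ((D.rd (D.χ d) a y : ℝ) : ℂ)) z‖ ≤ A := by
  have h : ∀ p : D.A × D.A × Fin n, ∃ A : ℝ, ∀ z ∈ closedBall (0 : E n) 1,
      ‖dzb p.2.2 (fun y => ((D.rd (D.χ p.2.1) p.1 y : ℝ) : ℂ)) z‖ ≤ A := fun p =>
    (isCompact_closedBall (0 : E n) 1).exists_bound_of_continuousOn fun z hz =>
      (cd_dzb (EX.AVG.chi_sm D p.1 p.2.1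
        (closedBall_subset_ball one_lt_two hz)).self_of_nhds p.2.2).continuousAt.continuousWithinAt
  choose A hA using h
  refine ⟨∑ p, |A p|, Finset.sum_nonneg fun _ _ => abs_nonneg _, fun a d j z hz => ?_⟩
  exact ((hA (a, d, j) z (mem_closedBall_zero_iff.2 hz)).trans (le_abs_self _)).trans
    (Finset.single_le_sum (f := fun p => |A p|) (fun _ _ => abs_nonneg _) (Finset.mem_univ _))

/-- The antilinear derivative of the average. -/
theorem der [M.Cpt] {P : ι → ℤ} {f : D.A → E n → ℂ}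
    (hf : D.All fun d z => PolH (D.c d) P (f d) z) (hK : ∀ d, IsCompact (Kc D d)) {A : ℝ}
    (A0 : 0 ≤ A) (hA : ∀ a d j, ∀ z : E n, ‖z‖ ≤ 1 →
      ‖dzb j (fun y => ((D.rd (D.χ d) a y : ℝ) : ℂ)) z‖ ≤ A) {a : D.A} {z : E n} (hz : z ∈ B2 n)
    (ho : Off (D.c a) z) (hn : ‖z‖ ≤ 1) (j : Fin n) : ‖dzb j (D.rd (D.avg f) a) z‖ ≤
      Fintype.card D.A * (A * Real.sqrt (dif D f ((D.e a).symm z))) := by
  have m := GLU.mem_src a hz
  have r := GLU.rinv a hz
  have ha : (D.e a).symm z ∈ Kc D a := ⟨m, by rw [r]; exact hn⟩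
  have hh := polH_hol90 (hf a z hz) ho
  have e : D.rd (D.avg f) a = fun y => f a y + ∑ d, ((D.rd (D.χ d) a y : ℝ) : ℂ) *
      (D.tr d a (f d) y - f a y) := by
    funext y
    have s : ∑ b, ((D.χ b ((D.e a).symm y) : ℝ) : ℂ) = 1 := by exact_mod_cast D.sum _
    simp only [mul_sub, Finset.sum_sub_distrib, ← Finset.sum_mul, Ad.rd, Ad.tr, Ad.avg, s, one_mul]
    ring
  have key : ∀ d, DifferentiableAt ℝ (fun y => ((D.rd (D.χ d) a y : ℝ) : ℂ) *
      (D.tr d a (f d) y - f a y)) z ∧ ‖dzb j (fun y => ((D.rd (D.χ d) a y : ℝ) : ℂ) *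
      (D.tr d a (f d) y - f a y)) z‖ ≤ A * Real.sqrt (dif D f ((D.e a).symm z)) := fun d => by
    by_cases hd : (D.e a).symm z ∈ Kc D d
    · obtain ⟨h1, -, -, -, -, -, -, -, h2⟩ := (EX.bTRF n M ι D).2.2.2 d a _ hd.1 m
      have h3 := (h2 P ∅ 0 (f d)).2.1 (hf d _ h1)
      rw [r] at h3
      have h4 := polH_hol90 h3 ho
      have h5 : HolN (fun y => D.tr d a (f d) y - f a y) z :=
        (h4.and hh).mono fun y hy => hy.1.sub hy.2
      have h6 := cd_diff (EX.AVG.chi_sm D a d hz).self_of_nhds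
      have h7 := cd_diff (hol_cd h5)
      refine ⟨h6.mul h7, ?_⟩
      rw [dzb_mul h6 h7, dzb_hol90 h5, mul_zero, add_zero, norm_mul]
      refine mul_le_mul (hA a d j z hn) (Real.le_sqrt_of_sq_le ?_) (norm_nonneg _) A0
      have h8 := le_dif f hd ha
      rw [r, normSq_eq_norm_sq] at h8
      exact h8
    · have h1 := ((D.e a).continuousAt_symm (GLU.mem_tgt a hz)).eventually
        ((hK d).isClosed.isOpen_compl.mem_nhds hd)
      have h2 : (fun y => ((D.rd (D.χ d) a y : ℝ) : ℂ) * (D.tr d a (f d) y - f a y)) =ᶠ[𝓝 z]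
          fun _ => 0 := h1.mono fun y hy => by
        have : D.χ d ((D.e a).symm y) = 0 := by_contra fun k => hy (D.supp d _ k)
        simp only [Ad.rd, this, ofReal_zero, zero_mul]
      refine ⟨(differentiableAt_const _).congr_of_eventuallyEq h2, ?_⟩
      rw [dzb_congr h2, dzb_const, norm_zero]
      positivity
  rw [e, dzb_add (cd_diff (hol_cd hh)) (DifferentiableAt.fun_sum fun d _ => (key d).1),
    dzb_hol90 hh, zero_add, dzb_sum fun d _ => (key d).1]
  refine (norm_sum_le _ _).trans ((Finset.sum_le_card_nsmul _ _ _ fun d _ => (key d).2).trans_eq ?_)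
  rw [nsmul_eq_mul, Finset.card_univ]

/-- The bound for one local function. -/
theorem one_bd [M.Cpt] (hPW : St_PW) (hUPB : St_UPB) {P : ι → ℤ} {f : D.A → E n → ℂ}
    (hf : D.All fun d z => PolH (D.c d) P (f d) z) : ∃ B : ℝ, 0 ≤ B ∧ ∀ d, ∀ x ∈ Kc D d,
      x ∈ off D → normSq (f d (D.e d x)) ≤ B * Real.exp (-lw D (fun i => P i) x) := by
  obtain ⟨-, -, -, -, -, pn, -, -, pc, -⟩ := hPW n M ι D
  obtain ⟨C, -, hC⟩ := pc 1 one_lt_two
  have hv := fun d => (hUPB n M ι D P).2.2.2.2.2.1 (D.c d) (f d) (hf d)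
  choose A hA using fun d => (isCompact_closedBall (0 : E n) 1).exists_bound_of_continuousOn
    ((hv d).1.continuousOn.mono (closedBall_subset_ball one_lt_two))
  set T : ℝ := Real.exp (C * ∑ i, |(-fun i => (P i : ℝ)) i|) with hT
  have T0 : 0 < T := Real.exp_pos _
  refine ⟨(∑ d, A d ^ 2) * T, by positivity, fun d x hx hoff => ?_⟩
  have ho := hoff d hx.1
  have hz := GLU.mem_B2 hx.1
  have b2 : normSq (xm (D.c d) (-P) (D.e d x)) ≤ T * Real.exp (-lw D (fun i => P i) x) := by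
    have := (hC (-fun i => (P i : ℝ)) d _ hx.2 ho).1
    rw [xr_exp fun i _ => ho i, ← hT, GLU.rd_e _ hx.1] at this
    rw [xm_exp fun i _ => ho i, ← pn]
    simpa only [Pi.neg_def, Int.cast_neg] using this
  have e : f d (D.e d x) = val (D.c d) P (f d) (D.e d x) * xm (D.c d) (-P) (D.e d x) := by
    rw [(hv d).2 _ hz ho, MON.xm_neg]
    have := MON.xm_ne P ho
    field_simp
  have b1 : normSq (val (D.c d) P (f d) (D.e d x)) ≤ ∑ d, A d ^ 2 := by
    rw [normSq_eq_norm_sq]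
    exact (pow_le_pow_left₀ (norm_nonneg _) (hA d _ (mem_closedBall_zero_iff.2 hx.2)) 2).trans
      (Finset.single_le_sum (f := fun d => A d ^ 2) (fun _ _ => sq_nonneg _) (Finset.mem_univ d))
  rw [e, map_mul, mul_assoc]
  exact mul_le_mul b1 b2 (normSq_nonneg _) (by positivity)

theorem nsq_sub (a b : ℂ) : normSq (a - b) ≤ 2 * normSq a + 2 * normSq b := by
  simp only [normSq_apply, sub_re, sub_im]
  nlinarith [sq_nonneg (a.re + b.re), sq_nonneg (a.im + b.im)]

end AVGX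

open AVGX

theorem nAVGX (hPW : ZL.St_PW) (hMU : ZL.St_MU) (hTRF : ZL.St_TRF) (hUPB : ZL.St_UPB)
    (hVAL : St_VAL) : St_AVGX := by
  intro n M _ ι _ _ D X P f hf
  have hK : ∀ d, IsCompact (Kc D d) := (hVAL n M ι D).2.2.2.2.2.2.2.2.2.2.2
  have hA := EX.bAVG EX.bTRF n M ι D
  have h2 : D.All fun d z => Pol (D.c d) P (D.rd (D.avg f) d) z := by
    refine (hA (fun a => Pol (D.c a) P) f fun a => (bMOD n ι (D.c a) P 0 ∅ 0).1).2
      fun a b x hx hx' => ?_
    obtain ⟨h1, -, -, -, -, -, -, -, h2⟩ := (EX.bTRF n M ι D).2.2.2 a b x hx hx'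
    exact (h2 P ∅ 0 (f a)).1 ((bINC n ι (D.c a) P 0 ∅ 0 _ _).1 (hf a _ h1))
  have h1 : SmO D (D.avg f) := fun d z hz ho => pol_cd90 (h2 d z hz) ho
  refine ⟨h1, h2, ?_, dif_nn f, ?_⟩
  · refine Finset.aemeasurable_fun_sum _ fun d _ => Finset.aemeasurable_fun_sum _ fun b _ => ?_
    have ms : MeasurableSet (Kc D d ∩ Kc D b ∩ off D) :=
      ((hK d).isClosed.inter (hK b).isClosed).measurableSet.inter (hPW n M ι D).1.measurableSet
    have c1 : ContinuousOn (fun y => normSq (f d (D.e d y) - f b (D.e b y)))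
        (Kc D d ∩ Kc D b ∩ off D) := fun x hx =>
      (continuous_normSq.continuousAt.comp
        ((cont_f hf hx.1.1.1 hx.2).sub (cont_f hf hx.1.2.1 hx.2))).continuousWithinAt
    refine ((aemeasurable_indicator_iff ms).2 (c1.aemeasurable ms)).congr ?_
    filter_upwards [(hMU n M ι D X).1] with x hx
    by_cases h : x ∈ Kc D d ∩ Kc D b
    · rw [indicator_of_mem h, indicator_of_mem (show x ∈ _ ∩ off D from ⟨h, hx⟩)]
    · rw [indicator_of_notMem h, indicator_of_notMem fun k => h k.1]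
  obtain ⟨A, A0, hA'⟩ := chi_bd D
  obtain ⟨B, B0, hB⟩ := one_bd hPW hUPB hf
  obtain ⟨k, k0, hk⟩ := X.αs
  set N : ℝ := ((Fintype.card D.A : ℕ) : ℝ) with hN
  have N0 : 0 ≤ N := Nat.cast_nonneg _
  have p1 : 0 ≤ (n * (N * A)) ^ 2 / k := by positivity
  have p2 : 0 ≤ N * (N * (4 * B)) := by positivity
  refine ⟨(n * (N * A)) ^ 2 / k + N * (N * (4 * B)), by positivity,
    (hTRF n M ι D).2.2 _ _ _ h1 X.αp.1 fun d z hz ho hn v => ?_, fun x hx => ?_, conv f⟩
  · have b1 := db_le90 (der hf hK A0 hA' hz ho hn) v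
    have b3 := hk d z hz ho hn v
    have d0 := dif_nn f ((D.e d).symm z)
    have l0 : 0 ≤ lv (D.rd X.α d) z v := le_trans (by positivity) b3
    rw [normSq_eq_norm_sq]
    calc _ ≤ (n * (N * (A * Real.sqrt (dif D f ((D.e d).symm z)))) * ‖v‖) ^ 2 :=
          pow_le_pow_left₀ (norm_nonneg _) b1 2
      _ = (n * (N * A)) ^ 2 / k * Real.sqrt (dif D f ((D.e d).symm z)) ^ 2 * (k * ‖v‖ ^ 2) := by
          field_simp
      _ ≤ ((n * (N * A)) ^ 2 / k + N * (N * (4 * B))) * dif D f ((D.e d).symm z) *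
          lv (D.rd X.α d) z v := by
          rw [Real.sq_sqrt d0]
          gcongr
          exact le_add_of_nonneg_right p2
      _ = _ := rfl
  · have x0 := Real.exp_pos (-lw D (fun i => P i) x)
    have t : ∀ d b, (Kc D d ∩ Kc D b).indicator
        (fun y => normSq (f d (D.e d y) - f b (D.e b y))) x ≤
        4 * B * Real.exp (-lw D (fun i => P i) x) := fun d b => by
      by_cases h : x ∈ Kc D d ∩ Kc D b
      · rw [indicator_of_mem h]
        have u1 := hB d x h.1 hx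
        have u2 := hB b x h.2 hx
        have u3 := nsq_sub (f d (D.e d x)) (f b (D.e b x))
        linarith
      · rw [indicator_of_notMem h]
        positivity
    have t2 : dif D f x ≤ N * (N * (4 * B * Real.exp (-lw D (fun i => P i) x))) := by
      refine (Finset.sum_le_card_nsmul _ _ _ fun d _ =>
        Finset.sum_le_card_nsmul _ _ _ fun b _ => t d b).trans_eq ?_
      rw [nsmul_eq_mul, nsmul_eq_mul, Finset.card_univ]
    nlinarith [mul_nonneg p1 x0.le]

end Pool.Agent.Lib.NA
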