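import Pool.Agent.Lib.NA.Blue
import Pool.Agent.Lib.ZL.B_CLO

/-! Project NA, row CLOX: a limit of sections with small residues inside an affine space. -/

open scoped Classical Topology ContDiff ENNReal
open Set MeasureTheory Complex Metric Filter

noncomputable section

namespace Pool.Agent.Lib.NA

open Pool.Agent.Lib.SV (E)
open Pool.Agent.Lib.HS32 Pool.Agent.Lib.EX Pool.Agent.Lib.EXS Pool.Agent.Lib.ZL

open Pool.Agent.Lib.ZL.CLO in
theorem nCLOX (hF : ZL.St_FIN) : St_CLOX := by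
  intro n M _ ι _ _ D Q Z F S h1 hS h2
  obtain ⟨V, hV, mV⟩ := hF n M ι D Q
  have hm := fun d => (bMOD n ι (D.c d) Q 0 ∅ 0).2.1
  have ob : ∀ z ∈ B2 n, ∀ᶠ y in 𝓝 z, y ∈ B2 n := fun z hz => isOpen_ball.mem_nhds hz
  have fd : FiniteDimensional ℂ (V ⊓ S : Submodule ℂ (M.X → ℂ)) :=
    Submodule.finiteDimensional_inf_left V S
  let T := {p : D.A × E n // p.2 ∈ B2 n ∧
    ∃ i ∈ Z, xi (D.c p.1) i p.2 = 0 ∧ ∀ l ≠ i, xi (D.c p.1) l p.2 ≠ 0}
  let L : (V ⊓ S : Submodule ℂ (M.X → ℂ)) →ₗ[ℂ] (T → ℂ) :=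
    { toFun := fun H p => val (D.c p.1.1) Q (D.rd H.1 p.1.1) p.1.2
      map_add' := fun H H' => funext fun p =>
        val_add (((mV _).1 H.2.1).1 _ _ p.2.1) (((mV _).1 H'.2.1).1 _ _ p.2.1)
      map_smul' := fun t H => funext fun p => val_smul t (((mV _).1 H.2.1).1 _ _ p.2.1) }
  let H : ℕ → M.X → ℂ := fun ν => (off D).indicator (F ν - F 0)
  have e1 : ∀ ν d, ∀ z ∈ B2 n, ∀ᶠ y in 𝓝 z, Off (D.c d) y →
      D.rd (F ν) d y = (D.rd (H ν) d + D.rd (F 0) d) y := by
    intro ν d z hz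
    filter_upwards [ob z hz] with y hy ho
    simp only [H, Ad.rd, Pi.add_apply, Pi.sub_apply, indicator_of_mem (mem_off D d hy ho)]
    ring
  have hH : ∀ ν, H ν ∈ V := fun ν => (mV _).2 ⟨fun d z hz => by
    refine (hm d).cong _ _ z ((hm d).add _ _ z (h1 ν d z hz) ((hm d).mul (fun _ => -1) _ z
      (Eventually.of_forall fun _ => differentiableAt_const _) (h1 0 d z hz))) ?_
    filter_upwards [e1 ν d z hz] with y hy ho
    have := hy ho
    simp only [Pi.add_apply, Pi.mul_apply] at this ⊢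
    rw [this]
    ring, fun x hx => indicator_of_notMem hx _⟩
  have hb : (fun p : T => -val (D.c p.1.1) Q (D.rd (F 0) p.1.1) p.1.2) ∈ LinearMap.range L := by
    refine (LinearMap.range L).closed_of_finiteDimensional.mem_of_tendsto
      (f := fun ν => L ⟨H ν, hH ν, hS ν⟩) (b := atTop) (tendsto_pi_nhds.2 fun p => ?_)
      (Eventually.of_forall fun ν => LinearMap.mem_range_self _ _)
    obtain ⟨⟨d, z⟩, hz, i, hi, a1, a2⟩ := p
    have := (h2 d z hz i hi a1 a2).sub_const (val (D.c d) Q (D.rd (F 0) d) z)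
    rw [zero_sub] at this
    refine this.congr fun ν => ?_
    have hp := ((mV _).1 (hH ν)).1 d z hz
    rw [val_cong ((hm d).add _ _ z hp (h1 0 d z hz)) (e1 ν d z hz), val_add hp (h1 0 d z hz),
      add_sub_cancel_right]
    rfl
  obtain ⟨G, hG⟩ := hb
  have hp := ((mV _).1 G.2.1).1
  refine ⟨G.1 + F 0, fun d z hz => ?_, ?_⟩
  · refine drop (g := D.rd G.1 d + D.rd (F 0) d) (D.inj d) Z
      ((hm d).add _ _ z (hp d z hz) (h1 0 d z hz)) ?_
    filter_upwards [ob z hz] with y hy i hi a1 a2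
    have := congrFun hG ⟨(d, y), hy, i, hi, a1, a2⟩
    rw [val_add (hp d y hy) (h1 0 d y hy)]
    exact add_eq_zero_iff_eq_neg.2 this
  · rw [add_sub_cancel_right, indicator_eq_self.2 fun x hx => by_contra fun c =>
      hx (((mV _).1 G.2.1).2 x c)]
    exact G.2.2

end Pool.Agent.Lib.NA
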