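import Pool.Agent.Lib.NA.Blue

/-! Project NA: row EX2. -/

open scoped Classical Topology ContDiff ENNReal
open Set MeasureTheory Complex Metric Filter

noncomputable section

namespace Pool.Agent.Lib.NA

open Pool.Agent.Lib.SV (E)
open Pool.Agent.Lib.HS32 Pool.Agent.Lib.EX Pool.Agent.Lib.EXS Pool.Agent.Lib.ZL

theorem nEX2 (hPW : ZL.St_PW) (hUPB : ZL.St_UPB) (hZR : St_ZR) (hAVG : St_AVGX) (hEST : St_ESTX)
    (hLFT : St_LFTX) (hEXB : St_EXB) : St_EX2 := by
  intro n M _ ι _ _ D X R ψ m c c' ε₀ f hψ hc hcc hm hε hf hI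
  obtain ⟨-, -, -, -, -, -, -, lsm, -, cont, -⟩ := hPW n M ι D
  obtain ⟨C₁, ρ, z1, z2⟩ := hZR n M ι D X R
  obtain ⟨ps, C₂, hC₂⟩ := hψ
  obtain ⟨a1, a2, a3, a4, C, C0, a5, a6, -⟩ := hAVG n M ι D X (R.Q m 0) f hf
  obtain ⟨B, hB⟩ := (hUPB n M ι D (R.Q m 0)).2.2.2.1 _ a2
  have hN : 0 < R.N := lt_of_lt_of_le one_pos R.N1
  have hq : ∀ i, (R.Q m 0 i : ℝ) = m * R.N * R.γ i := fun i => by
    simp only [Rx.Q, Rx.γ]
    push_cast
    field_simp
    ring
  have hP : (1 + c + (m * R.N - 1 - c)) • R.γ = fun i => (R.Q m 0 i : ℝ) := funext fun i => by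
    rw [hq, Pi.smul_apply, smul_eq_mul]
    ring
  have hl : ∀ a, ContinuousOn (lw D a) (off D) := fun a => cont ℝ _ (lsm a)
  let T : ι → ℤ := fun i => R.Q m 0 i + if 0 < R.γ i - X.o i then 0 else ⌊-(R.γ i - X.o i)⌋ + 1
  let Z : Set ι := {i | R.γ i - X.o i = 0}
  have hZ : ∀ i ∈ Z, T i = R.Q m 0 i + 1 := fun i (hi : R.γ i - X.o i = 0) => by
    simp only [T, hi]
    simp
  have est := hEST n M ι D X R.γ (fun i => T i - X.o i) Z c c' (m * R.N - 1 - c) (max C₁ C₂)
    (max B (C * C)) ε₀ ρ ψ (fun x => C * dif D f x) (D.avg f) hc hcc (by linarith) hε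
    ((mul_self_nonneg C).trans (le_max_right _ _))
    ⟨fun ε h => ⟨(z1 ε h).1, (z1 ε h).2.1, fun x hx =>
      ((z1 ε h).2.2 x hx).trans (sub_le_sub_right (le_max_left _ _) _)⟩, z2⟩ ps
    (fun x hx => (hC₂ x hx).trans (sub_le_sub_right (le_max_right _ _) _))
    (fun i _ => by
      simp only [T]
      split_ifs with h
      · push_cast
        rw [hq]
        linarith
      · have := Int.lt_floor_add_one (-(R.γ i - X.o i))
        push_cast
        rw [hq]
        linarith)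
    (fun i hi => by
      have : R.γ i - X.o i = 0 := hi
      rw [hZ i hi]
      push_cast
      rw [hq]
      linarith) a1
    (fun x hx => hP ▸ (hB x hx).trans
      (mul_le_mul_of_nonneg_right (le_max_left _ _) (Real.exp_pos _).le))
    (a3.const_mul C) (fun x => mul_nonneg C0 (a4 x))
    (fun x hx => hP ▸ (mul_le_mul_of_nonneg_left (a6 x hx) C0).trans (by
      rw [← mul_assoc]
      exact mul_le_mul_of_nonneg_right (le_max_right _ _) (Real.exp_pos _).le)) a5
    (by
      rw [hP]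
      simp only [Cx.I, mul_assoc] at hI ⊢
      rw [lintegral_congr fun x => ENNReal.ofReal_mul C0,
        lintegral_const_mul' _ _ ENNReal.ofReal_ne_top]
      exact ENNReal.mul_ne_top ENNReal.ofReal_ne_top hI)
  rw [hP] at est
  obtain ⟨F, hF, hFI⟩ := hLFT n M ι D X (R.Q m 0) T Z (D.avg f)
    (fun x => Real.exp (lw D (fun i => R.Q m 0 i) x) * om D R.γ ψ c x *
      Real.exp (lw D (fun _ => ε₀) x))
    (fun i => by
      simp only [T]
      split_ifs with h
      · simp
      · have : 0 ≤ ⌊-(R.γ i - X.o i)⌋ := Int.floor_nonneg.2 (by linarith)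
        omega)
    (fun i hi => by rw [hZ i hi]; omega) a2
    (((Real.continuous_exp.comp_continuousOn (hl _)).mul (Real.continuous_exp.comp_continuousOn
      ((continuousOn_const.mul ((cont ℝ ψ ps.1).add (hl R.γ))).neg.sub (hl R.γ)))).mul
      (Real.continuous_exp.comp_continuousOn (hl _)))
    (fun x => mul_nonneg (mul_pos (Real.exp_pos _) (Real.exp_pos _)).le (Real.exp_pos _).le) est
  refine ⟨F, (hEXB n M ι D X R).2.2.2 m 0 _ F (fun i hi => ?_) hF, ?_⟩
  · have h0 : 0 ≤ R.γ i - X.o i := R.eff i hi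
    rcases h0.eq_or_lt with h | h
    · have hi : i ∈ Z := h.symm
      simp [ind, hi, hZ i hi]
    · have hi : i ∉ Z := h.ne'
      simp only [Pi.sub_apply, ind, if_neg hi, T, if_pos h]
      omega
  · simpa only [sq, mul_assoc, Pi.sub_apply] using hFI

end Pool.Agent.Lib.NA
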