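import Pool.Agent.Lib.NA.Blue2

/-! Project NA, row `H5`: the target statement (second form) from the rows. -/

open scoped Classical Topology ContDiff ENNReal Manifold
open Set MeasureTheory Complex Metric Filter

noncomputable section

namespace Pool.Agent.Lib.NA

open Pool.Agent.Lib.SV (E)
open Pool.Agent.Lib.HS32 Pool.Agent.Lib.EX Pool.Agent.Lib.EXS Pool.Agent.Lib.ZL
open Pool.Agent.Lib.HS.BBR (mf)

/-- Row `H5`. -/
theorem nH5 (hR : ZL.St_RS1) (hA : ZL.St_AMB) (hC : ZL.St_CX) (hN : ZL.St_NFB) (hP : ZL.St_PEAK)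
    (hPBx : St_PBBx) (hBR4 : St_BR4) (hBR5 : St_BR5) (hNAx : St_NAx) : St_H5 := by
  intro n Y ι I _ _ _ _ _ _ _ G m M S ex k l η W σ g r φ hG hm hM hL hAm hPu hc hn
  refine ⟨fun ⟨j, hj, h⟩ _ _ _ _ V _ _ _ _ ⟨y, hy⟩ => ?_, fun h => ?_⟩
  · obtain ⟨a, ha⟩ := hL.cov y
    obtain ⟨u, u1, u2⟩ := h a y ⟨ha, mem_univ _⟩
    exact ⟨j, hj, u, ⟨u1.hol, fun a b x hx => u1.glue a b x ⟨hx.1, mem_univ _⟩⟩, a, y, ⟨ha, hy⟩, u2⟩
  obtain ⟨D, B, w, α, hF, w1, w2, w3, b1, b2, hv⟩ := hR n Y ι I m S ex k l η W σ g hL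
  have : (mf n Y).Cpt := ⟨‹_›, ‹_›, ‹_›⟩
  obtain ⟨A⟩ := hA n Y I S D hF hAm
  obtain ⟨X, x1, x2, -, -, x3, -⟩ := hC n _ I D A l m w hm w1 w2 w3
  obtain ⟨c, X', -, -, y1, y2, -, -, -, y3⟩ := hP n _ I D X _ x3 (hN n Y I G S _ D X hG hF hn)
  have ho : ∀ i, X'.o i = (l i / m : ℝ) := fun i => by rw [Cx.o, y1, y2, x1, x2]
  obtain ⟨P, hφ, hP'⟩ := hPBx n Y ι I S W D r φ hF hPu
  obtain ⟨-, -, a3, a4⟩ := hBR4 n Y ι I m S ex k l η W σ g D hL hF hv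
  let R : Rx X' := ⟨k, M, ex, B, P, by exact_mod_cast hM, fun i => by rw [ho]; exact hc.lt i,
    fun i hi => by rw [ho]; exact hc.ge i hi, y3, fun b z hz => (b1 b).ge (b2 b z hz),
    fun b => by rw [b1]; exact (hP' _).1, fun b => by rw [b1]; exact (hP' _).2⟩
  have hQ : ∀ j : ℕ, R.Q j 0 = fun i => (j * k i : ℤ) := fun j => funext fun i => by
    simp only [Rx.Q, R, Nat.cast_zero, zero_mul, add_zero]
  have hW : ∀ b, (R.B b).W = W (α b) := b1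
  have hS : ∀ V : Set Y, R.P.φ ⁻¹' (R.P.φ '' V) = φ ⁻¹' (φ '' V) := fun V => Set.ext fun x =>
    ⟨fun ⟨y, y1, y2⟩ => ⟨y, y1, (hφ y x).1 y2⟩, fun ⟨y, y1, y2⟩ => ⟨y, y1, (hφ y x).2 y2⟩⟩
  obtain ⟨j, hj, hg⟩ := hNAx n _ I D X' R fun j q s c₀ hj hs h1 hfin hne => by
    obtain ⟨s1, t1, t2, t3⟩ := hBR5 n Y ι I m M S ex k l η W σ g D X' hL hF hv hM ho j q s hj
      (fun b => hQ j ▸ hs b) h1
    have hpos : (0 : ℝ) < j * M := by positivity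
    obtain ⟨e, he, u, hu, a, y, hy, hne⟩ := h j q s1 (c₀ / (j * M))
      (Nk X' R.γ (lps (j * R.N) s) c₀) t1 t2
      (fun c' hc' y => (t3 c' y).2 ⟨univ, univ_mem, by
        rw [indicator_univ]
        exact hfin _ ((lt_div_iff₀ hpos).1 hc')⟩)
      (Set.ext fun y => ⟨fun hy c' hc' hi => hy _ ((div_lt_iff₀ hpos).1 hc') ((t3 c' y).1 hi),
        fun hy c' hc' hi => hy (c' / (j * M)) (div_lt_div_of_pos_right hc' hpos) ((t3 _ y).2 (by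
          rw [div_mul_cancel₀ _ hpos.ne']
          exact hi))⟩) hne
    obtain ⟨c1, c2, c3⟩ := a3 e _ u ((hS _).symm ▸ hu)
    obtain ⟨b, -, hb⟩ := Finset.exists_ne_zero_of_sum_ne_zero ((D.sum y).trans_ne one_ne_zero)
    have s := (D.supp b y hb).1
    have hy' : y ∈ W (α b) := by
      have q := b2 b (D.e b y) (D.tgt b ▸ (D.e b).map_source s)
      beta_reduce at q
      rwa [(D.e b).left_inv s] at q
    refine ⟨e, he, fun d x => u (α d) x / σ (α d) x ^ e, b, y, hy.2, fun d => ?_, fun d d' => ?_,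
      ⟨⟨y, hy.2, rfl⟩, (hW b).ge hy'⟩, ?_⟩
    · rw [hQ, hW]
      exact c1 _
    · rw [hQ, hW, hW]
      exact c2 _ _
    · rw [hQ]
      exact c3 a _ y ⟨⟨y, hy.2, rfl⟩, hy.1, hy'⟩ hne
  exact ⟨j, hj, a4 j (hQ j ▸ hg)⟩

end Pool.Agent.Lib.NA
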