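import Pool.Agent.Lib.NA.Blue
import Pool.Agent.Lib.ZL.B_SPL
import Pool.Agent.Lib.ZL.B_HLD

/-! Project NA: comparison of the weighted integrals. -/

open scoped Classical Topology ContDiff ENNReal
open Set MeasureTheory Complex Metric Filter

noncomputable section

namespace Pool.Agent.Lib.NA

open Pool.Agent.Lib.SV (E)
open Pool.Agent.Lib.HS32 Pool.Agent.Lib.EX Pool.Agent.Lib.EXS Pool.Agent.Lib.ZL

namespace INT

theorem gap {ι : Type} [Fintype ι] (a : ι → ℝ) (h : ∀ i, a i < 1) :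
    ∃ η > (0 : ℝ), ∀ i, a i + η < 1 := by
  have e : ∀ i, ∀ᶠ t : ℝ in 𝓝 0, a i + t < 1 := fun i =>
    (continuousAt_const.add continuousAt_id).eventually_lt continuousAt_const (by simpa using h i)
  obtain ⟨t, ht⟩ := (((eventually_all.2 e).filter_mono nhdsWithin_le_nhds).and
    (self_mem_nhdsWithin (s := Ioi (0 : ℝ)))).exists
  exact ⟨t, ht.2, ht.1⟩

theorem mix {h B t u v w : ℝ} (h0 : 0 ≤ h) (hB : h ≤ B) (B0 : 0 < B) (t0 : 0 ≤ t) (t1 : t ≤ 1)
    (e : w ≤ t * u + (1 - t) * v) : h * Real.exp w ≤ B * Real.exp v + h * Real.exp u := by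
  rcases h0.eq_or_lt with rfl | hp
  · have := mul_pos B0 (Real.exp_pos v)
    linarith
  have l := Real.log_le_log hp hB
  have y := HLD.young (U := Real.log h + u) (V := Real.log B + v) t0 t1
  rw [Real.exp_add (Real.log B), Real.exp_add (Real.log h), Real.exp_log hp, Real.exp_log B0] at y
  refine le_trans ?_ y
  nth_rewrite 1 [← Real.exp_log hp]
  rw [← Real.exp_add]
  exact Real.exp_le_exp.2 (by nlinarith)

end INT

theorem nINT (hPW : ZL.St_PW) (hMU : ZL.St_MU) : St_INT := by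
  intro n M _ ι _ _ D X γ f ψ C hγ hψ
  obtain ⟨-, -, p3, p4, p5, p6, p7, p8, -, p10, -⟩ := hPW n M ι D
  obtain ⟨-, m2, m3, m4, -⟩ := hMU n M ι D X
  refine ⟨fun c c' h hc h0 hI => ?_, ?_, fun c₀ c c0 hc => ?_⟩
  · refine ne_top_of_le_ne_top ?_ (m3 _ (fun x => Real.exp ((c' - c) * C) *
      (h x * om D γ ψ c' x)) fun x hx => ?_)
    · rw [SPL.int_mul (Real.exp_pos _).le]
      exact ENNReal.mul_ne_top ENNReal.ofReal_ne_top hI
    · rw [mul_left_comm, om, om, ← Real.exp_add]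
      refine mul_le_mul_of_nonneg_left (Real.exp_le_exp.2 ?_) (h0 x)
      nlinarith [mul_le_mul_of_nonneg_left (hψ x hx) (sub_nonneg.2 hc)]
  · have := m4 (-γ) fun i => by
      have := hγ i
      rw [Pi.neg_apply]
      linarith
    have e : om D γ ψ 0 = fun x => Real.exp (lw D (-γ) x) := funext fun x => by
      rw [om, p6, zero_mul, neg_zero, zero_sub]
    rwa [e]
  obtain ⟨η, η0, hη⟩ := INT.gap _ hγ
  have cp : 0 < c := c0.trans_lt hc
  set θ : ℝ := (c₀ / c + 1) / 2 with hθ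
  have q0 : 0 ≤ c₀ / c := div_nonneg c0 cp.le
  have q1 : c₀ / c < 1 := (div_lt_one cp).2 hc
  have θ0 : 0 ≤ θ := by linarith
  have θ1 : θ < 1 := by linarith
  have θc : θ * c = (c₀ + c) / 2 := by
    rw [hθ]
    field_simp
  set S : ℝ := 1 + ∑ i, |f i| with hS
  have S0 : 0 < S := add_pos_of_pos_of_nonneg one_pos (Finset.sum_nonneg fun i _ => abs_nonneg _)
  set ε : ℝ := (1 - θ) * η / 2 with hε
  have ε0 : 0 < ε := half_pos (mul_pos (sub_pos.2 θ1) η0)
  refine ⟨ε, ε0, ε / S, div_pos ε0 S0, θ * c, by linarith, by linarith,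
    fun h B h0 hB hI => ?_⟩
  set a : ι → ℝ := -(γ + fun _ => η) with ha
  have fin := m4 a fun i => by
    have := hη i
    simp only [ha, Pi.neg_apply, Pi.add_apply]
    linarith
  have B0 : 0 < max B 1 := one_pos.trans_le (le_max_right _ _)
  have me : AEMeasurable (fun x => max B 1 * Real.exp (lw D a x)) X.μ :=
    (m2 ℝ _ (Real.continuous_exp.comp_continuousOn (p10 ℝ _ (p8 a)))).const_mul _
  refine ne_top_of_le_ne_top ?_ ((m3 _ (fun x => max B 1 * Real.exp (lw D a x) +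
    h x * om D γ ψ c x * Real.exp (lw D (fun _ => ε) x)) fun x hx => ?_).trans (SPL.int_add me))
  · rw [SPL.int_mul B0.le]
    exact ENNReal.add_ne_top.2 ⟨ENNReal.mul_ne_top ENNReal.ofReal_ne_top fin, hI⟩
  rw [om, om, mul_assoc, mul_assoc (h x), ← Real.exp_add, ← Real.exp_add]
  refine INT.mix (h0 x) ((hB x hx).trans (le_max_left _ _)) B0 θ0 θ1.le ?_
  have k := p7 (θ • (fun _ => ε) - (1 - θ) • fun _ => η) (-((ε / S) • f)) (fun i => by
    have b1 : |f i| ≤ S := by
      have := Finset.single_le_sum (f := fun i => |f i|) (fun i _ => abs_nonneg _)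
        (Finset.mem_univ i)
      linarith
    have b2 : ε / S * f i ≤ ε :=
      (mul_le_mul_of_nonneg_left ((le_abs_self _).trans b1) (div_pos ε0 S0).le).trans_eq
        (div_mul_cancel₀ _ S0.ne')
    have b3 := mul_le_mul_of_nonneg_right θ1.le ε0.le
    simp only [Pi.sub_apply, Pi.smul_apply, Pi.neg_apply, smul_eq_mul]
    linarith) x
  rw [p6, p4, p5 θ, p5 (1 - θ)] at k
  rw [ha, p6, p3]
  linarith

end Pool.Agent.Lib.NA
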