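import Pool.Agent.Lib.NA.Blue2
import Pool.Agent.Lib.NA.B_LC0

/-! Project NA: row LC0x. -/

namespace Pool.Agent.Lib.NA

theorem nLC0x (hPW : ZL.St_PW) (hMU : ZL.St_MU) (hUPB : ZL.St_UPB) (hWGT : ZL.St_WGT)
    (hVAL : St_VAL) (hINT : St_INT) (hNINT : St_NINT) : St_LC0x := by
  intro n M _ ι _ _ D X R j r s y hj hs h1 hv hy
  obtain ⟨ψ, c, h0, h⟩ :=
    LC0.core hPW hMU hUPB hWGT hVAL hINT hNINT n M ι D X R j r s y hj hs h1 hv hy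
  exact ⟨ψ, c, fun x _ => h0 x, h⟩

end Pool.Agent.Lib.NA
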