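import Pool.Agent.Lib.NA.Blue
import Pool.Agent.Lib.ZL.B_LFT
import Pool.Agent.Lib.ZL.B_EST

/-! Project NA: from the estimate to the section. -/

open scoped Classical Topology ContDiff ENNReal
open Set MeasureTheory Complex Metric Filter

set_option linter.unusedVariables false
set_option linter.unusedSectionVars false

noncomputable section

namespace Pool.Agent.Lib.NA

open Pool.Agent.Lib.SV (E)
open Pool.Agent.Lib.HS32 Pool.Agent.Lib.EX Pool.Agent.Lib.EXS Pool.Agent.Lib.ZL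

namespace LFTX

theorem cont {n : ℕ} {M : Mf n} {ι : Type} [Fintype ι] [DecidableEq ι] {D : Ad M ι}
    (cov : ∀ x, ∃ d, x ∈ (D.e d).source ∧ ‖D.e d x‖ ≤ 1) {P : ι → ℤ} {G : M.X → ℂ}
    (hG : D.All fun d z => Pol (D.c d) P (D.rd G d) z) : ContinuousOn G (off D) := by
  intro x hx
  obtain ⟨d, hd, -⟩ := cov x
  have ho := hx d hd
  obtain ⟨s, hs, e⟩ := hG d (D.e d x) (D.tgt d ▸ (D.e d).map_source hd)
  have c1 : ContinuousAt (D.rd G d) (D.e d x) := by
    refine ((MON.diff_xm (G := -P) fun i => Or.inl (ho i)).continuousAt.mul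
      hs.self_of_nhds.continuousAt).congr ?_
    filter_upwards [e, MON.off_ev ho] with y e1 e2 using (e1 e2).symm
  refine ((c1.comp ((D.e d).continuousAt hd)).congr ?_).continuousWithinAt
  filter_upwards [(D.e d).open_source.mem_nhds hd] with y hy
  exact congrArg G ((D.e d).left_inv hy)

end LFTX

open ZL.LFT in
theorem nLFTX (hPW : ZL.St_PW) (hMU : ZL.St_MU) (hUPB : ZL.St_UPB) (hPOL : ZL.St_POL)
    (hRES : ZL.St_RES) (hCLO : St_CLOX) : St_LFTX := by
  intro n M _ ι _ _ D X P R Z G W hQR hZ hG Wc W0 H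
  obtain ⟨f, hf0⟩ : ∃ f : D.A → E n → ℂ, ∀ d, f d = 0 := ⟨0, fun _ => rfl⟩
  have hf : D.All fun d z => PolH (D.c d) P (f d) z := fun d z _ =>
    ⟨0, .of_forall fun _ => differentiableAt_const _, .of_forall fun y _ => by simp [hf0]⟩
  have hGf : D.All fun d z => Pol (D.c d) P (D.rd G d - f d) z := fun d z hz => by
    beta_reduce
    rw [hf0, sub_zero]; exact hG d z hz
  choose ε ε0 ε1 F Γ hF hΓ hI hJ hW using fun ν : ℕ => H (1 / (ν + 1 : ℝ)) Nat.one_div_pos_of_nat
  obtain ⟨-, hmeas, hmono, -, mu⟩ := hMU n M ι D X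
  have hε : ∀ ν, ε ν ≤ 1 := fun ν => (ε1 ν).trans (by
    rw [div_le_one (by positivity)]
    linarith [Nat.cast_nonneg (α := ℝ) ν])
  have h1 : ∀ ν, D.All fun d z => PolH (D.c d) R (D.rd (F ν) d - f d) z := by
    intro ν d z hz
    obtain ⟨s, hs, e⟩ := hGf d z hz
    obtain ⟨B, B0, hB⟩ := bnd (K := R) hs.self_of_nhds.continuousAt e fun l _ => hQR l
    obtain ⟨r, r2, ρ, ρ0, s1, s2⟩ := rad hz hB
    obtain ⟨C, hC⟩ := mu r r2 (∑ i, |(R i : ℝ)|)
    have h2 := hC (fun i => R i) (fun x => normSq (G x - F ν x)) d fun i =>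
      Finset.single_le_sum (f := fun i => |(R i : ℝ)|) (fun _ _ => abs_nonneg _) (Finset.mem_univ i)
    refine hPOL n ι (D.c d) R _ z (ball z ρ) (D.inj d) (ball_mem_nhds z ρ0) (fun y hy ho => ?_) ?_
    · filter_upwards [hF ν d y (s2 y hy).1 ho, holH (hf d y (s2 y hy).1) ho] with x a b using a.sub b
    · refine ne_top_of_le_ne_top ?_ (li_le (c := D.c d) (B := 2 * B)
        (w := fun y => D.rd (fun x => normSq (G x - F ν x)) d y * xr (D.c d) (fun i => R i) y)
        measurableSet_ball s1 fun y hy ho => ?_)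
      · exact ENNReal.add_ne_top.2 ⟨ENNReal.mul_ne_top (by simp) (ne_top_of_le_ne_top
          (ENNReal.mul_ne_top ENNReal.ofReal_ne_top (hI ν)) h2),
          ENNReal.mul_ne_top ENNReal.ofReal_ne_top measure_ball_lt_top.ne⟩
      · have a1 := (s2 y hy).2 ho
        have a2 := mul_le_mul_of_nonneg_right (nsq_sub ((D.rd G d - f d) y)
          (G ((D.e d).symm y) - F ν ((D.e d).symm y))) (xr_nn (c := D.c d) (fun i => R i) y)
        have a3 : (D.rd G d - f d) y - (G ((D.e d).symm y) - F ν ((D.e d).symm y)) =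
            (D.rd (F ν) d - f d) y := by
          simp only [Pi.sub_apply, Ad.rd]
          ring
        rw [a3] at a2
        simp only [Ad.rd] at a1 a2 ⊢
        nlinarith
  obtain ⟨-, cov, -, -, -, -, -, -, -, hcont, hho⟩ := hPW n M ι D
  have cG := LFTX.cont cov hG
  have cF := fun ν => hcont ℂ _ (hho _ (hF ν))
  have two : ∀ U V : M.X → ℂ, ContinuousOn U (off D) → X.I (fun x => normSq (U x) * W x) ≠ ⊤ →
      X.I (fun x => normSq (V x) * W x) ≠ ⊤ → ∀ T : M.X → ℂ, (∀ x ∈ off D, T x = U x - V x) →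
      X.I (fun x => normSq (T x) * W x) ≠ ⊤ := fun U V cU hU hV T hT => by
    have m1 := hmeas ℝ _ ((continuous_normSq.comp_continuousOn cU).mul Wc)
    refine ne_top_of_le_ne_top ?_ ((hmono _ (fun x => 2 * (normSq (U x) * W x)
      + 2 * (normSq (V x) * W x)) fun x hx => ?_).trans (EST.i_add X (m1.const_mul 2) _))
    · rw [EST.i_mul X zero_le_two, EST.i_mul X zero_le_two]
      exact ENNReal.add_ne_top.2 ⟨ENNReal.mul_ne_top ENNReal.ofReal_ne_top hU,
        ENNReal.mul_ne_top ENNReal.ofReal_ne_top hV⟩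
    · rw [hT x hx]
      linarith [mul_le_mul_of_nonneg_right (nsq_sub (U x) (V x)) (W0 x)]
  have sm : ∀ (t : ℂ) (U : M.X → ℂ), X.I (fun x => normSq (U x) * W x) ≠ ⊤ →
      X.I (fun x => normSq ((t • U) x) * W x) ≠ ⊤ := fun t U hU => by
    simp only [Pi.smul_apply, smul_eq_mul, map_mul, mul_assoc]
    rw [EST.i_mul X (normSq_nonneg t)]
    exact ENNReal.mul_ne_top ENNReal.ofReal_ne_top hU
  let S : Submodule ℂ (M.X → ℂ) :=
    { carrier := {U | ContinuousOn U (off D) ∧ X.I (fun x => normSq (U x) * W x) ≠ ⊤}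
      add_mem' := fun {U V} hU hV => ⟨hU.1.add hV.1,
        two U _ hU.1 hU.2 (sm (-1) V hV.2) _ fun x _ => by simp⟩
      zero_mem' := ⟨continuousOn_const, by simp [Cx.I]⟩
      smul_mem' := fun t U hU => ⟨hU.1.const_smul t, sm t U hU.2⟩ }
  have e0 : ∀ ν d, D.rd (F ν) d - f d = D.rd (F ν) d := fun ν d => by rw [hf0, sub_zero]
  suffices lim : D.All fun d z => ∀ i ∈ Z, xi (D.c d) i z = 0 → (∀ l ≠ i, xi (D.c d) l z ≠ 0) →
      Tendsto (fun ν => val (D.c d) R (D.rd (F ν) d - f d) z) atTop (𝓝 0) by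
    simp only [e0] at h1 lim
    obtain ⟨T, t1, t2⟩ := hCLO n M ι D R Z F S h1 (fun ν =>
      ⟨((cF ν).sub (cF 0)).congr fun x hx => indicator_of_mem hx _,
        two _ _ (cG.sub (cF 0)) (hW 0) (hW ν) _ fun x hx => by
          rw [indicator_of_mem hx]; simp only [Pi.sub_apply]; ring⟩) lim
    exact ⟨T, t1, two _ _ (cG.sub (cF 0)) (hW 0) t2.2 _ fun x hx => by
      rw [indicator_of_mem hx]; simp only [Pi.sub_apply]; ring⟩
  clear e0
  intro d z hz i hi h0 hl
  have hK : ∀ l, xi (D.c d) l z = 0 → P l ≤ (R - ind Z) l := fun l e => by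
    obtain rfl : l = i := by_contra fun hne => hl l hne e
    have := hZ l hi
    simp only [Pi.sub_apply, ind, if_pos hi]
    omega
  obtain ⟨s, hs, e⟩ := hG d z hz
  obtain ⟨B, B0, hB⟩ := bnd hs.self_of_nhds.continuousAt e hK
  obtain ⟨s', hs', e'⟩ := hf d z hz
  obtain ⟨B', B0', hB'⟩ := bnd hs'.self_of_nhds.continuousAt e' hK
  obtain ⟨r, r2, ρ, ρ0, s1, s2⟩ := rad hz (hB.and hB')
  obtain ⟨C, hC⟩ := mu r r2 (∑ i, |(R i : ℝ)| + 1)
  obtain ⟨C', hC'⟩ := hRES n ι (D.c d) R Z i z ρ (D.inj d) hi h0 hl ρ0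
  obtain ⟨V, V0, hV⟩ : ∃ V : ℝ, 0 ≤ V ∧ volume (ball z ρ) = ENNReal.ofReal V :=
    ⟨_, ENNReal.toReal_nonneg, (ENNReal.ofReal_toReal measure_ball_lt_top.ne).symm⟩
  have hi01 : ∀ l, (0 : ℝ) ≤ ind Z l ∧ (ind Z l : ℝ) ≤ 1 := fun l => by
    unfold ind
    split_ifs <;> simp
  have key : ∀ ν, normSq (val (D.c d) R (D.rd (F ν) d - f d) z) ≤
      C' * ((2 * |C| + 4 * (B + B') * 4 ^ Fintype.card ι * V) * (1 / (ν + 1 : ℝ))) := by
    intro ν
    obtain ⟨u1, u2⟩ := (hUPB n M ι D R).2.2.2.2.2.1 (D.c d) _ (h1 ν d)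
    have e0 := ε0 ν
    have e1 := hε ν
    have hp : (0 : ℝ) < 1 / (ν + 1 : ℝ) := Nat.one_div_pos_of_nat
    refine hC' (D.rd (F ν) d - f d) _ (ε ν) _ e0 e1 (by positivity)
      (u1.mono fun y hy => (s2 y hy).1) (fun y hy ho => u2 y (s2 y hy).1 ho) ?_
    have h2 := hC (fun l => R l - (1 - ε ν) * ind Z l) (fun x => ε ν * normSq (Γ ν x - F ν x)) d
      fun l => by
        have b1 := Finset.single_le_sum (f := fun i => |(R i : ℝ)|) (fun _ _ => abs_nonneg _)
          (Finset.mem_univ l)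
        have b2 := abs_sub (R l : ℝ) ((1 - ε ν) * ind Z l)
        have b3 : |(1 - ε ν) * ind Z l| ≤ 1 := by
          rw [abs_of_nonneg (mul_nonneg (by linarith) (hi01 l).1)]
          exact mul_le_one₀ (by linarith) (hi01 l).1 (hi01 l).2
        linarith
    have e3 : (fun l => R l - (1 - ε ν) * ind Z l) - X.o =
        fun i => R i - X.o i - (1 - ε ν) * ind Z i := by
      funext l
      simp only [Pi.sub_apply]
      ring
    rw [e3] at h2
    refine (li_le (c := D.c d) (B := ε ν * (4 * (B + B') * 4 ^ Fintype.card ι))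
      (w := fun y => D.rd (fun x => ε ν * normSq (Γ ν x - F ν x)) d y *
        xr (D.c d) (fun l => R l - (1 - ε ν) * ind Z l) y)
      measurableSet_ball s1 fun y hy ho => ?_).trans ?_
    · obtain ⟨hy2, a1, a2⟩ := s2 y hy
      have a1 := a1 ho
      have a2 := a2 ho
      have e4 : xr (D.c d) (fun l => R l - (1 - ε ν) * ind Z l) y =
          xr (D.c d) (fun l => (R - ind Z) l) y * xr (D.c d) (fun l => ε ν * ind Z l) y := by
        rw [← xr_add _ _ ho]
        refine congrArg (xr (D.c d) · y) (funext fun l => ?_)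
        simp only [Pi.sub_apply, Int.cast_sub]
        ring
      have a3 := xr_le (c := D.c d) (a := fun l => ε ν * ind Z l)
        (fun l => ⟨mul_nonneg e0.le (hi01 l).1, mul_le_one₀ e1 (hi01 l).1 (hi01 l).2⟩) hy2
      have a4 := xr_nn (c := D.c d) (fun l => ε ν * ind Z l) y
      have a5 := xr_nn (c := D.c d) (fun l => (R - ind Z) l) y
      have a6 := nsq_sub (Γ ν ((D.e d).symm y) - f d y) (Γ ν ((D.e d).symm y) - F ν ((D.e d).symm y))
      have a7 := nsq_sub (Γ ν ((D.e d).symm y)) (f d y)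
      have a8 := hΓ ν ((D.e d).symm y)
      have a9 : Γ ν ((D.e d).symm y) - f d y - (Γ ν ((D.e d).symm y) - F ν ((D.e d).symm y)) =
          (D.rd (F ν) d - f d) y := by
        simp only [Pi.sub_apply, Ad.rd]
        ring
      rw [a9] at a6
      rw [e4]
      simp only [Ad.rd] at a1 a6 ⊢
      generalize xr (D.c d) (fun l => (R - ind Z) l) y = t at *
      generalize xr (D.c d) (fun l => ε ν * ind Z l) y = t' at *
      have b1 : normSq ((D.rd (F ν) d - f d) y) * t ≤
          2 * (normSq (Γ ν ((D.e d).symm y) - F ν ((D.e d).symm y)) * t) + 4 * (B + B') := by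
        have b0 : normSq ((D.rd (F ν) d - f d) y) ≤
            2 * normSq (Γ ν ((D.e d).symm y) - F ν ((D.e d).symm y)) +
              4 * normSq (G ((D.e d).symm y)) + 4 * normSq (f d y) := by
          linarith
        nlinarith [mul_le_mul_of_nonneg_right b0 a5]
      have b2 := mul_le_mul_of_nonneg_right b1 a4
      have b3 := mul_le_mul_of_nonneg_left a3 (by positivity : 0 ≤ 4 * (B + B'))
      have b4 := mul_le_mul_of_nonneg_left (b2.trans (by linarith : _ ≤ 2 * (normSq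
        (Γ ν ((D.e d).symm y) - F ν ((D.e d).symm y)) * t) * t' +
          4 * (B + B') * 4 ^ Fintype.card ι)) e0.le
      linarith
    · have b1 := h2.trans (mul_le_mul' (ENNReal.ofReal_le_ofReal (le_abs_self C)) (hJ ν))
      refine (add_le_add (mul_le_mul' le_rfl b1) le_rfl).trans ?_
      rw [hV, ← ENNReal.ofReal_mul (abs_nonneg _), ← ENNReal.ofReal_mul (by positivity),
        ← ENNReal.ofReal_ofNat 2, ← ENNReal.ofReal_mul zero_le_two,
        ← ENNReal.ofReal_add (by positivity) (by positivity)]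
      refine ENNReal.ofReal_le_ofReal ?_
      have b2 := mul_le_mul_of_nonneg_right (ε1 ν)
        (by positivity : 0 ≤ 4 * (B + B') * 4 ^ Fintype.card ι * V)
      nlinarith
  have lim := ((tendsto_one_div_add_atTop_nhds_zero_nat (𝕜 := ℝ)).const_mul
    (2 * |C| + 4 * (B + B') * 4 ^ Fintype.card ι * V)).const_mul C'
  rw [mul_zero, mul_zero] at lim
  have l2 := (squeeze_zero (fun ν => normSq_nonneg _) key lim).sqrt
  rw [Real.sqrt_zero] at l2
  exact tendsto_zero_iff_norm_tendsto_zero.2 l2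

end Pool.Agent.Lib.NA
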