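import Pool.Agent.Lib.NA.Blue2
import Pool.Agent.Lib.NA.B_NA

/-! Project NA: the theorem on the manifold layer, second form. -/

open scoped Classical Topology ContDiff ENNReal
open Set MeasureTheory Complex Metric Filter

set_option linter.unusedSectionVars false

noncomputable section

namespace Pool.Agent.Lib.NA

open Pool.Agent.Lib.SV (E)
open Pool.Agent.Lib.HS32 Pool.Agent.Lib.EX Pool.Agent.Lib.EXS Pool.Agent.Lib.ZL

namespace NAX

variable {n : ℕ} {M : Mf n} [M.Cpt] {ι : Type} [Fintype ι] [DecidableEq ι] {D : Ad M ι}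
  {X : Cx D} {γ : ι → ℝ} {ψ ψ' : M.X → ℝ}

theorem om_eq (h : ∀ x ∈ off D, ψ x = ψ' x) (c : ℝ) : ∀ x ∈ off D, om D γ ψ c x = om D γ ψ' c x :=
  fun x hx => by rw [om, om, h x hx]

theorem li_le (hPW : ZL.St_PW) {f g : M.X → ℝ} {y : M.X} (h : ∀ x ∈ off D, f x ≤ g x)
    (hg : Li X g y) : Li X f y := by
  obtain ⟨O, hO, hI⟩ := hg
  refine ⟨O, hO, ne_top_of_le_ne_top hI ((bMU hPW n M ι D X).2.2.1 _ _ fun x hx => ?_)⟩
  by_cases k : x ∈ O
  · rw [indicator_of_mem k, indicator_of_mem k]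
    exact h x hx
  · rw [indicator_of_notMem k, indicator_of_notMem k]

theorem nk_eq (hPW : ZL.St_PW) (h : ∀ x ∈ off D, ψ x = ψ' x) (c₀ : ℝ) :
    Nk X γ ψ c₀ = Nk X γ ψ' c₀ :=
  Set.ext fun _ => forall₂_congr fun c _ => not_congr
    ⟨li_le hPW fun x hx => (om_eq h c x hx).ge, li_le hPW fun x hx => (om_eq h c x hx).le⟩

/-- A section that does not vanish at `y` gives integrability near `y`. -/
theorem li_of (hPW : ZL.St_PW) (hVAL : St_VAL) {Q : ι → ℤ} {G : M.X → ℂ} {c : ℝ} {y : M.X}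
    (hG : Mer D Q G) (hI : X.I (fun x => sq D Q G x * om D γ ψ c x) ≠ ⊤) (hy : ¬ Van D Q G y) :
    Li X (om D γ ψ c) y := by
  obtain ⟨-, -, -, v4, -, -, -, -, -, -, v11, -⟩ := hVAL n M ι D
  obtain ⟨a, a0, ha⟩ := v11 univ Q G ((v4 _ _).1 hG) y (mem_univ _) hy
  refine ⟨_, ha, ne_top_of_le_ne_top (NA0.fin_mul X (inv_pos.2 a0).le hI)
    ((bMU hPW n M ι D X).2.2.1 _ _ fun x hx => ?_)⟩
  have o : 0 < om D γ ψ c x := Real.exp_pos _
  have s : 0 ≤ sq D Q G x := mul_nonneg (normSq_nonneg _) (Real.exp_pos _).le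
  by_cases k : x ∈ {x | x ∈ off D → a ≤ sq D Q G x}
  · rw [indicator_of_mem k, ← mul_assoc]
    exact le_mul_of_one_le_left o.le ((one_le_inv_mul₀ a0).2 (k hx))
  · rw [indicator_of_notMem k]
    positivity

end NAX

theorem nNAX (hPW : ZL.St_PW) (hVAL : St_VAL) (hINT : St_INT) (hPK0 : St_PK0) (hSTB : St_STB)
    (hLC0 : St_LC0x) (hLC1 : St_LC1) (hPWR : St_PWR) (hONE : St_ONEx) : St_NAx := by
  intro n M _ ι _ _ D X R hNv
  obtain ⟨-, v2, v3, v4, -, -, v7, v8, -, v10, -, -⟩ := hVAL n M ι D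
  obtain ⟨-, -, ladd, -⟩ := hPW n M ι D
  obtain ⟨-, -, mono, -⟩ := bMU hPW n M ι D X
  obtain ⟨j, hj, r, s, hs, h1, hbs⟩ := hSTB n M ι D X R
  refine ⟨j, hj, r, s, hs, fun d z hz => ?_⟩
  by_contra hno
  have hy : ∀ i, Van D (R.Q j 0) (s i) ((D.e d).symm z) := fun i => by
    refine v3 univ _ _ ((v4 _ _).1 (hs i)) _ (mem_univ _) d (GLU.mem_src d hz) ?_
    rw [GLU.rinv d hz]
    by_contra h0
    obtain ⟨a1, a2⟩ := v2 _ _ _ z (hs i d z hz)
    exact hno ⟨i, _, a1, h0, a2⟩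
  obtain ⟨ψ, c₀, hψ, hW, c0, happ, htop, hfin⟩ :=
    hLC0 n M ι D X R j r s _ hj hs h1 hy (NA0.not_off (hbs _ hy).1)
  obtain ⟨t, hone, hsat⟩ := hONE n M ι D X R
  obtain ⟨q, hq⟩ : ∃ q : ℕ, c₀ + 2 < q := exists_nat_gt _
  have q0 : 0 < q := by
    have : (0 : ℝ) < q := by linarith
    exact_mod_cast this
  obtain ⟨C, hC⟩ := hW.2
  obtain ⟨c₁, r', G, h01, h12, hG, hGI, hGV, hne, -⟩ := hLC1 n M ι D X R.γ ψ C c₀ (c₀ + 1)
    (R.Q (q * j) t) R.klt hW.1.1 hC (by linarith) htop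
  obtain ⟨g, C', -, -, hT, -⟩ := hPK0 n M ι D R.P
  have hqj := NA0.le_mul3 (q := q) hj R.N1
  have sub : ∀ y, (∀ i, Van D (R.Q (q * j) t) (G i) y) → ∀ i, Van D (R.Q j 0) (s i) y := by
    intro y hv i
    obtain ⟨T, mT, nT⟩ := hT y
    obtain ⟨m1, w1⟩ := v8 univ _ _ q ((v4 _ _).1 (hs i))
    obtain ⟨m2, w2⟩ := v8 univ _ _ t ((v4 _ _).1 mT)
    obtain ⟨m3, w3⟩ := v7 univ _ _ _ _ m1 m2
    rw [NA0.q_add] at m3 w3
    obtain ⟨B, hB⟩ := v10 univ univ _ _ isCompact_univ subset_rfl m2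
    have hI : X.I (fun x => sq D (R.Q (q * j) t) (s i ^ q * T ^ t) x * om D R.γ ψ c₁ x) ≠ ⊤ := by
      refine ne_top_of_le_ne_top (NA0.fin_mul X (le_max_right B 0)
        (hfin i q c₁ (by linarith))) (mono _ _ fun x hx => ?_)
      have e : (fun i => ((R.Q (q * j) t i : ℤ) : ℝ)) = (fun i => ((R.Q (q * j) 0 i : ℤ) : ℝ)) +
          fun i => (((t • fun i => (R.P.a i : ℤ)) i : ℤ) : ℝ) := by
        funext i
        rw [Pi.add_apply, Pi.smul_apply, nsmul_eq_mul, Rx.Q, Rx.Q]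
        push_cast
        ring
      have e2 : sq D (R.Q (q * j) t) (s i ^ q * T ^ t) x =
          sq D (t • fun i => (R.P.a i : ℤ)) (T ^ t) x * sq D (R.Q (q * j) 0) (s i ^ q) x := by
        unfold sq
        rw [e, ladd, Real.exp_add, Pi.mul_apply, map_mul]
        ring
      rw [e2, mul_assoc]
      refine mul_le_mul_of_nonneg_right ((hB x ⟨mem_univ _, hx⟩).trans (le_max_left _ _)) ?_
      exact mul_nonneg (mul_nonneg (normSq_nonneg _) (Real.exp_pos _).le) (Real.exp_pos _).le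
    rcases (w3 y (mem_univ _)).1 (hGV c₁ h01 _ ((v4 _ _).2 m3) hI y hv) with h | h
    · exact (w1 y (mem_univ _)).1 h
    · exact absurd ((w2 y (mem_univ _)).1 h) nT
  have hψ' : ∀ x ∈ off D, ψ x = lps (j * R.N) s x := hψ
  have sat : ∀ y, (∀ i, Van D (R.Q (q * j) t) (G i) y) →
      y ∈ R.P.φ ⁻¹' (R.P.φ '' Nk X R.γ (lps (j * R.N) s) c₀) := fun y hv => by
    rw [← NAX.nk_eq hPW hψ']
    exact hsat ψ c₀ c₁ (q * j) y hW c0 h01 (by push_cast; linarith)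
      (fun c hc H mH iH => hGV c hc H mH iH y hv) (NA0.not_off (hbs y (sub y hv)).1)
  have fin : ∀ c < c₀, X.I (om D R.γ (lps (j * R.N) s) c) ≠ ⊤ := fun c hc => by
    obtain ⟨c', c1, c2⟩ := happ (c₀ - c) (sub_pos.2 hc)
    refine ne_top_of_le_ne_top ((hINT n M ι D X R.γ 0 ψ C R.klt hC).1 c c' (fun _ => 1)
      (by linarith) (fun _ => zero_le_one) (by simpa only [one_mul] using c2))
      (mono _ _ fun x hx => ?_)
    rw [one_mul]
    exact (NAX.om_eq hψ' c x hx).ge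
  obtain ⟨y₀, hy₀⟩ := hne
  obtain ⟨y₁, hy₁, -⟩ := sat y₀ hy₀
  obtain ⟨m, m0, f, b, x, xN, hS'⟩ := hNv j r s c₀ hj hs h1 fin ⟨y₁, hy₁⟩
  rw [← NAX.nk_eq hPW hψ'] at xN
  have hS : R.Sc {y | ∀ i, Van D (R.Q (q * j) t) (G i) y} m f b x :=
    ⟨hS'.mer, fun d d' y hy => hS'.glue d d' y ⟨sat y hy.1, hy.2⟩,
      ⟨fun i => by_contra fun k => xN c₁ h01 (NAX.li_of hPW hVAL (hG i) (hGI i) k), hS'.mem.2⟩,
      hS'.ne⟩
  have hx := hbs x (sub x hS.mem.1)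
  have hqm := NA0.le_mul3 (q := q) m0 R.N1
  obtain ⟨F, mF, nF⟩ := hone ψ c₀ c₁ (q * j) (q * m) r' G (fun d => f d ^ q) b x hW c0 h01
    (by push_cast; linarith) (by push_cast; linarith) happ hG hGI
    (fun c hc H mH iH => hGV c hc H mH iH x hS.mem.1) (hPWR n M ι D X R _ m q f b x hS)
    (NA0.not_off hx.1)
  exact nF (hx.2 _ (Nat.mul_pos q0 m0) F mF)

end Pool.Agent.Lib.NA
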