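import Pool.Agent.Lib.NA.Blue2
import Pool.Agent.Lib.NA.B_ONE

/-! Project NA: one step, and the description of the locus. -/

open scoped Classical Topology ContDiff ENNReal
open Set MeasureTheory Complex Metric Filter

set_option linter.unusedVariables false
set_option linter.unusedSectionVars false

noncomputable section

namespace Pool.Agent.Lib.NA

open Pool.Agent.Lib.SV (E)
open Pool.Agent.Lib.HS32 Pool.Agent.Lib.EX Pool.Agent.Lib.EXS Pool.Agent.Lib.ZL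

namespace ONEX

variable {n : ℕ} {M : Mf n} [M.Cpt] {ι : Type} [Fintype ι] [DecidableEq ι] {D : Ad M ι}

theorem one_ev (c : ι → Option (Fin n)) (z : E n) :
    ∀ᶠ y in 𝓝 z, Off c y → (1 : ℂ) = xm c (-0) y * 1 :=
  Eventually.of_forall fun y _ => by simp [xm]

theorem one_hol (z : E n) : HolN (fun _ : E n => (1 : ℂ)) z :=
  Eventually.of_forall fun _ => differentiableAt_const _

theorem mer_one (W : Set M.X) : MerOn D W 0 1 := fun d z _ _ => ⟨_, one_hol z, one_ev _ z⟩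

theorem van_one (hV : St_VAL) (x : M.X) : ¬ Van D 0 1 x := fun h => by
  obtain ⟨d, hd⟩ := GLU.ex_ch D x
  have h1 := ((hV n M ι D).1 (D.c d) 0 (D.rd (1 : M.X → ℂ) d) _ _ (one_hol (D.e d x))
    (one_ev _ _)).self_of_nhds
  exact one_ne_zero (h1.symm.trans (h d hd))

theorem cpt (hW : St_PW) (hU : ZL.St_MU) (X : Cx D) {γ : ι → ℝ} {ψ : M.X → ℝ} (hψ : SmO D ψ)
    (i1 : ∀ c c' (h : M.X → ℝ), c ≤ c' → (∀ x, 0 ≤ h x) →
      X.I (fun x => h x * om D γ ψ c' x) ≠ ⊤ → X.I (fun x => h x * om D γ ψ c x) ≠ ⊤)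
    {c₀ : ℝ} {K : Set M.X} (hK : IsCompact K) (h : K ⊆ (Nk X γ ψ c₀)ᶜ) :
    ∀ᶠ c in 𝓝[>] c₀, X.I (K.indicator (om D γ ψ c)) ≠ ⊤ := by
  have mo := (hU n M ι D X).2.2.1
  have sb : ∀ c {A B : Set M.X}, A ⊆ B → X.I (B.indicator (om D γ ψ c)) ≠ ⊤ →
      X.I (A.indicator (om D γ ψ c)) ≠ ⊤ := fun c A B hs hB => ne_top_of_le_ne_top hB
    (mo _ _ fun x _ => indicator_le_indicator_of_subset hs (ONE.om_nn γ ψ c) x)
  have e1 : ∀ c (A : Set M.X), A.indicator (om D γ ψ c) =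
      fun x => A.indicator 1 x * om D γ ψ c x := fun c A => funext fun x => by
    by_cases k : x ∈ A <;> simp [k]
  have key : ∃ U, IsOpen U ∧ K ⊆ U ∧ ∀ᶠ c in 𝓝[>] c₀, X.I (U.indicator (om D γ ψ c)) ≠ ⊤ := by
    refine hK.induction_on (p := fun L => ∃ U, IsOpen U ∧ L ⊆ U ∧
      ∀ᶠ c in 𝓝[>] c₀, X.I (U.indicator (om D γ ψ c)) ≠ ⊤)
      ⟨∅, isOpen_empty, subset_rfl, Eventually.of_forall fun c => by simp [Cx.I]⟩
      (fun A B hs ⟨U, u1, u2, u3⟩ => ⟨U, u1, hs.trans u2, u3⟩) ?_ fun x hx => ?_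
    · rintro A B ⟨U, u1, u2, u3⟩ ⟨V, v1, v2, v3⟩
      refine ⟨U ∪ V, u1.union v1, union_subset_union u2 v2, ?_⟩
      filter_upwards [u3, v3] with c a1 a2
      refine ne_top_of_le_ne_top (ONE.i_add X (((hU n M ι D X).2.1 ℝ _
        (ONE.cont_om hW hψ c)).indicator u1.measurableSet) a1 a2) (mo _ _ fun x _ => ?_)
      have o := ONE.om_nn (D := D) γ ψ c x
      by_cases k : x ∈ U <;> by_cases k' : x ∈ V <;> simp [k, k', o]
    · obtain ⟨c, hc, O, o1, o2⟩ : ∃ c > c₀, Li X (om D γ ψ c) x := by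
        by_contra hn
        exact h hx fun c hc hl => hn ⟨c, hc, hl⟩
      refine ⟨interior O, mem_nhdsWithin_of_mem_nhds (interior_mem_nhds.2 o1), _, isOpen_interior,
        subset_rfl, ?_⟩
      filter_upwards [Ioc_mem_nhdsGT hc] with c' hc'
      refine sb c' interior_subset ?_
      rw [e1] at o2 ⊢
      exact i1 c' c _ hc'.2 (fun y => indicator_nonneg (fun _ _ => zero_le_one) y) o2
  obtain ⟨U, -, u2, u3⟩ := key
  exact u3.mono fun c hc => sb c u2 hc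

theorem nk_open (X : Cx D) (γ : ι → ℝ) (ψ : M.X → ℝ) (c₀ : ℝ) : IsOpen (Nk X γ ψ c₀)ᶜ := by
  refine isOpen_iff_mem_nhds.2 fun x hx => ?_
  obtain ⟨c, hc, O, o1, o2⟩ : ∃ c > c₀, Li X (om D γ ψ c) x := by
    by_contra hn
    exact hx fun c hc hl => hn ⟨c, hc, hl⟩
  filter_upwards [eventually_mem_nhds_iff.2 o1] with y hy hn using hn c hc ⟨O, hy, o2⟩

end ONEX

open ONE ONEX in
theorem nONEx (hW : St_PW) (hU : ZL.St_MU) (hV : St_VAL) (hI : St_INT) (hA : St_AVGX)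
    (hE : St_EX2) (hP : St_PKVx) (hD : St_IDL) : St_ONEx := by
  intro n M _ ι _ _ D X R
  obtain ⟨t, fv, hP⟩ := hP n M ι D X R
  refine ⟨t, ONE.core hW hU hV hI hA hE hD n M ι D X R t fv fun b x h1 h2 => ?_,
    fun ψ c₀ c₁ p x hψ h0 h01 hp hst hx => ?_⟩
  · obtain ⟨K, K1, K2, hK⟩ := hP b x h1 h2 univ isOpen_univ fun _ _ => mem_univ _
    exact ⟨K, K1, K2.trans inter_subset_right, hK⟩
  by_contra hn
  obtain ⟨b, hb⟩ := GLU.ex_ch D x
  have xb : x ∈ (R.B b).W := by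
    have : (D.e b).symm (D.e b x) ∈ (R.B b).W := R.sub b _ (GLU.mem_B2 hb)
    rwa [(D.e b).left_inv hb] at this
  obtain ⟨K, K1, K2, hK⟩ := hP b x xb hx _ (nk_open X R.γ ψ c₀) fun y hy h => hn ⟨y, h, hy⟩
  obtain ⟨ψ1, C, ψ2⟩ := id hψ
  obtain ⟨i1, -, i3⟩ := hI n M ι D X R.γ fv ψ C R.klt ψ2
  obtain ⟨c, a1, a2⟩ := ((cpt hW hU X ψ1.1 i1 K1 (K2.trans inter_subset_left)).and
    (Ioc_mem_nhdsGT h01)).exists
  obtain ⟨ε₀, ε0, ε₁, ε1, c', b1, b2, hc'⟩ := i3 c₀ c h0 a2.1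
  have q0 : R.Q 0 0 = 0 := funext fun i => by simp [Rx.Q]
  have s1 : ∀ y, sq D (R.Q 0 0) 1 y = 1 := fun y => by
    have h2 := (hW n M ι D).2.2.2.2.1 0 0 y
    rw [zero_smul, zero_mul] at h2
    have h3 : (fun i => ((R.Q 0 0 i : ℤ) : ℝ)) = 0 := funext fun i => by simp [q0]
    rw [sq, h3, h2]
    simp
  have key : X.I (fun y => K.indicator (sq D (R.Q 0 0) 1) y * om D R.γ ψ c y *
      Real.exp (lw D (fun _ => ε₀) y)) ≠ ⊤ := by
    refine ne_top_of_le_ne_top a1 ((hU n M ι D X).2.2.1 _ _ fun y _ => ?_)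
    have e1 : Real.exp (lw D (fun _ => ε₀) y) ≤ 1 := Real.exp_le_one_iff.2 (lw_np hW ε0.le y)
    by_cases k : y ∈ K
    · rw [indicator_of_mem k, indicator_of_mem k, s1, one_mul]
      exact mul_le_of_le_one_right (om_nn _ _ _ _) e1
    · simp [k]
  obtain ⟨H, H1, H2, H3⟩ := hK ψ c' ε₁ p 0 1 hψ (by linarith) (by linarith [a2.2]) ε1
    (q0 ▸ mer_one _) (hc' _ 1 (fun y => indicator_nonneg (fun z _ => sq_nn _ _ z) y)
      (fun y _ => by by_cases k : y ∈ K <;> simp [k, s1]) key) (q0 ▸ van_one hV x)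
  exact H3 (hst c' b1 H H1 H2)

end Pool.Agent.Lib.NA
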