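import Pool.Agent.Lib.NA.Blue
import Pool.Agent.Lib.EX.B_BLW
import Pool.Agent.Lib.EX.B_UNI

/-! Project NA: the morphism to a projective space read in the charts of an adapted atlas. -/

open scoped Classical Topology ContDiff ENNReal Manifold
open Set MeasureTheory Complex Metric Filter

noncomputable section

namespace Pool.Agent.Lib.NA

open Pool.Agent.Lib.SV (E)
open Pool.Agent.Lib.HS32 Pool.Agent.Lib.EX Pool.Agent.Lib.EX.BLW
open Pool.Agent.Lib.HS.BBR (mf)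
open Pool.Agent.Lib.KP (HolAt)

namespace PBB

variable {n : ℕ} {I : Type} [Fintype I] [DecidableEq I] {Y : Type} [TopologicalSpace Y]
  [ChartedSpace (E n) Y] [IsManifold 𝓘(ℂ, E n) ω Y] {e : OpenPartialHomeomorph Y (E n)} {z : E n}
  {S : I → Set Y} {c : I → Option (Fin n)}

theorem one (he : e ∈ (mf n Y).C) (hz : z ∈ e.target)
    (hF : ∀ w ∈ e.target, ∀ i, e.symm w ∈ S i ↔ xi c i w = 0) {r : ℕ} {τ : Y → E r} {a : I → ℤ}
    {φ : Y → Submodule ℂ (E r)} {h : I → Y → ℂ} {t : Y → E r} (hE : Eqs n S (e.symm z) h)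
    (t0 : t (e.symm z) ≠ 0) (ht : ∀ᶠ x in 𝓝 (e.symm z), (∀ j, HolAt n 0 (t · j) x) ∧
      τ x = (∏ i, h i x ^ a i) • t x ∧ φ x = ℂ ∙ t x) :
    HolN (num c a (τ ∘ e.symm)) z ∧ num c a (τ ∘ e.symm) z ≠ 0 ∧
      φ (e.symm z) = ℂ ∙ num c a (τ ∘ e.symm) z ∧
      τ (e.symm z) = xm c a z • num c a (τ ∘ e.symm) z := by
  obtain ⟨u, hu, hg⟩ := unit bUNI he hz hF hE
  obtain ⟨p1, p2⟩ := hol_prod hu a
  set U : E n → ℂ := fun w => ∏ i, u i w ^ a i with hUd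
  have a1 : HolN (t ∘ e.symm) z := holN he hz (ht.mono fun x hx => holv hx.1)
  have a2 : HolN (U • t ∘ e.symm) z := (Eventually.and p1 a1).mono fun y hy => hy.1.smul hy.2
  have a3 : ∀ᶠ y in 𝓝 z, (τ ∘ e.symm) y = xm c a y • (U • t ∘ e.symm) y := by
    filter_upwards [ev hz ht, hg] with y b1 b2
    simp only [Function.comp_apply, b1.2.2.1, b2, mul_zpow, Finset.prod_mul_distrib, xm, hUd,
      smul_smul, mul_comm, Pi.smul_apply']
  have a4 := num_eq a2 (a3.mono fun y b _ => b)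
  refine ⟨(Eventually.and a2 a4.eventually_nhds).mono fun y b => b.1.congr_of_eventuallyEq b.2,
    ?_, ?_, ?_⟩ <;> rw [a4.self_of_nhds]
  · exact smul_ne_zero p2 t0
  · exact ht.self_of_nhds.2.2.trans
      (Submodule.span_singleton_smul_eq (IsUnit.mk0 _ p2) (t (e.symm z))).symm
  · exact a3.self_of_nhds

end PBB

theorem nPBB : St_PBB := by
  intro n Y ι I _ _ _ _ _ S W D hF ⟨r, a, τ, φ, h0, h, hW⟩
  have key := fun (d : D.A) z (hz : z ∈ B2 n) =>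
    let ⟨_, _, hE, t0, ht⟩ := h ((D.e d).symm z)
    PBB.one (Y := Y) (D.mem d) (tgt D d hz) (fit hF d) hE t0 ht
  refine ⟨⟨r, a, τ, fun d => num (D.c d) (fun i => -(a i : ℤ)) (τ ∘ (D.e d).symm), φ, h0,
    fun d z hz => ⟨(key d z hz).1, (key d z hz).2.1, (key d z hz).2.2.1,
      fun _ => (key d z hz).2.2.2⟩⟩, fun b => ⟨(hW b).1, ?_⟩⟩
  obtain ⟨s, hs⟩ := (hW b).2
  exact ⟨s, fun d => num (D.c d) (fun i => (a i : ℤ)) (s ∘ (D.e d).symm), fun d z hz ho =>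
    have k := ord1 (Y := Y) bUNI (D.mem d) (tgt D d hz) (fit hF d) (hs _ ho)
    ⟨k.1, k.2.1, fun _ => k.2.2⟩⟩

end Pool.Agent.Lib.NA
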