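import Pool.Agent.Lib.NA.Blue2
import Pool.Agent.Lib.NA.B_PBB

/-! Project NA: the given morphism to a projective space read in the charts of an adapted atlas. -/

open scoped Classical Topology ContDiff ENNReal Manifold
open Set MeasureTheory Complex Metric Filter

noncomputable section

namespace Pool.Agent.Lib.NA

open Pool.Agent.Lib.HS32 Pool.Agent.Lib.EX Pool.Agent.Lib.EX.BLW

theorem nPBBx : St_PBBx := by
  intro n Y ι I _ _ _ _ _ S W D r φ hF ⟨a, τ, h0, h, hW⟩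
  have key := fun (d : D.A) z (hz : z ∈ B2 n) =>
    let ⟨_, _, hE, t0, ht⟩ := h ((D.e d).symm z)
    PBB.one (Y := Y) (D.mem d) (tgt D d hz) (fit hF d) hE t0 ht
  refine ⟨⟨r, a, τ, fun d => num (D.c d) (fun i => -(a i : ℤ)) (τ ∘ (D.e d).symm), φ, h0,
    fun d z hz => ⟨(key d z hz).1, (key d z hz).2.1, (key d z hz).2.2.1,
      fun _ => (key d z hz).2.2.2⟩⟩, fun _ _ => Iff.rfl, fun b => ⟨(hW b).1, ?_⟩⟩
  obtain ⟨s, hs⟩ := (hW b).2
  exact ⟨s, fun d => num (D.c d) (fun i => (a i : ℤ)) (s ∘ (D.e d).symm), fun d z hz ho =>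
    have k := ord1 (Y := Y) bUNI (D.mem d) (tgt D d hz) (fit hF d) (hs _ ho)
    ⟨k.1, k.2.1, fun _ => k.2.2⟩⟩

end Pool.Agent.Lib.NA
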