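import Pool.Agent.Lib.NA.Blue

/-! Row ZR: Theorem Z on the pull-back of `K + Δ`. -/

open scoped Classical Topology ContDiff ENNReal
open Set MeasureTheory Complex Metric Filter

set_option linter.unusedVariables false
set_option linter.unusedSectionVars false

noncomputable section

namespace Pool.Agent.Lib.NA

open Pool.Agent.Lib.SV (E)
open Pool.Agent.Lib.HS32 Pool.Agent.Lib.EX Pool.Agent.Lib.EXS Pool.Agent.Lib.ZL

namespace ZR

variable {n : ℕ} {M : Mf n} {ι : Type} [Fintype ι] [DecidableEq ι] {D : Ad M ι} {X : Cx D}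

/-- The klt pair obtained by rounding up the negative coefficients of the boundary. -/
def kl (R : Rx X) : Kl X where
  π := fun i => if 0 ≤ R.k i / R.N - X.o i then (R.k i : ℤ) else ⌈R.N * X.o i⌉
  c := R.N
  c0 := lt_of_lt_of_le one_pos R.N1
  lo := fun i => by
    have hN : 0 < R.N := lt_of_lt_of_le one_pos R.N1
    by_cases h : 0 ≤ R.k i / R.N - X.o i
    · rw [if_pos h, Int.cast_natCast]; linarith
    · rw [if_neg h, le_div_iff₀ hN, mul_comm]; exact Int.le_ceil _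
  hi := fun i => by
    have hN : 0 < R.N := lt_of_lt_of_le one_pos R.N1
    by_cases h : 0 ≤ R.k i / R.N - X.o i
    · rw [if_pos h, Int.cast_natCast]; have := R.klt i; linarith
    · rw [if_neg h, div_lt_iff₀ hN]
      have h1 := Int.ceil_lt_add_one (R.N * X.o i)
      have h2 := R.N1
      nlinarith

theorem le_kl (R : Rx X) (i : ι) : (R.k i : ℤ) ≤ (kl R).π i := by
  have hN : 0 < R.N := lt_of_lt_of_le one_pos R.N1
  show _ ≤ if 0 ≤ R.k i / R.N - X.o i then (R.k i : ℤ) else ⌈R.N * X.o i⌉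
  by_cases h : 0 ≤ R.k i / R.N - X.o i
  · rw [if_pos h]
  · rw [if_neg h]
    have h1 : (R.k i : ℝ) / R.N < X.o i := by linarith [not_le.1 h]
    rw [div_lt_iff₀ hN, mul_comm] at h1
    have h2 : ((R.k i : ℤ) : ℝ) ≤ ((⌈R.N * X.o i⌉ : ℤ) : ℝ) := by
      rw [Int.cast_natCast]; exact h1.le.trans (Int.le_ceil _)
    exact_mod_cast h2

theorem kl_eq (R : Rx X) (i : ι) (hi : i ∉ R.ex) : (kl R).π i = R.k i := if_pos (R.eff i hi)

theorem e_le (R : Rx X) (i : ι) : (X.e i : ℤ) ≤ ((∑ l, X.e l : ℕ) : ℤ) * R.P.a i := by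
  have h1 : X.e i ≤ ∑ l, X.e l :=
    Finset.single_le_sum (f := X.e) (fun _ _ => Nat.zero_le _) (Finset.mem_univ i)
  have h2 : (∑ l, X.e l) ≤ (∑ l, X.e l) * R.P.a i := Nat.le_mul_of_pos_right _ (R.P.apos i)
  exact_mod_cast h1.trans h2

end ZR

theorem nZR (hE : St_EXB) (hZ : ZL.St_ZX) : St_ZR := by
  intro n M _ ι _ _ D X R
  obtain ⟨C, ρ, h1, h2⟩ := hZ n M ι D X (ZR.kl R) (fun i => R.k i)
    (fun i => ((∑ l, X.e l : ℕ) : ℤ) * R.P.a i) (ZR.le_kl R) (ZR.e_le R) R.gen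
    (fun j U hU => (hE n M ι D X R).2.2.2 j (∑ l, X.e l) _ U (fun i hi => by
      show (j : ℤ) * (ZR.kl R).π i + X.e i ≤ j * R.k i + ((∑ l, X.e l : ℕ) : ℤ) * R.P.a i
      rw [ZR.kl_eq R i hi]
      linarith [ZR.e_le R i]) hU)
  have hg : (fun i => (((R.k i : ℤ) : ℝ)) / (ZR.kl R).c) = R.γ := by
    funext i
    rw [Int.cast_natCast]; rfl
  rw [hg] at h1 h2
  exact ⟨C, ρ, h1, h2⟩

end Pool.Agent.Lib.NA
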