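import Pool.Agent.Lib.ZL.All1
import Pool.Agent.Lib.ZX.Core
import Pool.Agent.Lib.NA.B_AVGX
import Pool.Agent.Lib.NA.B_BR4
import Pool.Agent.Lib.NA.B_BR5
import Pool.Agent.Lib.NA.B_CLOX
import Pool.Agent.Lib.NA.B_ESTX
import Pool.Agent.Lib.NA.B_EX2
import Pool.Agent.Lib.NA.B_EXB
import Pool.Agent.Lib.NA.B_H5
import Pool.Agent.Lib.NA.B_IDL
import Pool.Agent.Lib.NA.B_INT
import Pool.Agent.Lib.NA.B_LC0X
import Pool.Agent.Lib.NA.B_LC1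
import Pool.Agent.Lib.NA.B_LFTX
import Pool.Agent.Lib.NA.B_LOC
import Pool.Agent.Lib.NA.B_LOJ1
import Pool.Agent.Lib.NA.B_NAX
import Pool.Agent.Lib.NA.B_NINT
import Pool.Agent.Lib.NA.B_ONEX
import Pool.Agent.Lib.NA.B_PBBX
import Pool.Agent.Lib.NA.B_PK0
import Pool.Agent.Lib.NA.B_PKVX
import Pool.Agent.Lib.NA.B_PWR
import Pool.Agent.Lib.NA.B_STB
import Pool.Agent.Lib.NA.B_VAL
import Pool.Agent.Lib.NA.B_WGL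
import Pool.Agent.Lib.NA.B_ZR

/-! Project NA: the rows without hypotheses. -/

namespace Pool.Agent.Lib.NA

theorem sVAL : St_VAL := nVAL ZL.bPW

theorem sINT : St_INT := nINT ZL.bPW ZL.st_MU

theorem sEXB : St_EXB := nEXB sVAL

theorem sPK0 : St_PK0 := nPK0 ZL.bPW sVAL

theorem sAVGX : St_AVGX := nAVGX ZL.bPW ZL.st_MU ZL.bTRF ZL.st_UPB sVAL

theorem sZR : St_ZR := nZR sEXB ZX.st_ZX

theorem sESTX : St_ESTX := nESTX ZL.bPW ZL.st_MU ZL.st_WGT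

theorem sLFTX : St_LFTX :=
  nLFTX ZL.bPW ZL.st_MU ZL.st_UPB ZL.bPOL ZL.bRES (nCLOX ZL.st_FIN)

theorem sEX2 : St_EX2 := nEX2 ZL.bPW ZL.st_UPB sZR sAVGX sESTX sLFTX sEXB

theorem sPKVx : St_PKVx :=
  nPKVX ZL.bPW ZL.st_MU ZL.st_UPB ZL.st_WGT ZL.st_POG sVAL sEXB (nWGL ZL.bLEV) sPK0 nNINT

theorem sONEx : St_ONEx :=
  nONEx ZL.bPW ZL.st_MU sVAL sINT sAVGX sEX2 sPKVx (nIDL ZL.bPW ZL.st_MU sVAL nLOJ1)

theorem sNAx : St_NAx :=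
  nNAX ZL.bPW sVAL sINT sPK0 (nSTB ZL.st_UPB sVAL nDCC1)
    (nLC0x ZL.bPW ZL.st_MU ZL.st_UPB ZL.st_WGT sVAL sINT nNINT)
    (nLC1 ZL.bPW ZL.st_MU ZL.st_UPB ZL.st_FIN sVAL sINT) (nPWR sVAL) sONEx

/-- The criterion. -/
theorem sH5 : St_H5 :=
  nH5 ZL.st_RS1 ZL.st_AMB ZL.st_CX ZL.bNFB ZL.st_PEAK nPBBx (nBR4 sVAL)
    (nBR5 (nLOC ZL.bPW EX.bUNI)) sNAx

end Pool.Agent.Lib.NA
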