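import Pool.Agent.Lib.NA.Blue

/-! Project NA, row `H4`: the target statement from the rows. -/

open scoped Classical Topology ContDiff ENNReal Manifold
open Set MeasureTheory Complex Metric Filter

noncomputable section

namespace Pool.Agent.Lib.NA

open Pool.Agent.Lib.SV (E)
open Pool.Agent.Lib.HS32 Pool.Agent.Lib.EX Pool.Agent.Lib.EXS Pool.Agent.Lib.ZL
open Pool.Agent.Lib.HS.BBR (mf)

/-- Row `H4`. -/
theorem nH4 (hR : ZL.St_RS1) (hA : ZL.St_AMB) (hC : ZL.St_CX) (hN : ZL.St_NFB) (hP : ZL.St_PEAK)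
    (hPB : St_PBB) (hB : St_BR4) (hNA : St_NA) : St_H4 := by
  intro n Y ι I _ _ _ _ _ _ _ G m M S ex k l η W σ g hG hm hM hL hAm hPu hc hn
  refine ⟨fun ⟨j, hj, h⟩ V ⟨y, hy⟩ _ _ => ?_, fun h => ?_⟩
  · obtain ⟨a, ha⟩ := hL.cov y
    obtain ⟨u, u1, u2⟩ := h a y ⟨ha, mem_univ _⟩
    exact ⟨j, hj, u, ⟨u1.hol, fun a b x hx => u1.glue a b x ⟨hx.1, mem_univ _⟩⟩, a, y, ⟨ha, hy⟩, u2⟩
  obtain ⟨D, B, w, α, hF, w1, w2, w3, b1, b2, hv⟩ := hR n Y ι I m S ex k l η W σ g hL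
  have : (mf n Y).Cpt := ⟨‹_›, ‹_›, ‹_›⟩
  obtain ⟨A⟩ := hA n Y I S D hF hAm
  obtain ⟨X, x1, x2, -, -, x3, -⟩ := hC n _ I D A l m w hm w1 w2 w3
  obtain ⟨c, X', -, -, y1, y2, -, -, -, y3⟩ := hP n _ I D X _ x3 (hN n Y I G S _ D X hG hF hn)
  have ho : ∀ i, X'.o i = (l i / m : ℝ) := fun i => by rw [Cx.o, y1, y2, x1, x2]
  obtain ⟨P, hP'⟩ := hPB n Y ι I S W D hF hPu
  obtain ⟨a1, a2, a3, a4⟩ := hB n Y ι I m S ex k l η W σ g D hL hF hv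
  let R : Rx X' := ⟨k, M, ex, B, P, by exact_mod_cast hM, fun i => by rw [ho]; exact hc.lt i,
    fun i hi => by rw [ho]; exact hc.ge i hi, y3, fun b z hz => (b1 b).ge (b2 b z hz),
    fun b => by rw [b1]; exact (hP' _).1, fun b => by rw [b1]; exact (hP' _).2⟩
  have hQ : ∀ j : ℕ, R.Q j 0 = fun i => (j * k i : ℤ) := fun j => funext fun i => by
    simp only [Rx.Q, R, Nat.cast_zero, zero_mul, add_zero]
  have hW : ∀ b, (R.B b).W = W (α b) := b1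
  obtain ⟨j, hj, hg⟩ := hNA n _ I D X' R fun V v1 v2 v3 => by
    obtain ⟨j, hj, u, hu, a, y, hy, hne⟩ := h V v1 (fun y hy => a2 y (v2 hy)) (a1 V v3)
    obtain ⟨c1, c2, c3⟩ := a3 j V u hu
    obtain ⟨b, -, hb⟩ := Finset.exists_ne_zero_of_sum_ne_zero ((D.sum y).trans_ne one_ne_zero)
    have s := (D.supp b y hb).1
    have hy' : y ∈ W (α b) := by
      have q := b2 b (D.e b y) (D.tgt b ▸ (D.e b).map_source s)
      beta_reduce at q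
      rwa [(D.e b).left_inv s] at q
    refine ⟨j, hj, fun d x => u (α d) x / σ (α d) x ^ j, b, y, fun d => ?_, fun d d' => ?_,
      ⟨hy.2, (hW b).ge hy'⟩, ?_⟩
    · rw [hQ, hW]
      exact c1 _
    · rw [hQ, hW, hW]
      exact c2 _ _
    · rw [hQ]
      exact c3 a _ y ⟨hy.2, hy.1, hy'⟩ hne
  exact ⟨j, hj, a4 j (hQ j ▸ hg)⟩

end Pool.Agent.Lib.NA
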