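import Pool.Agent.Lib.NA.Blue

/-! Project NA: row LC1. -/

open scoped Classical Topology ContDiff ENNReal
open Set MeasureTheory Complex Metric Filter

noncomputable section

namespace Pool.Agent.Lib.NA

open Pool.Agent.Lib.SV (E)
open Pool.Agent.Lib.HS32 Pool.Agent.Lib.EX Pool.Agent.Lib.EXS Pool.Agent.Lib.ZL

namespace LC1

theorem fin_sum {Y κ : Type} [MeasurableSpace Y] (μ : Measure Y) (s : Finset κ) (f : κ → Y → ℝ)
    (h0 : ∀ i x, 0 ≤ f i x) (hm : ∀ i, AEMeasurable (f i) μ)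
    (h : ∀ i, ∫⁻ x, ENNReal.ofReal (f i x) ∂μ ≠ ⊤) :
    ∫⁻ x, ENNReal.ofReal (∑ i ∈ s, f i x) ∂μ ≠ ⊤ := by
  rw [lintegral_congr fun x => ENNReal.ofReal_sum_of_nonneg fun i _ => h0 i x,
    lintegral_finsetSum' s fun i _ => (hm i).ennreal_ofReal]
  exact ENNReal.sum_ne_top.2 fun i _ => h i

theorem fin_mul {Y : Type} [MeasurableSpace Y] (μ : Measure Y) {t : ℝ} (ht : 0 ≤ t) (f : Y → ℝ)
    (h : ∫⁻ x, ENNReal.ofReal (f x) ∂μ ≠ ⊤) : ∫⁻ x, ENNReal.ofReal (t * f x) ∂μ ≠ ⊤ := by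
  rw [lintegral_congr fun x => ENNReal.ofReal_mul ht,
    lintegral_const_mul' _ _ ENNReal.ofReal_ne_top]
  exact ENNReal.mul_ne_top ENNReal.ofReal_ne_top h

theorem nsq_add (a b : ℂ) : normSq (a + b) ≤ 2 * (normSq a + normSq b) := by
  simp only [normSq_apply, add_re, add_im]
  nlinarith [sq_nonneg (a.re - b.re), sq_nonneg (a.im - b.im)]

end LC1

open LC1 in
theorem nLC1 (hPW : ZL.St_PW) (hMU : ZL.St_MU) (hUPB : ZL.St_UPB) (hFIN : ZL.St_FIN)
    (hVAL : St_VAL) (hINT : St_INT) : St_LC1 := by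
  intro n M _ ι _ _ D X γ ψ C c₀ c₂ Q hγ hψ hC h02 htop
  obtain ⟨-, -, -, -, -, -, -, lsm, -, cont, hos⟩ := hPW n M ι D
  obtain ⟨-, meas, imono, -, -⟩ := hMU n M ι D X
  obtain ⟨u1, -, -, -, -, u6, -⟩ := hUPB n M ι D Q
  obtain ⟨V, hVf, hV⟩ := hFIN n M ι D Q
  obtain ⟨v1, -, v3, v4, -, v6, -, -, v9, -, v11, -⟩ := hVAL n M ι D
  obtain ⟨i1, -, -⟩ := hINT n M ι D X γ 0 ψ C hγ hC
  have hl : ∀ a, ContinuousOn (lw D a) (off D) := fun a => cont ℝ _ (lsm a)
  have s0 : ∀ F x, 0 ≤ sq D Q F x := fun F x => mul_nonneg (normSq_nonneg _) (Real.exp_pos _).le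
  have o0 : ∀ c x, 0 < om D γ ψ c x := fun c x => Real.exp_pos _
  have p0 : ∀ F c x, 0 ≤ sq D Q F x * om D γ ψ c x := fun F c x => mul_nonneg (s0 F x) (o0 c x).le
  have hm : ∀ F c, Mer D Q F → AEMeasurable (fun x => sq D Q F x * om D γ ψ c x) X.μ :=
    fun F c hF => meas ℝ _ <|
      ((continuous_normSq.comp_continuousOn (cont ℂ F (hos F (u1 F hF).1))).mul
        (Real.continuous_exp.comp_continuousOn (hl _))).mul
      (Real.continuous_exp.comp_continuousOn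
        ((continuousOn_const.mul ((cont ℝ ψ hψ).add (hl γ))).neg.sub (hl γ)))
  let S : ℝ → Submodule ℂ (M.X → ℂ) := fun c =>
    { carrier := {F | F ∈ V ∧ X.I (fun x => sq D Q F x * om D γ ψ c x) ≠ ⊤}
      zero_mem' := ⟨V.zero_mem, by simp [Cx.I, sq]⟩
      add_mem' := fun {F G} hF hG => ⟨V.add_mem hF.1 hG.1, by
        have k := fin_mul X.μ (t := 2) zero_le_two _ (fin_sum X.μ Finset.univ
          (fun (i : Bool) x => sq D Q (if i then F else G) x * om D γ ψ c x)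
          (fun i x => p0 _ c x)
          (fun i => hm _ c (by cases i; exacts [((hV G).1 hG.1).1, ((hV F).1 hF.1).1]))
          fun i => by cases i; exacts [hG.2, hF.2])
        refine ne_top_of_le_ne_top k (imono _ _ fun x _ => ?_)
        have e := mul_le_mul_of_nonneg_right (nsq_add (F x) (G x))
          (mul_pos (Real.exp_pos (lw D (fun i => Q i) x)) (o0 c x)).le
        simp only [Fintype.sum_bool, sq, Pi.add_apply, if_true, Bool.false_eq_true, if_false]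
        linarith⟩
      smul_mem' := fun t F hF => ⟨V.smul_mem t hF.1, by
        refine ne_top_of_le_ne_top (fin_mul X.μ (normSq_nonneg t) _ hF.2)
          (imono _ _ fun x _ => le_of_eq ?_)
        simp only [sq, Pi.smul_apply, smul_eq_mul, map_mul]
        ring⟩ }
  have hSV : ∀ c, S c ≤ V := fun c F hF => hF.1
  have hSf : ∀ c, FiniteDimensional ℂ (S c) := fun c => Submodule.finiteDimensional_of_le (hSV c)
  have anti : ∀ c c', c ≤ c' → S c' ≤ S c := fun c c' h F hF =>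
    ⟨hF.1, i1 c c' _ h (s0 F) hF.2⟩
  obtain ⟨c₁, ⟨h01, h12⟩, hmax⟩ : ∃ c₁ ∈ Ioc c₀ c₂, ∀ c ∈ Ioc c₀ c₂,
      Module.finrank ℂ (S c) ≤ Module.finrank ℂ (S c₁) := by
    have hb : ((fun c => Module.finrank ℂ (S c)) '' Ioc c₀ c₂).Finite :=
      (finite_Iic (Module.finrank ℂ V)).subset (by
        rintro _ ⟨c, -, rfl⟩
        exact Submodule.finrank_mono (hSV c))
    obtain ⟨_, ⟨c₁, h1, rfl⟩, h2⟩ := Set.exists_max_image _ id hb
      ⟨_, c₂, ⟨h02, le_rfl⟩, rfl⟩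
    exact ⟨c₁, h1, fun c hc => h2 _ ⟨c, hc, rfl⟩⟩
  have hle : ∀ c > c₀, S c ≤ S c₁ := fun c hc => by
    rcases le_total c₁ c with h | h
    · exact anti _ _ h
    · exact (Submodule.eq_of_le_of_finrank_le (anti _ _ h) (hmax c ⟨hc, h.trans h12⟩)).ge
  have := hSf c₁
  let b := Module.finBasis ℂ (S c₁)
  have hG : ∀ i, Mer D Q (b i : M.X → ℂ) := fun i => ((hV _).1 (b i).2.1).1
  have hvan : ∀ y, (∀ i, Van D Q (b i : M.X → ℂ) y) → ∀ F : S c₁, Van D Q (F : M.X → ℂ) y := by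
    intro y hy F
    have hF : F ∈ Submodule.span ℂ (range b) := b.mem_span F
    have mer : ∀ F : S c₁, MerOn D univ Q (F : M.X → ℂ) := fun F =>
      (v4 _ _).1 ((hV _).1 F.2.1).1
    have z0 : Van D Q (0 : M.X → ℂ) y := fun d _ =>
      (v1 (D.c d) Q (D.rd 0 d) 0 _ (Eventually.of_forall fun _ => differentiableAt_const _)
        (Eventually.of_forall fun w _ => by simp [Ad.rd])).self_of_nhds
    induction hF using Submodule.span_induction with
    | mem F h => obtain ⟨i, rfl⟩ := h; exact hy i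
    | zero => exact z0
    | add F G _ _ h1 h2 =>
      simpa using ((v6 univ Q _ _ 1 (mer F) (mer G)).2.2 y trivial).1 h1 h2
    | smul t F _ h =>
      simpa using ((v6 univ Q _ _ t (mer 0) (mer F)).2.2 y trivial).1 z0 h
  refine ⟨c₁, _, fun i => b i, h01, h12, hG, fun i => (b i).2.2, fun c hc H hH hI y hy => ?_,
    ?_, fun d => ⟨_, fun i => val (D.c d) Q (D.rd (b i : M.X → ℂ) d),
      fun i => (u6 _ _ (hG i d)).1, fun z hz => ⟨fun h i => ?_, fun h i => ?_⟩⟩⟩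
  · have hm' : (off D).indicator H ∈ S c := ⟨(hV _).2 (u1 H hH).2, ne_top_of_le_ne_top hI
      (imono _ _ fun x hx => by simp only [sq, indicator_of_mem hx, le_refl])⟩
    exact (v9 univ Q _ H fun x hx => (indicator_of_mem hx H).symm).2 y
      (hvan y hy ⟨_, hle c hc hm'⟩)
  · by_contra hne
    have k : ∀ y, ∃ c > (0 : ℝ), ∀ᶠ x in 𝓝 y, x ∈ off D →
        c ≤ ∑ i, sq D Q (b i : M.X → ℂ) x := fun y => by
      obtain ⟨i, hi⟩ : ∃ i, ¬ Van D Q (b i : M.X → ℂ) y := not_forall.1 fun h => hne ⟨y, h⟩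
      obtain ⟨c, hc, h⟩ := v11 univ Q _ ((v4 _ _).1 (hG i)) y trivial hi
      exact ⟨c, hc, h.mono fun x hx ho => (hx ho).trans
        (Finset.single_le_sum (f := fun i => sq D Q (b i : M.X → ℂ) x) (fun i _ => s0 _ x)
          (Finset.mem_univ i))⟩
    choose c hc hev using k
    obtain ⟨T, -, hT⟩ := isCompact_univ.elim_nhds_subcover
      (fun y => {x | x ∈ off D → c y ≤ ∑ i, sq D Q (b i : M.X → ℂ) x}) fun y _ => hev y
    have k := fin_mul X.μ (t := ∑ y ∈ T, (c y)⁻¹)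
      (Finset.sum_nonneg fun y _ => (inv_pos.2 (hc y)).le) _ (fin_sum X.μ Finset.univ
        (fun i x => sq D Q (b i : M.X → ℂ) x * om D γ ψ c₁ x) (fun i x => p0 _ _ x)
        (fun i => hm _ _ (hG i)) fun i => (b i).2.2)
    refine ne_top_of_le_ne_top k (imono _ _ fun x hx => ?_) (htop c₁ h01)
    obtain ⟨y, hy, hxy⟩ := mem_iUnion₂.1 (hT (mem_univ x))
    rw [← Finset.sum_mul, ← mul_assoc]
    refine le_mul_of_one_le_left (o0 _ x).le ?_
    calc (1 : ℝ) = (c y)⁻¹ * c y := (inv_mul_cancel₀ (hc y).ne').symm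
      _ ≤ _ := mul_le_mul (Finset.single_le_sum (f := fun y => (c y)⁻¹)
          (fun y _ => (inv_pos.2 (hc y)).le) hy) (hxy hx) (hc y).le
          (Finset.sum_nonneg fun y _ => (inv_pos.2 (hc y)).le)
  · have := h i d (GLU.mem_src d hz)
    rwa [GLU.rinv d hz] at this
  · refine v3 univ Q _ ((v4 _ _).1 (hG i)) _ trivial d (GLU.mem_src d hz) ?_
    rw [GLU.rinv d hz]
    exact h i

end Pool.Agent.Lib.NA
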