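import Pool.Agent.Lib.NA.SDefs
import Pool.Agent.Lib.ZL.SDefs

/-! Project na: the target statement. -/

open scoped Manifold ContDiff Topology

namespace Pool.Agent.Lib.NA

open Pool.Agent.Lib.SV Pool.Agent.Lib.HS Pool.Agent.Lib.GH Pool.Agent.Lib.KP Pool.Agent.Lib.EX
  Pool.Agent.Lib.ZL

/-- Semi-ample if and only if non-vanishing holds on the analytic subsets of the support. -/
def St_H4 : Prop := ∀ (n : ℕ) (Y ι I : Type) [TopologicalSpace Y] [ChartedSpace (E n) Y]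
  [IsManifold 𝓘(ℂ, E n) ω Y] [CompactSpace Y] [T2Space Y] [ConnectedSpace Y] [Fintype I]
  (G : Y → Mat n) (m M : ℕ) (D : I → Set Y) (ex : Set I) (k : I → ℕ) (l : I → ℤ) (η : Y → ℂ)
  (W : ι → Set Y) (σ : ι → Y → ℂ) (g : ι → ι → Y → ℂ),
  Hermitian G → 0 < m → 0 < M → LogRes n m D ex k l η W σ g → Amp n D → Pull n D W →
  Klt m M ex k l → Nef n G D (fun i => k i) →
  ((∃ j > 0, Gen n W (g ^ j) Set.univ) ↔
    ∀ V : Set Y, V.Nonempty → V ⊆ ⋃ i ∈ {i | 0 < k i}, D i → Ana n V →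
      ∃ j > 0, ∃ u, SecOn n W (g ^ j) V u ∧ ∃ a, ∃ y ∈ W a ∩ V, u a y ≠ 0)

end Pool.Agent.Lib.NA
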