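import Pool.Agent.Lib.NA.Defs
import Pool.Agent.Lib.NA.Stmt
import Pool.Agent.Lib.ZL.Blue2

/-! Project NA: the blueprint. -/

open scoped Classical Topology ContDiff ENNReal Manifold
open Set MeasureTheory Complex Metric Filter

noncomputable section

namespace Pool.Agent.Lib.NA

open Pool.Agent.Lib.SV (E)
open Pool.Agent.Lib.HS32 Pool.Agent.Lib.EX Pool.Agent.Lib.EXS Pool.Agent.Lib.ZL
open Pool.Agent.Lib.HS.BBR (mf)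

/-! ### Local analytic geometry -/

/-- The inequality of Łojasiewicz. -/
def St_LOJ1 : Prop := ∀ (n r : ℕ) (g : Fin r → E n → ℂ) (f : E n → ℂ) (x : E n),
  (∀ i, HolN (g i) x) → HolN f x → (∀ᶠ y in 𝓝 x, (∀ i, g i y = 0) → f y = 0) →
  ∃ (N : ℕ) (C : ℝ), ∀ᶠ y in 𝓝 x, ‖f y‖ ^ N ≤ C * ∑ i, ‖g i y‖

/-- Finitely many equations are enough. -/
def St_DCC1 : Prop := ∀ (n : ℕ) (τ : Type) (g : τ → E n → ℂ) (U : Set (E n)) (x : E n), IsOpen U →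
  x ∈ U → (∀ a, DifferentiableOn ℂ (g a) U) →
  ∃ S : Finset τ, ∀ᶠ y in 𝓝 x, (∀ a ∈ S, g a y = 0) → ∀ a, g a y = 0

/-- A divergent integral. -/
def St_NINT : Prop := ∀ (n : ℕ) (ι : Type) [Fintype ι] [DecidableEq ι] (c : ι → Option (Fin n))
  (a : ι → ℕ) (K : ℝ) (y : E n) (O : Set (E n)), ¬ Off c y → O ∈ 𝓝 y → n + ∑ i, (a i : ℝ) ≤ K →
  ∫⁻ z in O, ENNReal.ofReal (‖z - y‖ ^ (-(2 * K)) * xr c (fun i => a i) z) = ⊤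

/-! ### Kits -/

/-- Leading coefficients. -/
def St_VAL : Prop := ∀ (n : ℕ) (M : Mf n) [M.Cpt] (ι : Type) [Fintype ι] [DecidableEq ι]
  (D : Ad M ι),
  (∀ (c : ι → Option (Fin n)) (Q : ι → ℤ) (g s : E n → ℂ) (z : E n), HolN s z →
    (∀ᶠ y in 𝓝 z, Off c y → g y = xm c (-Q) y * s y) → ∀ᶠ y in 𝓝 z, val c Q g y = s y) ∧
  (∀ (c : ι → Option (Fin n)) (Q : ι → ℤ) (g : E n → ℂ) (z : E n), PolH c Q g z →
    HolN (val c Q g) z ∧ ∀ᶠ y in 𝓝 z, Off c y → g y = xm c (-Q) y * val c Q g y) ∧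
  (∀ W Q F, MerOn D W Q F → ∀ y ∈ W, ∀ d, y ∈ (D.e d).source →
    val (D.c d) Q (D.rd F d) (D.e d y) = 0 → Van D Q F y) ∧
  (∀ Q F, Mer D Q F ↔ MerOn D univ Q F) ∧
  (∀ W W' Q F, W' ⊆ W → MerOn D W Q F → MerOn D W' Q F) ∧
  (∀ W Q F G (t : ℂ), MerOn D W Q F → MerOn D W Q G → MerOn D W Q (F + t • G) ∧
    MerOn D W Q (F - G) ∧ ∀ y ∈ W, (Van D Q F y → Van D Q G y → Van D Q (F + t • G) y) ∧
      (Van D Q (F - G) y → (Van D Q F y ↔ Van D Q G y))) ∧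
  (∀ W P Q F G, MerOn D W P F → MerOn D W Q G → MerOn D W (P + Q) (F * G) ∧
    ∀ y ∈ W, (Van D (P + Q) (F * G) y ↔ Van D P F y ∨ Van D Q G y)) ∧
  (∀ W Q F (q : ℕ), MerOn D W Q F → MerOn D W (q • Q) (F ^ q) ∧
    ∀ y ∈ W, (Van D (q • Q) (F ^ q) y → Van D Q F y) ∧
      (0 < q → Van D Q F y → Van D (q • Q) (F ^ q) y)) ∧
  (∀ W Q F G, (∀ x ∈ off D, G x = F x) → (MerOn D W Q F → MerOn D W Q G) ∧
    ∀ y, Van D Q F y → Van D Q G y) ∧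
  (∀ W K Q F, IsCompact K → K ⊆ W → MerOn D W Q F → ∃ C, ∀ x ∈ K ∩ off D, sq D Q F x ≤ C) ∧
  (∀ W Q F, MerOn D W Q F → ∀ y ∈ W, ¬ Van D Q F y →
    ∃ c > (0 : ℝ), ∀ᶠ x in 𝓝 y, x ∈ off D → c ≤ sq D Q F x) ∧
  ∀ d, IsCompact (Kc D d)

/-- Poles along the exceptional components drop. -/
def St_EXB : Prop := ∀ (n : ℕ) (M : Mf n) [M.Cpt] (ι : Type) [Fintype ι] [DecidableEq ι]
  (D : Ad M ι) (X : Cx D) (R : Rx X),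
  (∀ P Q F, Mer D P F → Mer D Q F → Mer D (fun i => min (P i) (Q i)) F) ∧
  (∀ b p t, Triv D (R.B b).W (R.Q p t)) ∧
  (∀ W g, IsOpen W → Triv D W g → ∃ σ, MerOn D W (-g) σ ∧ MerOn D W g σ⁻¹ ∧
    (∀ x ∈ W ∩ off D, σ x ≠ 0) ∧ ∀ y ∈ W, ¬ Van D (-g) σ y ∧ ¬ Van D g σ⁻¹ y) ∧
  ∀ p t Q F, (∀ i ∉ R.ex, Q i ≤ R.Q p t i) → Mer D Q F → Mer D (R.Q p t) F

/-- The cut-off of a function that is holomorphic near the support of the cut-off function. -/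
def St_WGL : Prop := ∃ L : ℝ, 0 < L ∧ ∀ (n : ℕ) (M : Mf n) [M.Cpt] (ι : Type) [Fintype ι]
  [DecidableEq ι] (D : Ad M ι) (a b f : M.X → ℝ) (U : M.X → ℂ), Psh D a → Psh D b → Psh D f →
  (OA D fun d z => 1 ≤ D.rd a d z - D.rd b d z → HolN (D.rd U d) z) →
  SmO D (fun x => (ct (a x - b x) : ℂ) * U x) ∧ Dom D (fun x => (ct (a x - b x) : ℂ) * U x)
    (fun x => if 2 ≤ a x - b x ∧ a x - b x ≤ 3 then L * normSq (U x) else 0)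
    fun x => f x + Real.log (Real.exp (a x) + Real.exp (b x))

/-- Interpolation. -/
def St_INT : Prop := ∀ (n : ℕ) (M : Mf n) [M.Cpt] (ι : Type) [Fintype ι] [DecidableEq ι]
  (D : Ad M ι) (X : Cx D) (γ f : ι → ℝ) (ψ : M.X → ℝ) (C : ℝ), (∀ i, γ i - X.o i < 1) →
  (∀ x ∈ off D, ψ x ≤ C - lw D γ x) →
  (∀ c c' (h : M.X → ℝ), c ≤ c' → (∀ x, 0 ≤ h x) → X.I (fun x => h x * om D γ ψ c' x) ≠ ⊤ →
    X.I (fun x => h x * om D γ ψ c x) ≠ ⊤) ∧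
  (X.I (om D γ ψ 0) ≠ ⊤) ∧
  ∀ c₀ c : ℝ, 0 ≤ c₀ → c₀ < c → ∃ ε₀ > (0 : ℝ), ∃ ε₁ > (0 : ℝ), ∃ c', c₀ < c' ∧ c' ≤ c ∧
    ∀ (h : M.X → ℝ) (B : ℝ), (∀ x, 0 ≤ h x) → (∀ x ∈ off D, h x ≤ B) →
      X.I (fun x => h x * om D γ ψ c x * Real.exp (lw D (fun _ => ε₀) x)) ≠ ⊤ →
      X.I (fun x => h x * om D γ ψ c' x * Real.exp (-lw D (ε₁ • f) x)) ≠ ⊤

/-! ### Theorem Z with bounds on the exceptional poles -/

/-- Theorem Z on the pull-back of `K + Δ`. -/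
def St_ZR : Prop := ∀ (n : ℕ) (M : Mf n) [M.Cpt] (ι : Type) [Fintype ι] [DecidableEq ι]
  (D : Ad M ι) (X : Cx D) (R : Rx X), ∃ C ρ, Zf X R.γ C ρ

/-! ### The extension step -/

/-- The smooth lift. -/
def St_AVGX : Prop := ∀ (n : ℕ) (M : Mf n) [M.Cpt] (ι : Type) [Fintype ι] [DecidableEq ι]
  (D : Ad M ι) (X : Cx D) (P : ι → ℤ) (f : D.A → E n → ℂ),
  (D.All fun d z => PolH (D.c d) P (f d) z) →
  SmO D (D.avg f) ∧ (D.All fun d z => Pol (D.c d) P (D.rd (D.avg f) d) z) ∧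
  AEMeasurable (dif D f) X.μ ∧ (∀ x, 0 ≤ dif D f x) ∧ ∃ C, 0 ≤ C ∧
    Dom D (D.avg f) (fun x => C * dif D f x) X.α ∧
    (∀ x ∈ off D, dif D f x ≤ C * Real.exp (-lw D (fun i => P i) x)) ∧
    ∀ (h : ℂ) x, normSq (D.avg f x - h) ≤
      ∑ d, (Kc D d).indicator (fun y => normSq (f d (D.e d y) - h)) x

/-- The estimate. -/
def St_ESTX : Prop := ∀ (n : ℕ) (M : Mf n) [M.Cpt] (ι : Type) [Fintype ι] [DecidableEq ι]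
  (D : Ad M ι) (X : Cx D) (γ θ : ι → ℝ) (Z : Set ι) (c c' lam C B ε₀ : ℝ) (ρ : ℝ → M.X → ℝ)
  (ψ β : M.X → ℝ) (G : M.X → ℂ), 0 ≤ c → c < c' → 0 < lam → 0 < ε₀ → 0 ≤ B →
  Zf X γ C ρ → Psh D ψ → (∀ x ∈ off D, ψ x ≤ C - lw D γ x) →
  (∀ i ∉ Z, (c + lam) * γ i < θ i) → (∀ i ∈ Z, (c + lam) * γ i + 1 ≤ θ i) → SmO D G →
  (∀ x ∈ off D, normSq (G x) ≤ B * Real.exp (-lw D ((1 + c + lam) • γ) x)) →
  AEMeasurable β X.μ → (∀ x, 0 ≤ β x) →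
  (∀ x ∈ off D, β x ≤ B * Real.exp (-lw D ((1 + c + lam) • γ) x)) → Dom D G β X.α →
  X.I (fun x => β x * Real.exp (lw D ((1 + c + lam) • γ) x) * om D γ ψ c' x) ≠ ⊤ →
  ∀ η > (0 : ℝ), ∃ ε > (0 : ℝ), ε ≤ η ∧ ∃ F Γ : M.X → ℂ, HoO D F ∧
    (∀ x, normSq (Γ x) ≤ normSq (G x)) ∧
    X.I (fun x => normSq (G x - F x) * Real.exp (lw D θ x)) ≠ ⊤ ∧
    X.I (fun x => ε * normSq (Γ x - F x) *
      Real.exp (lw D (fun i => θ i - (1 - ε) * ind Z i) x)) ≤ ENNReal.ofReal η ∧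
    X.I (fun x => normSq (G x - F x) * (Real.exp (lw D ((1 + c + lam) • γ) x) * om D γ ψ c x *
      Real.exp (lw D (fun _ => ε₀) x))) ≠ ⊤

/-- A limit of sections with small residues inside an affine space. -/
def St_CLOX : Prop := ∀ (n : ℕ) (M : Mf n) [M.Cpt] (ι : Type) [Fintype ι] [DecidableEq ι]
  (D : Ad M ι) (Q : ι → ℤ) (Z : Set ι) (F : ℕ → M.X → ℂ) (S : Submodule ℂ (M.X → ℂ)),
  (∀ ν, Mer D Q (F ν)) → (∀ ν, (off D).indicator (F ν - F 0) ∈ S) →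
  (D.All fun d z => ∀ i ∈ Z, xi (D.c d) i z = 0 → (∀ l ≠ i, xi (D.c d) l z ≠ 0) →
    Tendsto (fun ν => val (D.c d) Q (D.rd (F ν) d) z) atTop (𝓝 0)) →
  ∃ G : M.X → ℂ, Mer D (Q - ind Z) G ∧ (off D).indicator (G - F 0) ∈ S

/-- From the estimate to the section. -/
def St_LFTX : Prop := ∀ (n : ℕ) (M : Mf n) [M.Cpt] (ι : Type) [Fintype ι] [DecidableEq ι]
  (D : Ad M ι) (X : Cx D) (P R : ι → ℤ) (Z : Set ι) (G : M.X → ℂ) (W : M.X → ℝ), P ≤ R →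
  (∀ i ∈ Z, P i < R i) → (D.All fun d z => Pol (D.c d) P (D.rd G d) z) →
  ContinuousOn W (off D) → (∀ x, 0 ≤ W x) →
  (∀ η > (0 : ℝ), ∃ ε > (0 : ℝ), ε ≤ η ∧ ∃ F Γ : M.X → ℂ, HoO D F ∧
    (∀ x, normSq (Γ x) ≤ normSq (G x)) ∧
    X.I (fun x => normSq (G x - F x) * Real.exp (lw D (fun i => R i - X.o i) x)) ≠ ⊤ ∧
    X.I (fun x => ε * normSq (Γ x - F x) *
      Real.exp (lw D (fun i => R i - X.o i - (1 - ε) * ind Z i) x)) ≤ ENNReal.ofReal η ∧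
    X.I (fun x => normSq (G x - F x) * W x) ≠ ⊤) →
  ∃ F : M.X → ℂ, Mer D (R - ind Z) F ∧ X.I (fun x => normSq (G x - F x) * W x) ≠ ⊤

/-- The extension step. -/
def St_EX2 : Prop := ∀ (n : ℕ) (M : Mf n) [M.Cpt] (ι : Type) [Fintype ι] [DecidableEq ι]
  (D : Ad M ι) (X : Cx D) (R : Rx X) (ψ : M.X → ℝ) (m : ℕ) (c c' ε₀ : ℝ) (f : D.A → E n → ℂ),
  R.Wt ψ → 0 ≤ c → c < c' → c + 1 < m * R.N → 0 < ε₀ →
  (D.All fun d z => PolH (D.c d) (R.Q m 0) (f d) z) →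
  X.I (fun x => dif D f x * Real.exp (lw D (fun i => R.Q m 0 i) x) * om D R.γ ψ c' x) ≠ ⊤ →
  ∃ F, Mer D (R.Q m 0) F ∧ X.I (fun x => sq D (R.Q m 0) (D.avg f - F) x * om D R.γ ψ c x *
    Real.exp (lw D (fun _ => ε₀) x)) ≠ ⊤

/-! ### Peak sections along a fibre -/

/-- The weights with a pole along a fibre. -/
def St_PK0 : Prop := ∀ (n : ℕ) (M : Mf n) [M.Cpt] (ι : Type) [Fintype ι] [DecidableEq ι]
  (D : Ad M ι) (P : Pb D), ∃ (g : M.X → ℝ) (C : ℝ), Psh D g ∧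
    (∀ x ∈ off D, |g x + lw D (fun i => P.a i) x| ≤ C) ∧
    (∀ y, ∃ T, Mer D (fun i => P.a i) T ∧ ¬ Van D (fun i => P.a i) T y) ∧
    ∀ (W : Set M.X) (x : M.X), IsOpen W → (∀ y, P.φ y = P.φ x → y ∈ W) → x ∉ off D →
      ∃ (T : M.X → ℂ) (b : M.X → ℝ) (K : Set M.X) (s C' : ℝ), Mer D (fun i => P.a i) T ∧
        ¬ Van D (fun i => P.a i) T x ∧ Psh D b ∧ IsCompact K ∧ K ⊆ W ∧
        (∀ y ∈ off D, b y ≤ g y + C' ∧ (1 ≤ g y + s - b y → y ∈ K)) ∧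
        ∃ d, x ∈ (D.e d).source ∧ ∀ᶠ z in 𝓝 (D.e d x), Off (D.c d) z →
          3 ≤ D.rd g d z + s - D.rd b d z ∧
          Real.exp (D.rd b d z - D.rd g d z) ≤ C' * ‖z - D.e d x‖ ^ 2

/-- Peak sections. -/
def St_PKV : Prop := ∀ (n : ℕ) (M : Mf n) [M.Cpt] (ι : Type) [Fintype ι] [DecidableEq ι]
  (D : Ad M ι) (X : Cx D) (R : Rx X), ∃ (t : ℕ) (f : ι → ℝ), ∀ b, ∀ x ∈ (R.B b).W, x ∉ off D →
    ∃ K, IsCompact K ∧ K ⊆ (R.B b).W ∧ ∀ (ψ : M.X → ℝ) (c ε : ℝ) (p m : ℕ) (h : M.X → ℂ),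
      R.Wt ψ → 0 ≤ c → c + 1 ≤ p * R.N → 0 < ε → MerOn D (R.B b).W (R.Q m 0) h →
      X.I (fun y => K.indicator (sq D (R.Q m 0) h) y * om D R.γ ψ c y *
        Real.exp (-lw D (ε • f) y)) ≠ ⊤ → ¬ Van D (R.Q m 0) h x →
      ∃ G, Mer D (R.Q p t) G ∧ X.I (fun y => sq D (R.Q p t) G y * om D R.γ ψ c y) ≠ ⊤ ∧
        ¬ Van D (R.Q p t) G x

/-! ### The locus of non-integrability -/

/-- Functions that vanish on the locus. -/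
def St_IDL : Prop := ∀ (n : ℕ) (M : Mf n) [M.Cpt] (ι : Type) [Fintype ι] [DecidableEq ι]
  (D : Ad M ι) (X : Cx D) (γ : ι → ℝ) (ψ : M.X → ℝ) (C c₀ c₁ : ℝ) (P Q : ι → ℤ) (r : ℕ)
  (G : Fin r → M.X → ℂ) (K W : Set M.X) (h : M.X → ℂ), (∀ i, γ i - X.o i < 1) → SmO D ψ →
  (∀ x ∈ off D, ψ x ≤ C - lw D γ x) → c₀ < c₁ →
  (∀ η > 0, ∃ c, c₀ - η < c ∧ X.I (om D γ ψ c) ≠ ⊤) → (∀ i, Mer D Q (G i)) →
  (∀ i, X.I (fun x => sq D Q (G i) x * om D γ ψ c₁ x) ≠ ⊤) → IsCompact K → IsOpen W → K ⊆ W →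
  MerOn D W P h → (∀ y ∈ W, (∀ i, Van D Q (G i) y) → Van D P h y) →
  ∃ c' > c₀, X.I (fun x => K.indicator (sq D P h) x * om D γ ψ c' x) ≠ ⊤

/-- The stable base locus. -/
def St_STB : Prop := ∀ (n : ℕ) (M : Mf n) [M.Cpt] (ι : Type) [Fintype ι] [DecidableEq ι]
  (D : Ad M ι) (X : Cx D) (R : Rx X), ∃ j > 0, ∃ (r : ℕ) (s : Fin r → M.X → ℂ),
    (∀ i, Mer D (R.Q j 0) (s i)) ∧ (∃ i, s i = 1) ∧ ∀ y, (∀ i, Van D (R.Q j 0) (s i) y) →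
      y ∈ Spt D R.k ∧ ∀ m > 0, ∀ F, Mer D (R.Q m 0) F → Van D (R.Q m 0) F y

/-- The weight of a linear system and its threshold. -/
def St_LC0 : Prop := ∀ (n : ℕ) (M : Mf n) [M.Cpt] (ι : Type) [Fintype ι] [DecidableEq ι]
  (D : Ad M ι) (X : Cx D) (R : Rx X) (j r : ℕ) (s : Fin r → M.X → ℂ) (y : M.X), 0 < j →
  (∀ i, Mer D (R.Q j 0) (s i)) → (∃ i, s i = 1) → (∀ i, Van D (R.Q j 0) (s i) y) → y ∉ off D →
  ∃ (ψ : M.X → ℝ) (c₀ : ℝ), R.Wt ψ ∧ 0 ≤ c₀ ∧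
    (∀ η > 0, ∃ c, c₀ - η < c ∧ X.I (om D R.γ ψ c) ≠ ⊤) ∧ (∀ c > c₀, X.I (om D R.γ ψ c) = ⊤) ∧
    ∀ (i : Fin r) (q : ℕ) (c : ℝ), c ≤ q * j * R.N →
      X.I (fun x => sq D (R.Q (q * j) 0) (s i ^ q) x * om D R.γ ψ c x) ≠ ⊤

/-- The locus. -/
def St_LC1 : Prop := ∀ (n : ℕ) (M : Mf n) [M.Cpt] (ι : Type) [Fintype ι] [DecidableEq ι]
  (D : Ad M ι) (X : Cx D) (γ : ι → ℝ) (ψ : M.X → ℝ) (C c₀ c₂ : ℝ) (Q : ι → ℤ),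
  (∀ i, γ i - X.o i < 1) → SmO D ψ → (∀ x ∈ off D, ψ x ≤ C - lw D γ x) → c₀ < c₂ →
  (∀ c > c₀, X.I (om D γ ψ c) = ⊤) →
  ∃ (c₁ : ℝ) (r : ℕ) (G : Fin r → M.X → ℂ), c₀ < c₁ ∧ c₁ ≤ c₂ ∧ (∀ i, Mer D Q (G i)) ∧
    (∀ i, X.I (fun x => sq D Q (G i) x * om D γ ψ c₁ x) ≠ ⊤) ∧
    (∀ c > c₀, ∀ H, Mer D Q H → X.I (fun x => sq D Q H x * om D γ ψ c x) ≠ ⊤ →
      ∀ y, (∀ i, Van D Q (G i) y) → Van D Q H y) ∧
    {y | ∀ i, Van D Q (G i) y}.Nonempty ∧ An D {y | ∀ i, Van D Q (G i) y}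

/-- Powers of a section over `V`. -/
def St_PWR : Prop := ∀ (n : ℕ) (M : Mf n) [M.Cpt] (ι : Type) [Fintype ι] [DecidableEq ι]
  (D : Ad M ι) (X : Cx D) (R : Rx X) (V : Set M.X) (m q : ℕ) (f : D.A → M.X → ℂ) (b : D.A)
  (x : M.X), R.Sc V m f b x → R.Sc V (q * m) (fun d => f d ^ q) b x

/-- One step: a global section that is not zero at a point of the locus. -/
def St_ONE : Prop := ∀ (n : ℕ) (M : Mf n) [M.Cpt] (ι : Type) [Fintype ι] [DecidableEq ι]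
  (D : Ad M ι) (X : Cx D) (R : Rx X), ∃ t : ℕ, ∀ (ψ : M.X → ℝ) (c₀ c₁ : ℝ) (p m r : ℕ)
    (G : Fin r → M.X → ℂ) (f : D.A → M.X → ℂ) (b : D.A) (x : M.X), R.Wt ψ → 0 ≤ c₀ → c₀ < c₁ →
    c₁ + 1 ≤ p * R.N → c₁ + 1 < m * R.N →
    (∀ η > 0, ∃ c, c₀ - η < c ∧ X.I (om D R.γ ψ c) ≠ ⊤) → (∀ i, Mer D (R.Q p t) (G i)) →
    (∀ i, X.I (fun y => sq D (R.Q p t) (G i) y * om D R.γ ψ c₁ y) ≠ ⊤) →
    (∀ c > c₀, ∀ H, Mer D (R.Q p t) H → X.I (fun y => sq D (R.Q p t) H y * om D R.γ ψ c y) ≠ ⊤ →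
      Van D (R.Q p t) H x) →
    R.Sc {y | ∀ i, Van D (R.Q p t) (G i) y} m f b x → x ∉ off D →
    ∃ F, Mer D (R.Q m 0) F ∧ ¬ Van D (R.Q m 0) F x

/-- The theorem on the manifold layer. -/
def St_NA : Prop := ∀ (n : ℕ) (M : Mf n) [M.Cpt] (ι : Type) [Fintype ι] [DecidableEq ι]
  (D : Ad M ι) (X : Cx D) (R : Rx X), R.Nv → ∃ j > 0, Gens D (R.Q j 0)

/-! ### The bridge -/

/-- The morphism to a projective space on the manifold layer. -/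
def St_PBB : Prop := ∀ (n : ℕ) (Y ι I : Type) [TopologicalSpace Y] [ChartedSpace (E n) Y]
  [IsManifold 𝓘(ℂ, E n) ω Y] [Fintype I] [DecidableEq I] (S : I → Set Y) (W : ι → Set Y)
  (D : Ad (mf n Y) I), D.Fit S → Pull n S W → ∃ P : Pb D, ∀ a,
    (∀ x ∈ W a, ∀ y, P.φ y = P.φ x → y ∈ W a) ∧ Triv D (W a) fun i => P.a i

/-- Analytic sets, supports, sections over `V` and generation. -/
def St_BR4 : Prop := ∀ (n : ℕ) (Y ι I : Type) [TopologicalSpace Y] [ChartedSpace (E n) Y]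
  [IsManifold 𝓘(ℂ, E n) ω Y] [CompactSpace Y] [T2Space Y] [ConnectedSpace Y] [Fintype I]
  [DecidableEq I] (m : ℕ) (S : I → Set Y) (ex : Set I) (k : I → ℕ) (l : I → ℤ) (η : Y → ℂ)
  (W : ι → Set Y) (σ : ι → Y → ℂ) (g : ι → ι → Y → ℂ) (D : Ad (mf n Y) I),
  LogRes n m S ex k l η W σ g → D.Fit S →
  (∀ a, ∃ v : D.A → E n → ℂ, D.On (W a) fun d z =>
    HolN (v d) z ∧ v d z ≠ 0 ∧ D.rd (σ a) d z = v d z * xm (D.c d) (fun i => k i) z) →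
  (∀ V : Set Y, An D V → Ana n V) ∧ (∀ y : Y, y ∈ Spt D k → y ∈ ⋃ i ∈ {i | 0 < k i}, S i) ∧
  (∀ (j : ℕ) (V : Set Y) (u : ι → Y → ℂ), SecOn n W (g ^ j) V u →
    (∀ a, MerOn D (W a) (fun i => j * k i) fun x => u a x / σ a x ^ j) ∧
    (∀ a a', ∀ y ∈ V ∩ (W a ∩ W a'), Van D (fun i => j * k i)
      ((fun x => u a x / σ a x ^ j) - fun x => u a' x / σ a' x ^ j) y) ∧
    ∀ a a', ∀ y ∈ V ∩ (W a ∩ W a'), u a y ≠ 0 →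
      ¬ Van D (fun i => j * k i) (fun x => u a' x / σ a' x ^ j) y) ∧
  ∀ j : ℕ, Gens D (fun i => j * k i) → Gen n W (g ^ j) univ

end Pool.Agent.Lib.NA
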