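import Pool.Agent.Lib.NA.Blue
import Pool.Agent.Lib.NA.Stmt2

/-! Project NA: the blueprint of the second form. -/

open scoped Classical Topology ContDiff ENNReal Manifold
open Set MeasureTheory Complex Metric Filter

noncomputable section

namespace Pool.Agent.Lib.NA

open Pool.Agent.Lib.SV (E)
open Pool.Agent.Lib.HS32 Pool.Agent.Lib.EX Pool.Agent.Lib.EXS Pool.Agent.Lib.ZL
open Pool.Agent.Lib.HS.BBR (mf)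

section

variable {n : ℕ} {M : Mf n} {ι : Type} [Fintype ι] [DecidableEq ι] {D : Ad M ι}

/-- Integrable near `y`. -/
def Li (X : Cx D) (f : M.X → ℝ) (y : M.X) : Prop := ∃ O ∈ 𝓝 y, X.I (O.indicator f) ≠ ⊤

/-- The points at which the threshold is at most `c₀`. -/
def Nk (X : Cx D) (γ : ι → ℝ) (ψ : M.X → ℝ) (c₀ : ℝ) : Set M.X :=
  {y | ∀ c > c₀, ¬ Li X (om D γ ψ c) y}

/-- The weight of a linear system. -/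
def lps {Y : Type} (N : ℝ) {r : ℕ} (s : Fin r → Y → ℂ) (x : Y) : ℝ :=
  Real.log (∑ i, normSq (s i x)) / N

/-- Non-vanishing on the loci of non-integrability. -/
def Rx.Nw {X : Cx D} (R : Rx X) : Prop := ∀ (j r : ℕ) (s : Fin r → M.X → ℂ) (c₀ : ℝ), 0 < j →
  (∀ i, Mer D (R.Q j 0) (s i)) → (∃ i, s i = 1) →
  (∀ c < c₀, X.I (om D R.γ (lps (j * R.N) s) c) ≠ ⊤) → (Nk X R.γ (lps (j * R.N) s) c₀).Nonempty →
  ∃ m > 0, ∃ f b, ∃ x ∈ Nk X R.γ (lps (j * R.N) s) c₀,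
    R.Sc (R.P.φ ⁻¹' (R.P.φ '' Nk X R.γ (lps (j * R.N) s) c₀)) m f b x

end

/-- The weight of a linear system and its threshold, with the formula. -/
def St_LC0x : Prop := ∀ (n : ℕ) (M : Mf n) [M.Cpt] (ι : Type) [Fintype ι] [DecidableEq ι]
  (D : Ad M ι) (X : Cx D) (R : Rx X) (j r : ℕ) (s : Fin r → M.X → ℂ) (y : M.X), 0 < j →
  (∀ i, Mer D (R.Q j 0) (s i)) → (∃ i, s i = 1) → (∀ i, Van D (R.Q j 0) (s i) y) → y ∉ off D →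
  ∃ (ψ : M.X → ℝ) (c₀ : ℝ), (∀ x ∈ off D, ψ x = Real.log (∑ i, normSq (s i x)) / (j * R.N)) ∧
    R.Wt ψ ∧ 0 ≤ c₀ ∧
    (∀ η > 0, ∃ c, c₀ - η < c ∧ X.I (om D R.γ ψ c) ≠ ⊤) ∧ (∀ c > c₀, X.I (om D R.γ ψ c) = ⊤) ∧
    ∀ (i : Fin r) (q : ℕ) (c : ℝ), c ≤ q * j * R.N →
      X.I (fun x => sq D (R.Q (q * j) 0) (s i ^ q) x * om D R.γ ψ c x) ≠ ⊤

/-- Peak sections, with the support in a given neighbourhood of the fibre. -/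
def St_PKVx : Prop := ∀ (n : ℕ) (M : Mf n) [M.Cpt] (ι : Type) [Fintype ι] [DecidableEq ι]
  (D : Ad M ι) (X : Cx D) (R : Rx X), ∃ (t : ℕ) (f : ι → ℝ), ∀ b, ∀ x ∈ (R.B b).W, x ∉ off D →
    ∀ O, IsOpen O → (∀ y, R.P.φ y = R.P.φ x → y ∈ O) →
    ∃ K, IsCompact K ∧ K ⊆ O ∩ (R.B b).W ∧ ∀ (ψ : M.X → ℝ) (c ε : ℝ) (p m : ℕ) (h : M.X → ℂ),
      R.Wt ψ → 0 ≤ c → c + 1 ≤ p * R.N → 0 < ε → MerOn D (R.B b).W (R.Q m 0) h →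
      X.I (fun y => K.indicator (sq D (R.Q m 0) h) y * om D R.γ ψ c y *
        Real.exp (-lw D (ε • f) y)) ≠ ⊤ → ¬ Van D (R.Q m 0) h x →
      ∃ G, Mer D (R.Q p t) G ∧ X.I (fun y => sq D (R.Q p t) G y * om D R.γ ψ c y) ≠ ⊤ ∧
        ¬ Van D (R.Q p t) G x

/-- One step, and the description of the locus. -/
def St_ONEx : Prop := ∀ (n : ℕ) (M : Mf n) [M.Cpt] (ι : Type) [Fintype ι] [DecidableEq ι]
  (D : Ad M ι) (X : Cx D) (R : Rx X), ∃ t : ℕ, (∀ (ψ : M.X → ℝ) (c₀ c₁ : ℝ) (p m r : ℕ)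
    (G : Fin r → M.X → ℂ) (f : D.A → M.X → ℂ) (b : D.A) (x : M.X), R.Wt ψ → 0 ≤ c₀ → c₀ < c₁ →
    c₁ + 1 ≤ p * R.N → c₁ + 1 < m * R.N →
    (∀ η > 0, ∃ c, c₀ - η < c ∧ X.I (om D R.γ ψ c) ≠ ⊤) → (∀ i, Mer D (R.Q p t) (G i)) →
    (∀ i, X.I (fun y => sq D (R.Q p t) (G i) y * om D R.γ ψ c₁ y) ≠ ⊤) →
    (∀ c > c₀, ∀ H, Mer D (R.Q p t) H → X.I (fun y => sq D (R.Q p t) H y * om D R.γ ψ c y) ≠ ⊤ →
      Van D (R.Q p t) H x) →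
    R.Sc {y | ∀ i, Van D (R.Q p t) (G i) y} m f b x → x ∉ off D →
    ∃ F, Mer D (R.Q m 0) F ∧ ¬ Van D (R.Q m 0) F x) ∧
  ∀ (ψ : M.X → ℝ) (c₀ c₁ : ℝ) (p : ℕ) (x : M.X), R.Wt ψ → 0 ≤ c₀ → c₀ < c₁ → c₁ + 1 ≤ p * R.N →
    (∀ c > c₀, ∀ H, Mer D (R.Q p t) H → X.I (fun y => sq D (R.Q p t) H y * om D R.γ ψ c y) ≠ ⊤ →
      Van D (R.Q p t) H x) → x ∉ off D → x ∈ R.P.φ ⁻¹' (R.P.φ '' Nk X R.γ ψ c₀)

/-- The theorem on the manifold layer. -/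
def St_NAx : Prop := ∀ (n : ℕ) (M : Mf n) [M.Cpt] (ι : Type) [Fintype ι] [DecidableEq ι]
  (D : Ad M ι) (X : Cx D) (R : Rx X), R.Nw → ∃ j > 0, Gens D (R.Q j 0)

/-- The morphism to a projective space on the manifold layer. -/
def St_PBBx : Prop := ∀ (n : ℕ) (Y ι I : Type) [TopologicalSpace Y] [ChartedSpace (E n) Y]
  [IsManifold 𝓘(ℂ, E n) ω Y] [Fintype I] [DecidableEq I] (S : I → Set Y) (W : ι → Set Y)
  (D : Ad (mf n Y) I) (r : ℕ) (φ : Y → Submodule ℂ (E r)), D.Fit S → Mor n S W φ →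
  ∃ P : Pb D, (∀ x y : Y, P.φ x = P.φ y ↔ φ x = φ y) ∧ ∀ a,
    (∀ x ∈ W a, ∀ y, P.φ y = P.φ x → y ∈ W a) ∧ Triv D (W a) fun i => P.a i

/-- Local integrals in the preferred chart. -/
def St_LOC : Prop := ∀ (n : ℕ) (Y I : Type) [TopologicalSpace Y] [ChartedSpace (E n) Y]
  [IsManifold 𝓘(ℂ, E n) ω Y] [CompactSpace Y] [T2Space Y] [ConnectedSpace Y] [Fintype I]
  [DecidableEq I] (S : I → Set Y) (D : Ad (mf n Y) I) (X : Cx D) (y : Y), D.Fit S →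
  (∀ (Φ f : Y → ℝ) (C : ℝ), 0 ≤ C →
    (∀ᶠ x in 𝓝 y, x ∈ off D → Φ x ≤ C * (f x * Real.exp (lw D X.o x))) → Li X f y →
    ∃ V ∈ 𝓝 (chartAt (E n) y y), ∫⁻ z in V, ENNReal.ofReal (Φ ((chartAt (E n) y).symm z)) < ⊤) ∧
  (∀ (Φ f : Y → ℝ) (C : ℝ), 0 ≤ C →
    (∀ᶠ x in 𝓝 y, x ∈ off D → f x * Real.exp (lw D X.o x) ≤ C * Φ x) →
    (∃ V ∈ 𝓝 (chartAt (E n) y y), ∫⁻ z in V, ENNReal.ofReal (Φ ((chartAt (E n) y).symm z)) < ⊤) →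
    Li X f y) ∧
  ∀ (h : I → Y → ℂ) (a : I → ℝ), Eqs n S y h → ∃ C, ∀ᶠ x in 𝓝 y, x ∈ off D →
    (∀ i, h i x ≠ 0) ∧ |∑ i, a i * Real.log (normSq (h i x)) - lw D a x| ≤ C

/-- Linear systems and their densities. -/
def St_BR5 : Prop := ∀ (n : ℕ) (Y ι I : Type) [TopologicalSpace Y] [ChartedSpace (E n) Y]
  [IsManifold 𝓘(ℂ, E n) ω Y] [CompactSpace Y] [T2Space Y] [ConnectedSpace Y] [Fintype I]
  [DecidableEq I] (m M : ℕ) (S : I → Set Y) (ex : Set I) (k : I → ℕ) (l : I → ℤ) (η : Y → ℂ)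
  (W : ι → Set Y) (σ : ι → Y → ℂ) (g : ι → ι → Y → ℂ) (D : Ad (mf n Y) I) (X : Cx D),
  LogRes n m S ex k l η W σ g → D.Fit S →
  (∀ a, ∃ v : D.A → E n → ℂ, D.On (W a) fun d z =>
    HolN (v d) z ∧ v d z ≠ 0 ∧ D.rd (σ a) d z = v d z * xm (D.c d) (fun i => k i) z) →
  0 < M → (∀ i, X.o i = (l i / m : ℝ)) →
  ∀ (j q : ℕ) (F : Fin q → Y → ℂ), 0 < j → (∀ b, Mer D (fun i => j * k i) (F b)) →
    (∃ b, F b = 1) → ∃ s : Fin q → ι → Y → ℂ, (∀ b, SecOn n W (g ^ j) univ (s b)) ∧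
      (∃ b, s b = σ ^ j) ∧ ∀ (c : ℝ) (y : Y), Itg n S (fun i => k i / M - l i / m) W s c y ↔
        Li X (om D (fun i => k i / M) (lps (j * M) F) (c * (j * M))) y

end Pool.Agent.Lib.NA
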