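import Pool.Agent.Lib.ZX.Blue

/-! Project NA: the objects. -/

open scoped Classical Topology ContDiff ENNReal
open Set MeasureTheory Complex Metric Filter

set_option linter.unusedVariables false

noncomputable section

namespace Pool.Agent.Lib.NA

open Pool.Agent.Lib.SV (E)
open Pool.Agent.Lib.HS32 Pool.Agent.Lib.EX Pool.Agent.Lib.EXS Pool.Agent.Lib.ZL

variable {n : ℕ} {M : Mf n} {ι : Type} [Fintype ι] [DecidableEq ι] (D : Ad M ι)

/-- The leading coefficient of `F`, as a function with poles at most `Q`, vanishes at `y`. -/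
def Van (Q : ι → ℤ) (F : M.X → ℂ) (y : M.X) : Prop :=
  ∀ d, y ∈ (D.e d).source → val (D.c d) Q (D.rd F d) (D.e d y) = 0

/-- Meromorphic on `W` with poles at most `Q`. -/
def MerOn (W : Set M.X) (Q : ι → ℤ) (F : M.X → ℂ) : Prop :=
  D.On W fun d z => PolH (D.c d) Q (D.rd F d) z

/-- The divisor with coefficients `g` is principal on `W`. -/
def Triv (W : Set M.X) (g : ι → ℤ) : Prop := ∃ (σ : M.X → ℂ) (v : D.A → E n → ℂ),
  D.On W fun d z => HolN (v d) z ∧ v d z ≠ 0 ∧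
    (Off (D.c d) z → D.rd σ d z = v d z * xm (D.c d) g z)

/-- The closed unit polydisc of a chart. -/
def Kc (d : D.A) : Set M.X := {x | x ∈ (D.e d).source ∧ ‖D.e d x‖ ≤ 1}

/-- The size of the differences of local functions. -/
def dif (f : D.A → E n → ℂ) (x : M.X) : ℝ := ∑ d, ∑ b,
  (Kc D d ∩ Kc D b).indicator (fun y => normSq (f d (D.e d y) - f b (D.e b y))) x

/-- An analytic set with finitely many equations on each chart. -/
def An (V : Set M.X) : Prop := ∀ d, ∃ (r : ℕ) (g : Fin r → E n → ℂ),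
  (∀ i, DifferentiableOn ℂ (g i) (B2 n)) ∧ ∀ z ∈ B2 n, (D.e d).symm z ∈ V ↔ ∀ i, g i z = 0

/-- The support of the divisor with coefficients `k`. -/
def Spt (k : ι → ℕ) : Set M.X :=
  {y | ∃ i, 0 < k i ∧ ∃ d, y ∈ (D.e d).source ∧ xi (D.c d) i (D.e d y) = 0}

/-- The density of the boundary times a power of the singular weight `ψ`. -/
def om (γ : ι → ℝ) (ψ : M.X → ℝ) (c : ℝ) (x : M.X) : ℝ :=
  Real.exp (-(c * (ψ x + lw D γ x)) - lw D γ x)

/-- The squared norm of a section with poles at most `Q`. -/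
def sq (Q : ι → ℤ) (F : M.X → ℂ) (x : M.X) : ℝ :=
  normSq (F x) * Real.exp (lw D (fun i => Q i) x)

/-- A morphism to a projective space given by functions with poles at most `a`. -/
structure Pb where
  r : ℕ
  a : ι → ℕ
  τ : M.X → E r
  t : D.A → E n → E r
  φ : M.X → Submodule ℂ (E r)
  apos : ∀ i, 0 < a i
  thol : D.All fun d z => HolN (t d) z ∧ t d z ≠ 0 ∧ D.rd φ d z = ℂ ∙ t d z ∧
    (Off (D.c d) z → D.rd τ d z = xm (D.c d) (-fun i => (a i : ℤ)) z • t d z)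

variable {D}

/-- A family of weights on the class `γ` with uniformly small singularities. -/
def Zf (X : Cx D) (γ : ι → ℝ) (C : ℝ) (ρ : ℝ → M.X → ℝ) : Prop :=
  (∀ ε > 0, X.Cl γ C ε (ρ ε)) ∧ ∀ s > (0 : ℝ), ∃ A : ℝ, ∃ ε₁ > (0 : ℝ), ∀ ε > 0,
    ε ≤ ε₁ → X.I (fun x => Real.exp (-((1 + s) * lw D γ x) - s * ρ ε x)) ≤ ENNReal.ofReal A

/-- A log resolution of a projective klt pair with nef and effective `K + Δ = k / N`. -/
structure Rx (X : Cx D) where
  k : ι → ℕ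
  N : ℝ
  ex : Set ι
  B : D.A → Bl D k ex
  P : Pb D
  N1 : 1 ≤ N
  klt : ∀ i, k i / N - X.o i < 1
  eff : ∀ i ∉ ex, 0 ≤ k i / N - X.o i
  gen : ∀ j : ℕ, Gens D fun i => j * k i + X.e i
  sub : D.All fun b z => (D.e b).symm z ∈ (B b).W
  sat : ∀ b, ∀ x ∈ (B b).W, ∀ y, P.φ y = P.φ x → y ∈ (B b).W
  tri : ∀ b, Triv D (B b).W fun i => P.a i

namespace Rx

variable {X : Cx D} (R : Rx X)

/-- The coefficients of `K + Δ`. -/
def γ (i : ι) : ℝ := R.k i / R.N

/-- The poles in degree `(p, t)`. -/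
def Q (p t : ℕ) (i : ι) : ℤ := p * R.k i + t * R.P.a i

/-- A weight on `K + Δ`. -/
def Wt (ψ : M.X → ℝ) : Prop := Psh D ψ ∧ ∃ C, ∀ x ∈ off D, ψ x ≤ C - lw D R.γ x

/-- A section of degree `m` over `V` that is not zero at `x`. -/
structure Sc (V : Set M.X) (m : ℕ) (f : D.A → M.X → ℂ) (b : D.A) (x : M.X) : Prop where
  mer : ∀ d, MerOn D (R.B d).W (R.Q m 0) (f d)
  glue : ∀ d d', ∀ y ∈ V ∩ ((R.B d).W ∩ (R.B d').W), Van D (R.Q m 0) (f d - f d') y
  mem : x ∈ V ∩ (R.B b).W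
  ne : ¬ Van D (R.Q m 0) (f b) x

/-- Non-vanishing on the analytic subsets of the support. -/
def Nv : Prop := ∀ V : Set M.X, V.Nonempty → V ⊆ Spt D R.k → An D V →
  ∃ m > 0, ∃ f b x, R.Sc V m f b x

end Rx

end Pool.Agent.Lib.NA
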