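import Pool.Agent.Lib.EX.SDefs

/-! Definitions used in the statement: analytic sets, a morphism to a projective space for which
the open sets of the cover are saturated, klt coefficients. -/

open scoped Topology

namespace Pool.Agent.Lib.NA

open Pool.Agent.Lib.SV Pool.Agent.Lib.KP Pool.Agent.Lib.EX

variable (n : ℕ) {Y ι I : Type} [TopologicalSpace Y] [ChartedSpace (E n) Y] [Fintype I]

/-- `V` is a closed analytic subset. -/
def Ana (V : Set Y) : Prop :=
  ∀ y, ∃ (r : ℕ) (f : Y → E r), ∀ᶠ x in 𝓝 y, (∀ j, HolAt n 0 (f · j) x) ∧ (x ∈ V ↔ f x = 0)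

/-- A divisor `∑ a i D i` with all `a i > 0` is the pull-back of a hyperplane class by a morphism
`φ = [t]` to a projective space; each `W b` is a union of fibres of `φ`, and the divisor is
principal on it. -/
def Pull (D : I → Set Y) (W : ι → Set Y) : Prop :=
  ∃ (r : ℕ) (a : I → ℕ) (τ : Y → E r) (φ : Y → Submodule ℂ (E r)), (∀ i, 0 < a i) ∧
    (∀ y, ∃ (h : I → Y → ℂ) (t : Y → E r), Eqs n D y h ∧ t y ≠ 0 ∧ ∀ᶠ x in 𝓝 y,
      (∀ j, HolAt n 0 (t · j) x) ∧ τ x = (∏ i, h i x ^ (-a i : ℤ)) • t x ∧ φ x = ℂ ∙ t x) ∧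
    ∀ b, (∀ x ∈ W b, ∀ y, φ y = φ x → y ∈ W b) ∧ ∃ s, ∀ y ∈ W b, Ord n 0 D (fun i => a i) s y

/-- The coefficients `δ i = k i / M - l i / m` of the boundary are less than `1`, and
non-negative for `i ∉ ex`. -/
structure Klt {I : Type} (m M : ℕ) (ex : Set I) (k : I → ℕ) (l : I → ℤ) : Prop where
  lt : ∀ i, (k i / M - l i / m : ℝ) < 1
  ge : ∀ i ∉ ex, (0 : ℝ) ≤ k i / M - l i / m

end Pool.Agent.Lib.NA
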