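import Pool.Agent.Lib.NA.SDefs

/-! Definitions used in the statement: the morphism to a projective space, local integrability of
the density of a linear system. -/

open scoped Topology
open Complex

namespace Pool.Agent.Lib.NA

open Pool.Agent.Lib.SV Pool.Agent.Lib.KP Pool.Agent.Lib.EX

variable (n : ℕ) {Y ι I : Type} [TopologicalSpace Y] [ChartedSpace (E n) Y] [Fintype I]

/-- `φ = [t]` is a morphism to a projective space, and a divisor `∑ a i D i` with all `a i > 0` is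
the pull-back of a hyperplane class; each `W b` is a union of fibres of `φ`, and the divisor is
principal on it. -/
def Mor (D : I → Set Y) (W : ι → Set Y) {r : ℕ} (φ : Y → Submodule ℂ (E r)) : Prop :=
  ∃ (a : I → ℕ) (τ : Y → E r), (∀ i, 0 < a i) ∧
    (∀ y, ∃ (h : I → Y → ℂ) (t : Y → E r), Eqs n D y h ∧ t y ≠ 0 ∧ ∀ᶠ x in 𝓝 y,
      (∀ j, HolAt n 0 (t · j) x) ∧ τ x = (∏ i, h i x ^ (-a i : ℤ)) • t x ∧ φ x = ℂ ∙ t x) ∧
    ∀ b, (∀ x ∈ W b, ∀ y, φ y = φ x → y ∈ W b) ∧ ∃ s, ∀ y ∈ W b, Ord n 0 D (fun i => a i) s y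

/-- The density `(∑ |s b|²)^(-c) ∏ |h i|^(-2 δ i)` is integrable near `y`. -/
def Itg (D : I → Set Y) (δ : I → ℝ) (W : ι → Set Y) {q : ℕ} (s : Fin q → ι → Y → ℂ) (c : ℝ)
    (y : Y) : Prop :=
  ∃ a h, y ∈ W a ∧ Eqs n D y h ∧ ∃ V ∈ 𝓝 (chartAt (E n) y y), ∫⁻ z in V, ENNReal.ofReal
    ((∑ b, normSq (s b a ((chartAt (E n) y).symm z))) ^ (-c) *
      ∏ i, normSq (h i ((chartAt (E n) y).symm z)) ^ (-δ i)) < ⊤

end Pool.Agent.Lib.NA
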